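import Pool.Agent.H554V.Stmts

/-!
# Basic facts on the conditions: finite changes, levels
-/

namespace Pool.Agent.H554V

open Pool.Agent.Helper669.Forcing Set

variable {J : Type}

open Classical in
/-- the sets of `p` with the values `t e` prescribed for `e` in `F` -/
noncomputable def fixS (p : Cnd J) (F : Finset (J × ℕ)) (t : J × ℕ → ℕ) : J → ℕ → Finset ℕ :=
  fun γ m => if (γ, m) ∈ F ∧ t (γ, m) ∈ p.S γ m then {t (γ, m)} else p.S γ m

theorem fixS_sub (p : Cnd J) (F : Finset (J × ℕ)) (t : J × ℕ → ℕ) (γ : J) (m : ℕ) :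
    fixS p F t γ m ⊆ p.S γ m := by
  classical
  unfold fixS
  split_ifs with h
  · exact Finset.singleton_subset_iff.2 h.2
  · exact Finset.Subset.refl _

theorem fixS_of_notMem {p : Cnd J} {F : Finset (J × ℕ)} {t : J × ℕ → ℕ} {γ : J} {m : ℕ}
    (h : (γ, m) ∉ F) : fixS p F t γ m = p.S γ m := by
  classical
  unfold fixS
  rw [if_neg fun h' => h h'.1]

theorem fixS_of_mem {p : Cnd J} {F : Finset (J × ℕ)} {t : J × ℕ → ℕ} {γ : J} {m : ℕ}
    (h : (γ, m) ∈ F) (h' : t (γ, m) ∈ p.S γ m) : fixS p F t γ m = {t (γ, m)} := by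
  classical
  unfold fixS
  rw [if_pos ⟨h, h'⟩]

/-- Bigness is not affected by finitely many levels. -/
theorem big_of_eq {S S' : J → ℕ → Finset ℕ} (F : Finset (J × ℕ)) (γ : J)
    (hb : ∀ k, ∃ m, k ≤ (S γ m).card) (h : ∀ m, (γ, m) ∉ F → S γ m ⊆ S' γ m) (k : ℕ) :
    ∃ m, (γ, m) ∉ F ∧ k ≤ (S' γ m).card := by
  classical
  let M : Finset ℕ := F.image Prod.snd
  obtain ⟨m, hm⟩ := hb (k + (M.sum fun m => (S γ m).card) + 1)
  have hmF : (γ, m) ∉ F := by
    intro hF
    have h1 : m ∈ M := Finset.mem_image.2 ⟨_, hF, rfl⟩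
    have h2 := Finset.single_le_sum (f := fun m => (S γ m).card) (fun _ _ => Nat.zero_le _) h1
    have h3 : (S γ m).card ≤ M.sum fun m => (S γ m).card := h2
    omega
  refine ⟨m, hmF, ?_⟩
  have := Finset.card_le_card (h m hmF)
  omega

/-- `p` with the values `t e` prescribed for `e` in `F` -/
noncomputable def Cnd.fix (p : Cnd J) (F : Finset (J × ℕ)) (t : J × ℕ → ℕ) : Cnd J where
  E := p.E
  S := fixS p F t
  inf := p.inf
  ne γ m := by
    classical
    unfold fixS
    split_ifs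
    · exact Finset.singleton_nonempty _
    · exact p.ne γ m
  sub γ m := (fixS_sub p F t γ m).trans (p.sub γ m)
  big γ k := by
    obtain ⟨m, -, h⟩ := big_of_eq (S := p.S) (S' := fixS p F t) F γ (p.big γ)
      (fun m hm => by rw [fixS_of_notMem hm]) k
    exact ⟨m, h⟩
  ctb := by
    refine (p.ctb.union (F.finite_toSet.image Prod.fst).countable).mono ?_
    rintro γ ⟨m, hm⟩
    by_cases h : (γ, m) ∈ F
    · exact Or.inr ⟨(γ, m), h, rfl⟩
    · exact Or.inl ⟨m, by rwa [fixS_of_notMem h] at hm⟩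

theorem Cnd.fix_E (p : Cnd J) (F : Finset (J × ℕ)) (t : J × ℕ → ℕ) : (p.fix F t).E = p.E := rfl

theorem Cnd.fix_S (p : Cnd J) (F : Finset (J × ℕ)) (t : J × ℕ → ℕ) :
    (p.fix F t).S = fixS p F t := rfl

theorem Cnd.fix_le (p : Cnd J) (F : Finset (J × ℕ)) (t : J × ℕ → ℕ) : p.fix F t ≤ p :=
  ⟨by rw [Cnd.fix_E]; simp, fun γ m => fixS_sub p F t γ m⟩

/-- `t` chooses values allowed by `p` on `F` -/
def Picks (p : Cnd J) (F : Finset (J × ℕ)) (t : J × ℕ → ℕ) : Prop := ∀ e ∈ F, t e ∈ p.S e.1 e.2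

theorem Picks.mono {p q : Cnd J} {F F' : Finset (J × ℕ)} {t : J × ℕ → ℕ} (h : Picks p F t)
    (hle : p ≤ q) (hF : F' ⊆ F) : Picks q F' t := fun e he => hle.2 _ _ (h e (hF he))

theorem exists_picks (p : Cnd J) : ∃ t : J × ℕ → ℕ, ∀ F, Picks p F t := by
  choose t ht using fun e : J × ℕ => p.ne e.1 e.2
  exact ⟨t, fun F e _ => ht e⟩

/-- monotonicity of fixing -/
theorem fix_mono {p q : Cnd J} {F F' : Finset (J × ℕ)} {t : J × ℕ → ℕ} (hle : p ≤ q)
    (hF : F' ⊆ F) (ht : Picks p F t) : p.fix F t ≤ q.fix F' t := by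
  refine ⟨hle.1, fun γ m => ?_⟩
  rw [Cnd.fix_S, Cnd.fix_S]
  by_cases h : (γ, m) ∈ F'
  · rw [fixS_of_mem h (hle.2 _ _ (ht _ (hF h))), fixS_of_mem (hF h) (ht _ (hF h))]
  · rw [fixS_of_notMem h]
    exact (fixS_sub p F t γ m).trans (hle.2 γ m)

/-- the conditions `p.fix F t` are predense below `p` -/
theorem dense_of_fix {p : Cnd J} {F : Finset (J × ℕ)} {φ : Set (Cnd J)} (hφ : Down φ)
    (h : ∀ t, Picks p F t → p.fix F t ∈ φ) : ∀ q ≤ p, ∃ r ≤ q, r ∈ φ := by
  intro q hq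
  obtain ⟨t, ht⟩ := exists_picks q
  exact ⟨q.fix F t, q.fix_le F t, hφ _ (h t ((ht F).mono hq (Finset.Subset.refl _))) _
    (fix_mono hq (Finset.Subset.refl _) (ht F))⟩

/-! ### levels -/

/-- enumeration of the levels over the coordinates `α 0, α 1, ...` -/
def lev (α : ℕ → J) (j : ℕ) : J × ℕ := (α (Nat.unpair j).1, (Nat.unpair j).2)

/-- the label of a level -/
def lam0 (j : ℕ) : ℕ := (Nat.unpair j).1

theorem lev_inj {α : ℕ → J} (hα : Function.Injective α) : Function.Injective (lev α) := by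
  intro i j h
  have h1 : (Nat.unpair i).1 = (Nat.unpair j).1 := hα (congrArg (fun e : J × ℕ => e.1) h)
  have h2 : (Nat.unpair i).2 = (Nat.unpair j).2 := congrArg (fun e : J × ℕ => e.2) h
  rw [← Nat.pair_unpair i, ← Nat.pair_unpair j, h1, h2]

open Classical in
/-- the finite sets of `q` changed to `S'` on the levels -/
noncomputable def subS (q : Cnd J) (α : ℕ → J) (S' : ℕ → Finset ℕ) : J → ℕ → Finset ℕ :=
  fun γ m => if h : ∃ j, lev α j = (γ, m) then S' h.choose else q.S γ m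

theorem subS_lev {q : Cnd J} {α : ℕ → J} (hα : Function.Injective α) (S' : ℕ → Finset ℕ) (j : ℕ) :
    subS q α S' (lev α j).1 (lev α j).2 = S' j := by
  classical
  have h : ∃ i, lev α i = ((lev α j).1, (lev α j).2) := ⟨j, rfl⟩
  unfold subS
  rw [dif_pos h]
  exact congrArg S' (lev_inj hα h.choose_spec)

theorem subS_off {q : Cnd J} {α : ℕ → J} (S' : ℕ → Finset ℕ) {γ : J} {m : ℕ}
    (h : ∀ j, lev α j ≠ (γ, m)) : subS q α S' γ m = q.S γ m := by
  classical
  unfold subS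
  rw [dif_neg (by push Not; exact h)]

/-- `q` changed to `E'` and `S'` on the levels -/
noncomputable def Cnd.upd (q : Cnd J) (α : ℕ → J) (hα : Function.Injective α) (E' : Set ℕ)
    (S' : ℕ → Finset ℕ) (hE : E'.Infinite) (hS : ∀ j, S' j ⊆ q.S (lev α j).1 (lev α j).2)
    (hB : Big lam0 S') : Cnd J where
  E := E'
  S := subS q α S'
  inf := hE
  ne γ m := by
    by_cases h : ∃ j, lev α j = (γ, m)
    · obtain ⟨j, hj⟩ := h
      have := subS_lev (q := q) hα S' j
      rw [hj] at this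
      simp only at this
      rw [this]
      exact hB.1 j
    · push Not at h
      rw [subS_off S' h]
      exact q.ne γ m
  sub γ m := by
    by_cases h : ∃ j, lev α j = (γ, m)
    · obtain ⟨j, hj⟩ := h
      have h1 := subS_lev (q := q) hα S' j
      have h2 := hS j
      rw [hj] at h1 h2
      simp only at h1 h2
      rw [h1]
      exact h2.trans (q.sub γ m)
    · push Not at h
      rw [subS_off S' h]
      exact q.sub γ m
  big γ k := by
    by_cases h : ∃ v, α v = γ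
    · obtain ⟨v, rfl⟩ := h
      obtain ⟨j, hj, hk⟩ := hB.2 v k
      refine ⟨(lev α j).2, ?_⟩
      have h1 : α v = (lev α j).1 := by
        show α v = α (Nat.unpair j).1
        rw [← hj]; rfl
      rw [h1, subS_lev hα]
      exact hk
    · obtain ⟨m, hm⟩ := q.big γ k
      refine ⟨m, ?_⟩
      rw [subS_off S' fun j hj => h ⟨_, congrArg Prod.fst hj⟩]
      exact hm
  ctb := by
    refine (q.ctb.union (countable_range α)).mono ?_
    rintro γ ⟨m, hm⟩
    by_cases h : ∃ v, α v = γ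
    · exact Or.inr h
    · refine Or.inl ⟨m, ?_⟩
      rwa [subS_off S' fun j hj => h ⟨_, congrArg Prod.fst hj⟩] at hm

theorem Cnd.upd_le {q : Cnd J} {α : ℕ → J} {hα : Function.Injective α} {E' : Set ℕ}
    {S' : ℕ → Finset ℕ} {hE : E'.Infinite} {hS : ∀ j, S' j ⊆ q.S (lev α j).1 (lev α j).2}
    {hB : Big lam0 S'} (hE' : (E' \ q.E).Finite) : q.upd α hα E' S' hE hS hB ≤ q := by
  refine ⟨hE', fun γ m => ?_⟩
  show subS q α S' γ m ⊆ q.S γ m
  by_cases h : ∃ j, lev α j = (γ, m)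
  · obtain ⟨j, hj⟩ := h
    have h1 := subS_lev (q := q) hα S' j
    have h2 := hS j
    rw [hj] at h1 h2
    simp only at h1 h2
    rw [h1]
    exact h2
  · push Not at h
    rw [subS_off S' h]

/-- the point on the levels given by `t` -/
def ofT (α : ℕ → J) (t : J × ℕ → ℕ) : ℕ → ℕ := fun j => t (lev α j)

end Pool.Agent.H554V
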