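import Pool.Agent.H554V.Stmts

/-!
# The combinatorial lemma (CM), from the combinatorial lemma (CU)
-/

namespace Pool.Agent.H554V

open Set Filter

namespace CMM

theorem exists_ge {lam : ℕ → ℕ} {S : ℕ → Finset ℕ} (h : Big lam S) (v k L : ℕ) :
    ∃ j, L ≤ j ∧ lam j = v ∧ k ≤ (S j).card := by
  obtain ⟨j, hj, hk⟩ := h.2 v (max k ((Finset.range L).sup (fun j => (S j).card) + 1))
  refine ⟨j, ?_, hj, le_trans (le_max_left _ _) hk⟩
  by_contra hlt
  push Not at hlt
  have h1 : (S j).card ≤ (Finset.range L).sup (fun j => (S j).card) :=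
    Finset.le_sup (f := fun j => (S j).card) (Finset.mem_range.2 hlt)
  have h2 := le_trans (le_max_right _ _) hk
  omega

/-- `h` below `L`, `x` from `L` on -/
def mix (L : ℕ) (h x : ℕ → ℕ) : ℕ → ℕ := fun j => if j < L then h j else x j

open Classical in
theorem cu_finset (hcu : SCU) {lam : ℕ → ℕ} {S : ℕ → Finset ℕ} {E : Set ℕ}
    {C : ℕ → (ℕ → ℕ) → Bool} {l : ℕ → ℕ} (hB : Big lam S) (hE : E.Infinite)
    (hC : ∀ n x y, (∀ j < l n, x j = y j) → C n x = C n y) (L : ℕ) (H : Finset (ℕ → ℕ)) :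
    ∃ (E' : Set ℕ) (S' : ℕ → Finset ℕ), E' ⊆ E ∧ E'.Infinite ∧ (∀ j, S' j ⊆ S j) ∧
      (∀ j < L, S' j = S j) ∧ Big lam S' ∧
      ∀ h ∈ H, ∃ ε : Bool, ∀ n ∈ E', ∀ x, InBox S' x → C n (mix L h x) = ε := by
  induction H using Finset.induction_on with
  | empty => exact ⟨E, S, Subset.rfl, hE, fun j => Finset.Subset.refl _, fun j _ => rfl, hB,
      fun h hh => absurd hh (Finset.notMem_empty _)⟩
  | insert h H hh ih =>
    obtain ⟨E1, S1, hE1, hE1', hS1, hS1', hB1, hH⟩ := ih
    obtain ⟨E2, S2, ε, hE2, hE2', hS2, hB2, h2⟩ := hcu lam S1 E1 (fun n x => C n (mix L h x)) l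
      hB1 hE1' (fun n x y hxy => hC n _ _ fun j hj => by
        simp only [mix]
        split_ifs with hjL
        · rfl
        · exact hxy j hj)
    have hsub : ∀ j, (if j < L then S j else S2 j) ⊆ S1 j := fun j => by
      split_ifs with hj
      · rw [hS1' j hj]
      · exact hS2 j
    refine ⟨E2, fun j => if j < L then S j else S2 j, hE2.trans hE1, hE2',
      fun j => (hsub j).trans (hS1 j), fun j hj => if_pos hj, ⟨fun j => ?_, fun v k => ?_⟩, ?_⟩
    · dsimp only
      split_ifs with hj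
      · exact hB.1 j
      · exact hB2.1 j
    · obtain ⟨j, hj, hk⟩ := hB2.2 v k
      refine ⟨j, hj, hk.trans (Finset.card_le_card ?_)⟩
      dsimp only
      split_ifs with hjL
      · exact (hS2 j).trans (hS1 j)
      · exact Finset.Subset.refl _
    · intro h' hh'
      rcases Finset.mem_insert.1 hh' with rfl | hh'
      · refine ⟨ε, fun n hn x hx => ?_⟩
        have hy : InBox S2 (fun j => if j < L then (hB2.1 j).choose else x j) := fun j => by
          dsimp only
          split_ifs with hj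
          · exact (hB2.1 j).choose_spec
          · have := hx j
            simpa only [if_neg hj] using this
        have := h2 n hn _ hy
        rw [← this]
        congr 1
        funext j
        simp only [mix]
        split_ifs <;> rfl
      · obtain ⟨ε', hε'⟩ := hH h' hh'
        exact ⟨ε', fun n hn x hx => hε' n (hE2 hn) x fun j => hsub j (hx j)⟩

/-- paper 2.4 -/
theorem cu_fix (hcu : SCU) {lam : ℕ → ℕ} {S : ℕ → Finset ℕ} {E : Set ℕ}
    {C : ℕ → (ℕ → ℕ) → Bool} {l : ℕ → ℕ} (hB : Big lam S) (hE : E.Infinite)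
    (hC : ∀ n x y, (∀ j < l n, x j = y j) → C n x = C n y) (L : ℕ) :
    ∃ (E' : Set ℕ) (S' : ℕ → Finset ℕ) (ε : (ℕ → ℕ) → Bool), E' ⊆ E ∧ E'.Infinite ∧
      (∀ j, S' j ⊆ S j) ∧ (∀ j < L, S' j = S j) ∧ Big lam S' ∧
      (∀ x y, (∀ j < L, x j = y j) → ε x = ε y) ∧
      ∀ n ∈ E', ∀ x, InBox S' x → C n x = ε x := by
  classical
  set H : Finset (ℕ → ℕ) := (Fintype.piFinset (fun j : Fin L => S j)).image
    (fun f j => if hj : j < L then f ⟨j, hj⟩ else 0) with hH
  obtain ⟨E', S', hE1, hE2, hS1, hS2, hB', hh⟩ := cu_finset hcu hB hE hC L H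
  have hmem : ∀ x, InBox S' x → mix L x (fun _ => 0) ∈ H := fun x hx => by
    rw [hH, Finset.mem_image]
    refine ⟨fun j => x j, ?_, ?_⟩
    · rw [Fintype.mem_piFinset]
      exact fun j => hS1 _ (hx _)
    · funext j
      simp only [mix]
      split_ifs <;> rfl
  choose! g hg using hh
  refine ⟨E', S', fun x => g (mix L x (fun _ => 0)), hE1, hE2, hS1, hS2, hB', fun x y hxy => ?_,
    fun n hn x hx => ?_⟩
  · have : mix L x (fun _ => 0) = mix L y (fun _ => 0) := by
      funext j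
      simp only [mix]
      split_ifs with hj
      · exact hxy j hj
      · rfl
    simp only [this]
  · have := hg _ (hmem x hx) n hn x hx
    show C n x = g (mix L x (fun _ => 0))
    rw [← this]
    congr 1
    funext j
    simp only [mix]
    split_ifs <;> rfl

section

variable {lam : ℕ → ℕ} {S : ℕ → Finset ℕ} {E : Set ℕ} {C : ℕ → (ℕ → ℕ) → Bool} {l : ℕ → ℕ}
  {Jl : ℕ → ℕ} {b : ℕ → ℕ → ℕ} {i : ℕ → ℕ}

/-- a stage of the construction -/
structure Stage (S : ℕ → Finset ℕ) where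
  L : ℕ
  S0 : ℕ → Finset ℕ
  n : ℕ
  sub : ∀ j, S0 j ⊆ S j
  ne : ∀ j, (S0 j).Nonempty
  eq : ∀ j, L ≤ j → S0 j = S j

theorem step (hcu : SCU) (hB : Big lam S) (hE : E.Infinite)
    (hC : ∀ n x y, (∀ j < l n, x j = y j) → C n x = C n y) (hJ : StrictMono Jl)
    (hlam : ∀ k, lam (Jl k) = lam (Jl 0))
    (hb : ∀ i, ∀ k ≤ i, i + 1 ≤ ((S (Jl i)).filter (fun h => b i h = k)).card)
    (hi : Tendsto i atTop atTop)
    (hno : ¬ ∃ (E' : Set ℕ) (S' : ℕ → Finset ℕ), E' ⊆ E ∧ E'.Infinite ∧ (∀ j, S' j ⊆ S j) ∧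
      Big lam S' ∧ ∃ k, ∀ n ∈ E', ∀ x, InBox S' x → b (i n) (x (Jl (i n))) = k ∧ C n x = false)
    (k v K : ℕ) (s : Stage S) : ∃ s' : Stage S, s.L < s'.L ∧ s.n < s'.n ∧ s'.n ∈ E ∧
      (∀ j, s'.S0 j ⊆ s.S0 j) ∧ (∀ j < s.L, s'.S0 j = s.S0 j) ∧
      (∃ j < s'.L, lam j = v ∧ K ≤ (s'.S0 j).card) ∧
      ∀ x, InBox s'.S0 x → b (i s'.n) (x (Jl (i s'.n))) = k ∧ C s'.n x = true := by
  classical
  -- the box `T`
  set T : ℕ → Finset ℕ := fun j => if j < s.L then s.S0 j else
    (S j).filter (fun h => ∀ i', k ≤ i' → Jl i' = j → b i' h = k) with hT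
  have hTlt : ∀ j, j < s.L → T j = s.S0 j := fun j hj => by simp only [hT, if_pos hj]
  have hTge : ∀ j, s.L ≤ j → T j =
      (S j).filter (fun h => ∀ i', k ≤ i' → Jl i' = j → b i' h = k) := fun j hj => by
    simp only [hT, if_neg (not_lt.2 hj)]
  have hTJ : ∀ i', k ≤ i' → s.L ≤ Jl i' → T (Jl i') = (S (Jl i')).filter (fun h => b i' h = k) := by
    intro i' hi' hL
    rw [hTge _ hL]
    apply Finset.filter_congr
    intro h _
    constructor
    · intro hh
      exact hh i' hi' rfl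
    · intro hh i'' _ he
      rw [hJ.injective he]
      exact hh
  have hTn : ∀ j, s.L ≤ j → (∀ i', k ≤ i' → Jl i' ≠ j) → T j = S j := by
    intro j hj hne
    rw [hTge _ hj]
    apply Finset.filter_true_of_mem
    intro h _ i' hi' he
    exact absurd he (hne i' hi')
  have hTsub : ∀ j, T j ⊆ s.S0 j := by
    intro j
    by_cases hj : j < s.L
    · rw [hTlt j hj]
    · push Not at hj
      rw [hTge j hj, s.eq j hj]
      exact Finset.filter_subset _ _
  have hTB : Big lam T := by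
    constructor
    · intro j
      by_cases hj : j < s.L
      · rw [hTlt j hj]
        exact s.ne j
      · push Not at hj
        by_cases hex : ∃ i', k ≤ i' ∧ Jl i' = j
        · obtain ⟨i', hi', rfl⟩ := hex
          rw [hTJ i' hi' hj, ← Finset.card_pos]
          have := hb i' k hi'
          omega
        · push Not at hex
          rw [hTn j hj hex]
          exact hB.1 j
    · intro v' K'
      by_cases hv : v' = lam (Jl 0)
      · have h1 : max k (max K' s.L) ≤ Jl (max k (max K' s.L)) := hJ.le_apply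
        refine ⟨Jl (max k (max K' s.L)), by rw [hlam, hv], ?_⟩
        rw [hTJ _ (le_max_left _ _) (le_trans (le_trans (le_max_right _ _) (le_max_right _ _)) h1)]
        have h2 := hb (max k (max K' s.L)) k (le_max_left _ _)
        have h3 : K' ≤ max k (max K' s.L) := le_trans (le_max_left _ _) (le_max_right _ _)
        omega
      · obtain ⟨j, hj, hjv, hjK⟩ := exists_ge hB v' K' s.L
        refine ⟨j, hjv, ?_⟩
        rw [hTn j hj]
        · exact hjK
        · rintro i' _ rfl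
          exact hv (by rw [← hjv, hlam])
  obtain ⟨E', S', ε, hE1, hE2, hS1, hS2, hB', hε, hCε⟩ := cu_fix hcu hTB hE hC s.L
  -- the numbers `n` which are large
  obtain ⟨N, hN⟩ := (hi.eventually_ge_atTop (max k s.L)).exists_forall_of_atTop
  have hNk : ∀ n, N ≤ n → k ≤ i n := fun n hn => le_trans (le_max_left _ _) (hN n hn)
  have hNL : ∀ n, N ≤ n → s.L ≤ Jl (i n) := fun n hn =>
    le_trans (le_trans (le_max_right _ _) (hN n hn)) hJ.le_apply
  have hbk : ∀ n, N ≤ n → ∀ h ∈ S' (Jl (i n)), b (i n) h = k := by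
    intro n hn h hh
    have h1 := hS1 _ hh
    rw [hTJ _ (hNk n hn) (hNL n hn), Finset.mem_filter] at h1
    exact h1.2
  have hSS : ∀ j, S' j ⊆ S j := fun j => (hS1 j).trans ((hTsub j).trans (s.sub j))
  have hall : ∀ x, InBox S' x → ε x = true := by
    intro x hx
    by_contra hfalse
    rw [Bool.not_eq_true] at hfalse
    apply hno
    have hsub : ∀ j, (if j < s.L then {x j} else S' j) ⊆ S' j := fun j => by
      split_ifs with hj
      · exact Finset.singleton_subset_iff.2 (hx j)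
      · exact Finset.Subset.refl _
    refine ⟨{n | n ∈ E' ∧ N ≤ n}, fun j => if j < s.L then {x j} else S' j, fun n hn => hE1 hn.1,
      ?_, fun j => (hsub j).trans (hSS j), ⟨?_, ?_⟩, k, ?_⟩
    · have : E' \ {n | n < N} ⊆ {n | n ∈ E' ∧ N ≤ n} := fun n hn => ⟨hn.1, not_lt.1 hn.2⟩
      exact (hE2.sdiff (Set.finite_lt_nat N)).mono this
    · intro j
      dsimp only
      split_ifs with hj
      · exact Finset.singleton_nonempty _
      · exact hB'.1 j
    · intro v' K'
      obtain ⟨j, hj, hjv, hjK⟩ := exists_ge hB' v' K' s.L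
      exact ⟨j, hjv, by simpa only [if_neg (not_lt.2 hj)] using hjK⟩
    · rintro n ⟨hn, hnN⟩ y hy
      have hy' : InBox S' y := fun j => hsub j (hy j)
      refine ⟨hbk n hnN _ (hy' _), ?_⟩
      rw [hCε n hn y hy', ← hfalse]
      apply hε
      intro j hj
      have := hy j
      simpa only [if_pos hj, Finset.mem_singleton] using this
  -- the next stage
  obtain ⟨n, hn, hnN⟩ := hE2.exists_gt (max N s.n)
  have hnN' : N ≤ n := le_trans (le_max_left _ _) hnN.le
  have hns : s.n < n := lt_of_le_of_lt (le_max_right _ _) hnN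
  set L' := max s.L (max (l n) (Jl (i n) + 1)) with hL'
  have hL1 : s.L ≤ L' := le_max_left _ _
  have hL2 : l n ≤ L' := le_trans (le_max_left _ _) (le_max_right _ _)
  have hL3 : Jl (i n) < L' := lt_of_lt_of_le (Nat.lt_succ_self _)
    (le_trans (le_max_right _ _) (le_max_right _ _))
  obtain ⟨j0, hj0, hj0v, hj0K⟩ := exists_ge hB v K L'
  have hsub' : ∀ j, (if j < L' then S' j else S j) ⊆ s.S0 j := fun j => by
    split_ifs with hj
    · exact (hS1 j).trans (hTsub j)
    · rw [s.eq j (hL1.trans (not_lt.1 hj))]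
  refine ⟨⟨j0 + 1, fun j => if j < L' then S' j else S j, n, fun j => (hsub' j).trans (s.sub j),
    fun j => ?_, fun j hj => ?_⟩, ?_, hns, hE1 hn, hsub', fun j hj => ?_, ⟨j0, Nat.lt_succ_self _,
      hj0v, ?_⟩, fun x hx => ?_⟩
  · split_ifs with hj
    · exact hB'.1 j
    · exact hB.1 j
  · exact if_neg (by omega)
  · show s.L < j0 + 1
    omega
  · show (if j < L' then S' j else S j) = s.S0 j
    rw [if_pos (lt_of_lt_of_le hj hL1), hS2 j hj, hTlt j hj]
  · show K ≤ (if j0 < L' then S' j0 else S j0).card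
    rw [if_neg (not_lt.2 hj0)]
    exact hj0K
  · -- replace the coordinates of `x` from `L'` on
    have hx' : ∀ j, j < L' → x j ∈ S' j := fun j hj => by
      have := hx j
      simpa only [if_pos hj] using this
    have hy : InBox S' (fun j => if j < L' then x j else (hB'.1 j).choose) := fun j => by
      dsimp only
      split_ifs with hj
      · exact hx' j hj
      · exact (hB'.1 j).choose_spec
    refine ⟨hbk n hnN' _ (hx' _ hL3), ?_⟩
    show C n x = true
    rw [← hall _ hy, ← hCε n hn _ hy]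
    apply hC
    intro j hj
    rw [if_pos (lt_of_lt_of_le hj hL2)]

end

end CMM

open CMM

/-- paper 2.5 -/
theorem cm : SCU → SCM := by
  intro hcu lam S E C l Jl b i hB hE hC hJ hlam hb hi
  by_cases hno : ∃ (E' : Set ℕ) (S' : ℕ → Finset ℕ), E' ⊆ E ∧ E'.Infinite ∧ (∀ j, S' j ⊆ S j) ∧
      Big lam S' ∧ ∃ k, ∀ n ∈ E', ∀ x, InBox S' x → b (i n) (x (Jl (i n))) = k ∧ C n x = false
  · obtain ⟨E', S', h1, h2, h3, h4, h5⟩ := hno
    exact ⟨E', S', h1, h2, h3, h4, Or.inl h5⟩
  have hstep := step hcu hB hE hC hJ hlam hb hi hno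
  choose f hf using hstep
  let s0 : Stage S := ⟨0, S, 0, fun j => Finset.Subset.refl _, hB.1, fun j _ => rfl⟩
  let st : ℕ → Stage S := fun k => Nat.rec s0 (fun k s => f k k.unpair.1 k.unpair.2 s) k
  have hst : ∀ k, st (k + 1) = f k k.unpair.1 k.unpair.2 (st k) := fun k => rfl
  have h1 : ∀ k, (st k).L < (st (k + 1)).L := fun k => by rw [hst]; exact (hf _ _ _ _).1
  have h2 : ∀ k, (st k).n < (st (k + 1)).n := fun k => by rw [hst]; exact (hf _ _ _ _).2.1
  have h3 : ∀ k, (st (k + 1)).n ∈ E := fun k => by rw [hst]; exact (hf _ _ _ _).2.2.1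
  have h4 : ∀ k j, (st (k + 1)).S0 j ⊆ (st k).S0 j := fun k => by
    rw [hst]; exact (hf _ _ _ _).2.2.2.1
  have h5 : ∀ k, ∀ j < (st k).L, (st (k + 1)).S0 j = (st k).S0 j := fun k => by
    rw [hst]; exact (hf _ _ _ _).2.2.2.2.1
  have h6 : ∀ k, ∃ j < (st (k + 1)).L, lam j = k.unpair.1 ∧
      k.unpair.2 ≤ ((st (k + 1)).S0 j).card := fun k => by
    rw [hst]; exact (hf _ _ _ _).2.2.2.2.2.1
  have h7 : ∀ k, ∀ x, InBox (st (k + 1)).S0 x →
      b (i (st (k + 1)).n) (x (Jl (i (st (k + 1)).n))) = k ∧ C (st (k + 1)).n x = true :=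
    fun k => by rw [hst]; exact (hf _ _ _ _).2.2.2.2.2.2
  have hLmono : StrictMono fun k => (st k).L := strictMono_nat_of_lt_succ h1
  have hnmono : StrictMono fun k => (st k).n := strictMono_nat_of_lt_succ h2
  have hanti : ∀ j, Antitone fun k => (st k).S0 j := fun j =>
    antitone_nat_of_succ_le fun k => h4 k j
  have hconst : ∀ k d, ∀ j < (st k).L, (st (k + d)).S0 j = (st k).S0 j := by
    intro k d
    induction d with
    | zero => intro j _; rfl
    | succ d ih =>
      intro j hj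
      rw [← ih j hj]
      exact h5 (k + d) j (lt_of_lt_of_le hj (hLmono.monotone (Nat.le_add_right k d)))
  have hLge : ∀ k, k ≤ (st k).L := fun k => hLmono.le_apply
  set S' : ℕ → Finset ℕ := fun j => (st (j + 1)).S0 j with hS'
  have hfin : ∀ k j, S' j ⊆ (st k).S0 j := by
    intro k j
    rcases le_total k (j + 1) with hk | hk
    · exact hanti j hk
    · obtain ⟨d, rfl⟩ := Nat.exists_eq_add_of_le hk
      rw [hconst (j + 1) d j (lt_of_lt_of_le (Nat.lt_succ_self j) (hLge (j + 1)))]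
  have heq : ∀ k, ∀ j < (st k).L, S' j = (st k).S0 j := by
    intro k j hj
    rcases le_total k (j + 1) with hk | hk
    · obtain ⟨d, hd⟩ := Nat.exists_eq_add_of_le hk
      show (st (j + 1)).S0 j = _
      rw [hd, hconst k d j hj]
    · obtain ⟨d, rfl⟩ := Nat.exists_eq_add_of_le hk
      rw [hconst (j + 1) d j (lt_of_lt_of_le (Nat.lt_succ_self j) (hLge (j + 1)))]
  refine ⟨Set.range fun k => (st (k + 1)).n, S', ?_, ?_, fun j => (st (j + 1)).sub j,
    ⟨fun j => (st (j + 1)).ne j, fun v K => ?_⟩, Or.inr ⟨?_, ?_⟩⟩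
  · rintro _ ⟨k, rfl⟩
    exact h3 k
  · exact Set.infinite_range_of_injective fun k k' hk => Nat.succ_injective (hnmono.injective hk)
  · obtain ⟨j, hj, hjv, hjK⟩ := h6 (Nat.pair v K)
    rw [Nat.unpair_pair] at hjv hjK
    exact ⟨j, hjv, by rw [heq (Nat.pair v K + 1) j hj]; exact hjK⟩
  · rintro _ ⟨k, rfl⟩ x hx
    exact (h7 k x fun j => hfin (k + 1) j (hx j)).2
  · intro k
    refine ⟨(st (k + 1)).n, ?_⟩
    rintro _ ⟨k', rfl⟩ hk' x hx
    rw [(h7 k' x fun j => hfin (k' + 1) j (hx j)).1]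
    have hkk : k + 1 ≤ k' + 1 := by
      by_contra hlt
      exact absurd (hnmono (not_le.1 hlt)) (not_lt.2 hk')
    omega

end Pool.Agent.H554V
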