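import Pool.Agent.H554V.Stmts2
import Pool.Agent.H554V.CM

/-!
# The combinatorial lemma (CM), from the combinatorial lemma (CU)
-/

namespace Pool.Agent.H554V

open Set Filter

namespace CMO

open CMM (exists_ge mix)

open Classical in
theorem cu_finset (hcu : SCU2) {S : ℕ → Finset ℕ} {E : Set ℕ}
    {O : ℕ → (ℕ → ℕ) → Prop} (hB : Big lam0 S) (hb0 : Bdd0 S) (hE : E.Infinite)
    (hO : ∀ n, OpenP (O n)) (L : ℕ) (H : Finset (ℕ → ℕ)) :
    ∃ (E' : Set ℕ) (S' : ℕ → Finset ℕ), E' ⊆ E ∧ E'.Infinite ∧ (∀ j, S' j ⊆ S j) ∧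
      (∀ j < L, S' j = S j) ∧ Big lam0 S' ∧
      ∀ h ∈ H, ∃ ε : Bool, ∀ n ∈ E', ∀ x, InBox S' x → (O n (mix L h x) ↔ ε = true) := by
  induction H using Finset.induction_on with
  | empty => exact ⟨E, S, Subset.rfl, hE, fun j => Finset.Subset.refl _, fun j _ => rfl, hB,
      fun h hh => absurd hh (Finset.notMem_empty _)⟩
  | insert h H hh ih =>
    obtain ⟨E1, S1, hE1, hE1', hS1, hS1', hB1, hH⟩ := ih
    obtain ⟨E2, S2, ε, hE2, hE2', hS2, hB2, h2⟩ := hcu S1 E1 (fun n x => O n (mix L h x))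
      hB1 (fun j => (hS1 j).trans (hb0 j)) hE1' (fun n x hx => by
        obtain ⟨L0, hL0⟩ := hO n _ hx
        refine ⟨L0, fun y hxy => hL0 _ fun j hj => ?_⟩
        simp only [mix]
        split_ifs with hjL
        · rfl
        · exact hxy j hj)
    have hsub : ∀ j, (if j < L then S j else S2 j) ⊆ S1 j := fun j => by
      split_ifs with hj
      · rw [hS1' j hj]
      · exact hS2 j
    refine ⟨E2, fun j => if j < L then S j else S2 j, hE2.trans hE1, hE2',
      fun j => (hsub j).trans (hS1 j), fun j hj => if_pos hj, ⟨fun j => ?_, fun v k => ?_⟩, ?_⟩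
    · dsimp only
      split_ifs with hj
      · exact hB.1 j
      · exact hB2.1 j
    · obtain ⟨j, hj, hk⟩ := hB2.2 v k
      refine ⟨j, hj, hk.trans (Finset.card_le_card ?_)⟩
      dsimp only
      split_ifs with hjL
      · exact (hS2 j).trans (hS1 j)
      · exact Finset.Subset.refl _
    · intro h' hh'
      rcases Finset.mem_insert.1 hh' with rfl | hh'
      · refine ⟨ε, fun n hn x hx => ?_⟩
        have hy : InBox S2 (fun j => if j < L then (hB2.1 j).choose else x j) := fun j => by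
          dsimp only
          split_ifs with hj
          · exact (hB2.1 j).choose_spec
          · have := hx j
            simpa only [if_neg hj] using this
        have := h2 n hn _ hy
        rw [← this]
        have e : mix L h' x = mix L h' (fun j => if j < L then (hB2.1 j).choose else x j) := by
          funext j
          simp only [mix]
          split_ifs <;> rfl
        rw [e]
      · obtain ⟨ε', hε'⟩ := hH h' hh'
        exact ⟨ε', fun n hn x hx => hε' n (hE2 hn) x fun j => hsub j (hx j)⟩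

/-- paper 2.4 -/
theorem cu_fix (hcu : SCU2) {S : ℕ → Finset ℕ} {E : Set ℕ}
    {O : ℕ → (ℕ → ℕ) → Prop} (hB : Big lam0 S) (hb0 : Bdd0 S) (hE : E.Infinite)
    (hO : ∀ n, OpenP (O n)) (L : ℕ) :
    ∃ (E' : Set ℕ) (S' : ℕ → Finset ℕ) (ε : (ℕ → ℕ) → Bool), E' ⊆ E ∧ E'.Infinite ∧
      (∀ j, S' j ⊆ S j) ∧ (∀ j < L, S' j = S j) ∧ Big lam0 S' ∧
      (∀ x y, (∀ j < L, x j = y j) → ε x = ε y) ∧
      ∀ n ∈ E', ∀ x, InBox S' x → (O n x ↔ ε x = true) := by
  classical
  set H : Finset (ℕ → ℕ) := (Fintype.piFinset (fun j : Fin L => S j)).image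
    (fun f j => if hj : j < L then f ⟨j, hj⟩ else 0) with hH
  obtain ⟨E', S', hE1, hE2, hS1, hS2, hB', hh⟩ := cu_finset hcu hB hb0 hE hO L H
  have hmem : ∀ x, InBox S' x → mix L x (fun _ => 0) ∈ H := fun x hx => by
    rw [hH, Finset.mem_image]
    refine ⟨fun j => x j, ?_, ?_⟩
    · rw [Fintype.mem_piFinset]
      exact fun j => hS1 _ (hx _)
    · funext j
      simp only [mix]
      split_ifs <;> rfl
  choose! g hg using hh
  refine ⟨E', S', fun x => g (mix L x (fun _ => 0)), hE1, hE2, hS1, hS2, hB', fun x y hxy => ?_,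
    fun n hn x hx => ?_⟩
  · have : mix L x (fun _ => 0) = mix L y (fun _ => 0) := by
      funext j
      simp only [mix]
      split_ifs with hj
      · exact hxy j hj
      · rfl
    simp only [this]
  · have := hg _ (hmem x hx) n hn x hx
    show O n x ↔ g (mix L x (fun _ => 0)) = true
    rw [← this]
    have e : x = mix L (mix L x fun _ => 0) x := by
      funext j
      simp only [mix]
      split_ifs <;> rfl
    rw [← e]

section

variable {S : ℕ → Finset ℕ} {E : Set ℕ} {O : ℕ → (ℕ → ℕ) → Prop}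
  {Jl : ℕ → ℕ} {b : ℕ → ℕ → ℕ} {i : ℕ → ℕ}

open CMM (Stage)

/-- compactness of boxes -/
theorem compact_box {S' : ℕ → Finset ℕ} (hne : ∀ j, (S' j).Nonempty) {O : (ℕ → ℕ) → Prop}
    (hO : OpenP O) (h : ∀ x, InBox S' x → O x) : ∃ L, ∀ x, (∀ j < L, x j ∈ S' j) → O x := by
  classical
  have hc : IsCompact (Set.pi Set.univ fun j => (S' j : Set ℕ)) :=
    isCompact_univ_pi fun j => (S' j).finite_toSet.isCompact
  have h1 : ∀ x, ∃ L, InBox S' x → ∀ y, (∀ j < L, x j = y j) → O y := by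
    intro x
    by_cases hx : InBox S' x
    · obtain ⟨L, hL⟩ := hO x (h x hx)
      exact ⟨L, fun _ => hL⟩
    · exact ⟨0, fun h => absurd h hx⟩
  choose Lf hLf using h1
  have h2 : ∀ x ∈ Set.pi Set.univ (fun j => (S' j : Set ℕ)),
      {y : ℕ → ℕ | ∀ j < Lf x, x j = y j} ∈ nhdsWithin x (Set.pi Set.univ fun j => (S' j : Set ℕ)) := by
    intro x _
    apply mem_nhdsWithin_of_mem_nhds
    have : {y : ℕ → ℕ | ∀ j < Lf x, x j = y j} = ⋂ j ∈ Finset.range (Lf x), {y : ℕ → ℕ | y j = x j} := by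
      ext y
      simp [eq_comm]
    rw [this]
    refine (Filter.biInter_finset_mem _).2 fun j _ => ?_
    have h3 : IsOpen ((fun y : ℕ → ℕ => y j) ⁻¹' {x j}) :=
      (isOpen_discrete ({x j} : Set ℕ)).preimage (continuous_apply j)
    exact h3.mem_nhds rfl
  obtain ⟨t, ht, hcov⟩ := hc.elim_nhdsWithin_subcover _ h2
  refine ⟨t.sup Lf, fun x hx => ?_⟩
  let x' : ℕ → ℕ := fun j => if j < t.sup Lf then x j else (hne j).choose
  have hx' : InBox S' x' := by
    intro j
    simp only [x']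
    split_ifs with hj
    · exact hx j hj
    · exact (hne j).choose_spec
  have h3 := hcov (show x' ∈ _ from fun j _ => hx' j)
  simp only [mem_iUnion] at h3
  obtain ⟨z, hz, hzx⟩ := h3
  have hz' := ht z hz
  refine hLf z (fun j => hz' j (mem_univ j)) x fun j hj => ?_
  have hj' : j < t.sup Lf := lt_of_lt_of_le hj (Finset.le_sup hz)
  have h4 : z j = x' j := hzx j hj
  rw [h4]
  simp only [x', if_pos hj']

theorem step (hcu : SCU2) (hB : Big lam0 S) (hb0 : Bdd0 S) (hE : E.Infinite)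
    (hO : ∀ n, OpenP (O n)) (hJ : StrictMono Jl)
    (hlam : ∀ k, lam0 (Jl k) = lam0 (Jl 0))
    (hb : ∀ i, ∀ k ≤ i, i + 1 ≤ ((S (Jl i)).filter (fun h => b i h = k)).card)
    (hi : Tendsto i atTop atTop)
    (hno : ¬ ∃ (E' : Set ℕ) (S' : ℕ → Finset ℕ), E' ⊆ E ∧ E'.Infinite ∧ (∀ j, S' j ⊆ S j) ∧
      Big lam0 S' ∧ ∃ k, ∀ n ∈ E', ∀ x, InBox S' x → b (i n) (x (Jl (i n))) = k ∧ ¬ O n x)
    (k v K : ℕ) (s : Stage S) : ∃ s' : Stage S, s.L < s'.L ∧ s.n < s'.n ∧ s'.n ∈ E ∧
      (∀ j, s'.S0 j ⊆ s.S0 j) ∧ (∀ j < s.L, s'.S0 j = s.S0 j) ∧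
      (∃ j < s'.L, lam0 j = v ∧ K ≤ (s'.S0 j).card) ∧
      ∀ x, InBox s'.S0 x → b (i s'.n) (x (Jl (i s'.n))) = k ∧ O s'.n x := by
  classical
  -- the box `T`
  set T : ℕ → Finset ℕ := fun j => if j < s.L then s.S0 j else
    (S j).filter (fun h => ∀ i', k ≤ i' → Jl i' = j → b i' h = k) with hT
  have hTlt : ∀ j, j < s.L → T j = s.S0 j := fun j hj => by simp only [hT, if_pos hj]
  have hTge : ∀ j, s.L ≤ j → T j =
      (S j).filter (fun h => ∀ i', k ≤ i' → Jl i' = j → b i' h = k) := fun j hj => by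
    simp only [hT, if_neg (not_lt.2 hj)]
  have hTJ : ∀ i', k ≤ i' → s.L ≤ Jl i' → T (Jl i') = (S (Jl i')).filter (fun h => b i' h = k) := by
    intro i' hi' hL
    rw [hTge _ hL]
    apply Finset.filter_congr
    intro h _
    constructor
    · intro hh
      exact hh i' hi' rfl
    · intro hh i'' _ he
      rw [hJ.injective he]
      exact hh
  have hTn : ∀ j, s.L ≤ j → (∀ i', k ≤ i' → Jl i' ≠ j) → T j = S j := by
    intro j hj hne
    rw [hTge _ hj]
    apply Finset.filter_true_of_mem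
    intro h _ i' hi' he
    exact absurd he (hne i' hi')
  have hTsub : ∀ j, T j ⊆ s.S0 j := by
    intro j
    by_cases hj : j < s.L
    · rw [hTlt j hj]
    · push Not at hj
      rw [hTge j hj, s.eq j hj]
      exact Finset.filter_subset _ _
  have hTB : Big lam0 T := by
    constructor
    · intro j
      by_cases hj : j < s.L
      · rw [hTlt j hj]
        exact s.ne j
      · push Not at hj
        by_cases hex : ∃ i', k ≤ i' ∧ Jl i' = j
        · obtain ⟨i', hi', rfl⟩ := hex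
          rw [hTJ i' hi' hj, ← Finset.card_pos]
          have := hb i' k hi'
          omega
        · push Not at hex
          rw [hTn j hj hex]
          exact hB.1 j
    · intro v' K'
      by_cases hv : v' = lam0 (Jl 0)
      · have h1 : max k (max K' s.L) ≤ Jl (max k (max K' s.L)) := hJ.le_apply
        refine ⟨Jl (max k (max K' s.L)), by rw [hlam, hv], ?_⟩
        rw [hTJ _ (le_max_left _ _) (le_trans (le_trans (le_max_right _ _) (le_max_right _ _)) h1)]
        have h2 := hb (max k (max K' s.L)) k (le_max_left _ _)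
        have h3 : K' ≤ max k (max K' s.L) := le_trans (le_max_left _ _) (le_max_right _ _)
        omega
      · obtain ⟨j, hj, hjv, hjK⟩ := exists_ge hB v' K' s.L
        refine ⟨j, hjv, ?_⟩
        rw [hTn j hj]
        · exact hjK
        · rintro i' _ rfl
          exact hv (by rw [← hjv, hlam])
  obtain ⟨E', S', ε, hE1, hE2, hS1, hS2, hB', hε, hOε⟩ := cu_fix hcu hTB
    (fun j => (hTsub j).trans ((s.sub j).trans (hb0 j))) hE hO s.L
  -- the numbers `n` which are large
  obtain ⟨N, hN⟩ := (hi.eventually_ge_atTop (max k s.L)).exists_forall_of_atTop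
  have hNk : ∀ n, N ≤ n → k ≤ i n := fun n hn => le_trans (le_max_left _ _) (hN n hn)
  have hNL : ∀ n, N ≤ n → s.L ≤ Jl (i n) := fun n hn =>
    le_trans (le_trans (le_max_right _ _) (hN n hn)) hJ.le_apply
  have hbk : ∀ n, N ≤ n → ∀ h ∈ S' (Jl (i n)), b (i n) h = k := by
    intro n hn h hh
    have h1 := hS1 _ hh
    rw [hTJ _ (hNk n hn) (hNL n hn), Finset.mem_filter] at h1
    exact h1.2
  have hSS : ∀ j, S' j ⊆ S j := fun j => (hS1 j).trans ((hTsub j).trans (s.sub j))
  have hall : ∀ x, InBox S' x → ε x = true := by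
    intro x hx
    by_contra hfalse
    rw [Bool.not_eq_true] at hfalse
    apply hno
    have hsub : ∀ j, (if j < s.L then {x j} else S' j) ⊆ S' j := fun j => by
      split_ifs with hj
      · exact Finset.singleton_subset_iff.2 (hx j)
      · exact Finset.Subset.refl _
    refine ⟨{n | n ∈ E' ∧ N ≤ n}, fun j => if j < s.L then {x j} else S' j, fun n hn => hE1 hn.1,
      ?_, fun j => (hsub j).trans (hSS j), ⟨?_, ?_⟩, k, ?_⟩
    · have : E' \ {n | n < N} ⊆ {n | n ∈ E' ∧ N ≤ n} := fun n hn => ⟨hn.1, not_lt.1 hn.2⟩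
      exact (hE2.sdiff (Set.finite_lt_nat N)).mono this
    · intro j
      dsimp only
      split_ifs with hj
      · exact Finset.singleton_nonempty _
      · exact hB'.1 j
    · intro v' K'
      obtain ⟨j, hj, hjv, hjK⟩ := exists_ge hB' v' K' s.L
      exact ⟨j, hjv, by simpa only [if_neg (not_lt.2 hj)] using hjK⟩
    · rintro n ⟨hn, hnN⟩ y hy
      have hy' : InBox S' y := fun j => hsub j (hy j)
      refine ⟨hbk n hnN _ (hy' _), ?_⟩
      rw [hOε n hn y hy']
      have e : ε y = ε x := by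
        apply hε
        intro j hj
        have := hy j
        simpa only [if_pos hj, Finset.mem_singleton] using this
      rw [e, hfalse]
      simp
  -- the next stage
  obtain ⟨n, hn, hnN⟩ := hE2.exists_gt (max N s.n)
  have hnN' : N ≤ n := le_trans (le_max_left _ _) hnN.le
  have hns : s.n < n := lt_of_le_of_lt (le_max_right _ _) hnN
  obtain ⟨ln, hln⟩ := compact_box hB'.1 (hO n) (fun x hx => (hOε n hn x hx).2 (hall x hx))
  set L' := max s.L (max ln (Jl (i n) + 1)) with hL'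
  have hL1 : s.L ≤ L' := le_max_left _ _
  have hL2 : ln ≤ L' := le_trans (le_max_left _ _) (le_max_right _ _)
  have hL3 : Jl (i n) < L' := lt_of_lt_of_le (Nat.lt_succ_self _)
    (le_trans (le_max_right _ _) (le_max_right _ _))
  obtain ⟨j0, hj0, hj0v, hj0K⟩ := exists_ge hB v K L'
  have hsub' : ∀ j, (if j < L' then S' j else S j) ⊆ s.S0 j := fun j => by
    split_ifs with hj
    · exact (hS1 j).trans (hTsub j)
    · rw [s.eq j (hL1.trans (not_lt.1 hj))]
  refine ⟨⟨j0 + 1, fun j => if j < L' then S' j else S j, n, fun j => (hsub' j).trans (s.sub j),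
    fun j => ?_, fun j hj => ?_⟩, ?_, hns, hE1 hn, hsub', fun j hj => ?_, ⟨j0, Nat.lt_succ_self _,
      hj0v, ?_⟩, fun x hx => ?_⟩
  · split_ifs with hj
    · exact hB'.1 j
    · exact hB.1 j
  · exact if_neg (by omega)
  · show s.L < j0 + 1
    omega
  · show (if j < L' then S' j else S j) = s.S0 j
    rw [if_pos (lt_of_lt_of_le hj hL1), hS2 j hj, hTlt j hj]
  · show K ≤ (if j0 < L' then S' j0 else S j0).card
    rw [if_neg (not_lt.2 hj0)]
    exact hj0K
  · -- replace the coordinates of `x` from `L'` on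
    have hx' : ∀ j, j < L' → x j ∈ S' j := fun j hj => by
      have := hx j
      simpa only [if_pos hj] using this
    exact ⟨hbk n hnN' _ (hx' _ hL3), hln x fun j hj => hx' j (lt_of_lt_of_le hj hL2)⟩

end

end CMO

open CMO
open CMM (Stage)

/-- paper 2.5 -/
theorem cm2 : SCU2 → SCM2 := by
  intro hcu S E O Jl b i hB hb0 hE hO hJ hlam hb hi
  by_cases hno : ∃ (E' : Set ℕ) (S' : ℕ → Finset ℕ), E' ⊆ E ∧ E'.Infinite ∧ (∀ j, S' j ⊆ S j) ∧
      Big lam0 S' ∧ ∃ k, ∀ n ∈ E', ∀ x, InBox S' x → b (i n) (x (Jl (i n))) = k ∧ ¬ O n x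
  · obtain ⟨E', S', h1, h2, h3, h4, h5⟩ := hno
    exact ⟨E', S', h1, h2, h3, h4, Or.inl h5⟩
  have hstep := step hcu hB hb0 hE hO hJ hlam hb hi hno
  choose f hf using hstep
  let s0 : Stage S := ⟨0, S, 0, fun j => Finset.Subset.refl _, hB.1, fun j _ => rfl⟩
  let st : ℕ → Stage S := fun k => Nat.rec s0 (fun k s => f k k.unpair.1 k.unpair.2 s) k
  have hst : ∀ k, st (k + 1) = f k k.unpair.1 k.unpair.2 (st k) := fun k => rfl
  have h1 : ∀ k, (st k).L < (st (k + 1)).L := fun k => by rw [hst]; exact (hf _ _ _ _).1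
  have h2 : ∀ k, (st k).n < (st (k + 1)).n := fun k => by rw [hst]; exact (hf _ _ _ _).2.1
  have h3 : ∀ k, (st (k + 1)).n ∈ E := fun k => by rw [hst]; exact (hf _ _ _ _).2.2.1
  have h4 : ∀ k j, (st (k + 1)).S0 j ⊆ (st k).S0 j := fun k => by
    rw [hst]; exact (hf _ _ _ _).2.2.2.1
  have h5 : ∀ k, ∀ j < (st k).L, (st (k + 1)).S0 j = (st k).S0 j := fun k => by
    rw [hst]; exact (hf _ _ _ _).2.2.2.2.1
  have h6 : ∀ k, ∃ j < (st (k + 1)).L, lam0 j = k.unpair.1 ∧
      k.unpair.2 ≤ ((st (k + 1)).S0 j).card := fun k => by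
    rw [hst]; exact (hf _ _ _ _).2.2.2.2.2.1
  have h7 : ∀ k, ∀ x, InBox (st (k + 1)).S0 x →
      b (i (st (k + 1)).n) (x (Jl (i (st (k + 1)).n))) = k ∧ O (st (k + 1)).n x :=
    fun k => by rw [hst]; exact (hf _ _ _ _).2.2.2.2.2.2
  have hLmono : StrictMono fun k => (st k).L := strictMono_nat_of_lt_succ h1
  have hnmono : StrictMono fun k => (st k).n := strictMono_nat_of_lt_succ h2
  have hanti : ∀ j, Antitone fun k => (st k).S0 j := fun j =>
    antitone_nat_of_succ_le fun k => h4 k j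
  have hconst : ∀ k d, ∀ j < (st k).L, (st (k + d)).S0 j = (st k).S0 j := by
    intro k d
    induction d with
    | zero => intro j _; rfl
    | succ d ih =>
      intro j hj
      rw [← ih j hj]
      exact h5 (k + d) j (lt_of_lt_of_le hj (hLmono.monotone (Nat.le_add_right k d)))
  have hLge : ∀ k, k ≤ (st k).L := fun k => hLmono.le_apply
  set S' : ℕ → Finset ℕ := fun j => (st (j + 1)).S0 j with hS'
  have hfin : ∀ k j, S' j ⊆ (st k).S0 j := by
    intro k j
    rcases le_total k (j + 1) with hk | hk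
    · exact hanti j hk
    · obtain ⟨d, rfl⟩ := Nat.exists_eq_add_of_le hk
      rw [hconst (j + 1) d j (lt_of_lt_of_le (Nat.lt_succ_self j) (hLge (j + 1)))]
  have heq : ∀ k, ∀ j < (st k).L, S' j = (st k).S0 j := by
    intro k j hj
    rcases le_total k (j + 1) with hk | hk
    · obtain ⟨d, hd⟩ := Nat.exists_eq_add_of_le hk
      show (st (j + 1)).S0 j = _
      rw [hd, hconst k d j hj]
    · obtain ⟨d, rfl⟩ := Nat.exists_eq_add_of_le hk
      rw [hconst (j + 1) d j (lt_of_lt_of_le (Nat.lt_succ_self j) (hLge (j + 1)))]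
  refine ⟨Set.range fun k => (st (k + 1)).n, S', ?_, ?_, fun j => (st (j + 1)).sub j,
    ⟨fun j => (st (j + 1)).ne j, fun v K => ?_⟩, Or.inr ⟨?_, ?_⟩⟩
  · rintro _ ⟨k, rfl⟩
    exact h3 k
  · exact Set.infinite_range_of_injective fun k k' hk => Nat.succ_injective (hnmono.injective hk)
  · obtain ⟨j, hj, hjv, hjK⟩ := h6 (Nat.pair v K)
    rw [Nat.unpair_pair] at hjv hjK
    exact ⟨j, hjv, by rw [heq (Nat.pair v K + 1) j hj]; exact hjK⟩
  · rintro _ ⟨k, rfl⟩ x hx
    exact (h7 k x fun j => hfin (k + 1) j (hx j)).2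
  · intro k
    refine ⟨(st (k + 1)).n, ?_⟩
    rintro _ ⟨k', rfl⟩ hk' x hx
    rw [(h7 k' x fun j => hfin (k' + 1) j (hx j)).1]
    have hkk : k + 1 ≤ k' + 1 := by
      by_contra hlt
      exact absurd (hnmono (not_le.1 hlt)) (not_lt.2 hk')
    omega

end Pool.Agent.H554V
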