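import Pool.Agent.H554V.CUBase

/-!
# The combinatorial lemma on sequences of functions on big boxes (paper 2.3)
-/

namespace Pool.Agent.H554V

open Set

/-- For some tail in `S` the function `C n` is constant `ε` on the product of the first `m` sets
of `A` and the tail. -/
def Hit (C : ℕ → (ℕ → ℕ) → Bool) (S : ℕ → Finset ℕ) (m : ℕ) (A : ℕ → Finset ℕ) (ε : Bool)
    (n : ℕ) : Prop :=
  ∃ t : ℕ → ℕ, (∀ j, m ≤ j → t j ∈ S j) ∧
    ∀ x : ℕ → ℕ, (∀ j < m, x j ∈ A j) → (∀ j, m ≤ j → x j = t j) → C n x = ε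

/-- `A` and `ε` cannot be avoided. -/
def Unav (lam : ℕ → ℕ) (C : ℕ → (ℕ → ℕ) → Bool) (E : Set ℕ) (S : ℕ → Finset ℕ) (m : ℕ)
    (A : ℕ → Finset ℕ) (ε : Bool) : Prop :=
  ∀ (E' : Set ℕ) (S' : ℕ → Finset ℕ), E' ⊆ E → E'.Infinite → (∀ j, m ≤ j → S' j ⊆ S j) →
    Big lam S' → ∃ n ∈ E', Hit C S' m A ε n

variable {lam : ℕ → ℕ} {C : ℕ → (ℕ → ℕ) → Bool}

theorem Hit.mono {S S' : ℕ → Finset ℕ} {m : ℕ} {A : ℕ → Finset ℕ} {ε : Bool} {n : ℕ}
    (h : Hit C S m A ε n) (hS : ∀ j, m ≤ j → S j ⊆ S' j) : Hit C S' m A ε n := by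
  obtain ⟨t, h1, h2⟩ := h
  exact ⟨t, fun j hj => hS j hj (h1 j hj), h2⟩

theorem Hit.congr {S : ℕ → Finset ℕ} {m : ℕ} {A A' : ℕ → Finset ℕ} {ε : Bool} {n : ℕ}
    (h : Hit C S m A ε n) (hA : ∀ j < m, A j = A' j) : Hit C S m A' ε n := by
  obtain ⟨t, h1, h2⟩ := h
  exact ⟨t, h1, fun x hx => h2 x fun j hj => by rw [hA j hj]; exact hx j hj⟩

theorem Unav.mono {E E' : Set ℕ} {S S' : ℕ → Finset ℕ} {m : ℕ} {A : ℕ → Finset ℕ} {ε : Bool}
    (h : Unav lam C E S m A ε) (hE : E' ⊆ E) (hS : ∀ j, m ≤ j → S' j ⊆ S j) :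
    Unav lam C E' S' m A ε :=
  fun E'' S'' h1 h2 h3 h4 => h E'' S'' (h1.trans hE) h2 (fun j hj => (h3 j hj).trans (hS j hj)) h4

/-- decided -/
def Dec (lam : ℕ → ℕ) (C : ℕ → (ℕ → ℕ) → Bool) (E : Set ℕ) (S : ℕ → Finset ℕ) (m : ℕ)
    (A : ℕ → Finset ℕ) (ε : Bool) : Prop :=
  Unav lam C E S m A ε ∨ ∀ n ∈ E, ¬ Hit C S m A ε n

theorem Dec.mono {E E' : Set ℕ} {S S' : ℕ → Finset ℕ} {m : ℕ} {A : ℕ → Finset ℕ} {ε : Bool}
    (h : Dec lam C E S m A ε) (hE : E' ⊆ E) (hS : ∀ j, m ≤ j → S' j ⊆ S j) :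
    Dec lam C E' S' m A ε := by
  rcases h with h | h
  · exact Or.inl (h.mono hE hS)
  · exact Or.inr fun n hn hh => h n (hE hn) (hh.mono hS)

theorem Dec.congr {E : Set ℕ} {S : ℕ → Finset ℕ} {m : ℕ} {A A' : ℕ → Finset ℕ} {ε : Bool}
    (h : Dec lam C E S m A ε) (hA : ∀ j < m, A j = A' j) : Dec lam C E S m A' ε := by
  rcases h with h | h
  · refine Or.inl fun E'' S'' h1 h2 h3 h4 => ?_
    obtain ⟨n, hn, hh⟩ := h E'' S'' h1 h2 h3 h4
    exact ⟨n, hn, hh.congr hA⟩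
  · exact Or.inr fun n hn hh => h n hn (hh.congr fun j hj => (hA j hj).symm)

/-- One pair can be decided. -/
theorem dec_one {E : Set ℕ} {S : ℕ → Finset ℕ} (hE : E.Infinite) (hS : Big lam S) (m : ℕ)
    (A : ℕ → Finset ℕ) (ε : Bool) :
    ∃ (E' : Set ℕ) (S' : ℕ → Finset ℕ), E' ⊆ E ∧ E'.Infinite ∧ Big lam S' ∧
      (∀ j, S' j ⊆ S j) ∧ (∀ j < m, S' j = S j) ∧ Dec lam C E' S' m A ε := by
  by_cases h : Unav lam C E S m A ε
  · exact ⟨E, S, Subset.rfl, hE, hS, fun _ => Finset.Subset.refl _, fun _ _ => rfl, Or.inl h⟩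
  · unfold Unav at h
    push Not at h
    obtain ⟨E', S', h1, h2, h3, h4, h5⟩ := h
    refine ⟨E', fun j => if j < m then S j else S' j, h1, h2, ?_, fun j => ?_, fun j hj => ?_,
      Or.inr fun n hn hh => h5 n hn (hh.mono fun j hj => ?_)⟩
    · refine big_of_ge h4 m (fun j => ?_) (fun j hj => ?_)
      · by_cases hj : j < m
        · simp only [hj, if_true]
          exact hS.1 j
        · simp only [hj, if_false]
          exact h4.1 j
      · simp [not_lt.2 hj]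
    · by_cases hj : j < m
      · simp [hj]
      · simp only [hj, if_false]
        exact h3 j (not_lt.1 hj)
    · simp [hj]
    · simp [not_lt.2 hj]

/-- Finitely many pairs can be decided. -/
theorem dec_fin (m : ℕ) (F : Finset ((ℕ → Finset ℕ) × Bool)) :
    ∀ {E : Set ℕ} {S : ℕ → Finset ℕ}, E.Infinite → Big lam S →
    ∃ (E' : Set ℕ) (S' : ℕ → Finset ℕ), E' ⊆ E ∧ E'.Infinite ∧ Big lam S' ∧
      (∀ j, S' j ⊆ S j) ∧ (∀ j < m, S' j = S j) ∧ ∀ a ∈ F, Dec lam C E' S' m a.1 a.2 := by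
  classical
  induction F using Finset.induction_on with
  | empty =>
    intro E S hE hS
    exact ⟨E, S, Subset.rfl, hE, hS, fun _ => Finset.Subset.refl _, fun _ _ => rfl, by simp⟩
  | insert a F ha ih =>
    intro E S hE hS
    obtain ⟨E1, S1, h1, h2, h3, h4, h5, h6⟩ := ih hE hS
    obtain ⟨E2, S2, k1, k2, k3, k4, k5, k6⟩ := dec_one (C := C) h2 h3 m a.1 a.2
    refine ⟨E2, S2, k1.trans h1, k2, k3, fun j => (k4 j).trans (h4 j),
      fun j hj => (k5 j hj).trans (h5 j hj), fun b hb => ?_⟩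
    rcases Finset.mem_insert.1 hb with rfl | hb
    · exact k6
    · exact (h6 b hb).mono k1 fun j _ => k4 j

/-- Everything at the level `m` can be decided. -/
theorem dec_all (m : ℕ) {E : Set ℕ} {S : ℕ → Finset ℕ} (hE : E.Infinite) (hS : Big lam S) :
    ∃ (E' : Set ℕ) (S' : ℕ → Finset ℕ), E' ⊆ E ∧ E'.Infinite ∧ Big lam S' ∧
      (∀ j, S' j ⊆ S j) ∧ (∀ j < m, S' j = S j) ∧
      ∀ (A : ℕ → Finset ℕ) (ε : Bool), (∀ j < m, A j ⊆ S j) → Dec lam C E' S' m A ε := by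
  classical
  let ex : (Fin m → Finset ℕ) → ℕ → Finset ℕ := fun a j => if h : j < m then a ⟨j, h⟩ else ∅
  obtain ⟨E', S', h1, h2, h3, h4, h5, h6⟩ := dec_fin (C := C) m
    (((Fintype.piFinset fun i : Fin m => (S i).powerset).image ex) ×ˢ Finset.univ) hE hS
  refine ⟨E', S', h1, h2, h3, h4, h5, fun A ε hA => ?_⟩
  have := h6 (ex fun i => A i, ε) (by
    rw [Finset.mem_product]
    refine ⟨Finset.mem_image.2 ⟨fun i => A i, ?_, rfl⟩, Finset.mem_univ _⟩
    rw [Fintype.mem_piFinset]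
    exact fun i => Finset.mem_powerset.2 (hA _ i.2))
  exact this.congr fun j hj => by simp [ex, hj]

/-- The first fusion: if infinitely many `n` hit at the level `l k` then this is unavoidable. -/
theorem stable {E : Set ℕ} {S : ℕ → Finset ℕ} (hE : E.Infinite) (hS : Big lam S) :
    ∃ (E' : Set ℕ) (S' : ℕ → Finset ℕ) (m : ℕ → ℕ), E' ⊆ E ∧ E'.Infinite ∧ Big lam S' ∧
      (∀ j, S' j ⊆ S j) ∧ StrictMono m ∧
      ∀ (k : ℕ) (A : ℕ → Finset ℕ) (ε : Bool), (∀ j < m k, A j ⊆ S' j) →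
        {n | n ∈ E' ∧ Hit C S' (m k) A ε n}.Infinite → Unav lam C E' S' (m k) A ε := by
  classical
  let St : Type := {s : Set ℕ × (ℕ → Finset ℕ) × ℕ // s.1.Infinite ∧ Big lam s.2.1}
  have step : ∀ (k : ℕ) (s : St), ∃ s' : St, s'.1.1 ⊆ s.1.1 ∧
      (∀ j, s'.1.2.1 j ⊆ s.1.2.1 j) ∧ (∀ j < s.1.2.2, s'.1.2.1 j = s.1.2.1 j) ∧
      s.1.2.2 < s'.1.2.2 ∧
      (∃ j < s'.1.2.2, lam j = (Nat.unpair k).1 ∧ k ≤ (s'.1.2.1 j).card) ∧
      ∀ (A : ℕ → Finset ℕ) (ε : Bool), (∀ j < s.1.2.2, A j ⊆ s.1.2.1 j) →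
        Dec lam C s'.1.1 s'.1.2.1 s.1.2.2 A ε := by
    rintro k ⟨⟨E0, S0, m0⟩, hE0, hS0⟩
    obtain ⟨E1, S1, h1, h2, h3, h4, h5, h6⟩ := dec_all (C := C) m0 hE0 hS0
    obtain ⟨j, hj1, hj2, hj3⟩ := h3.exists_ge (Nat.unpair k).1 k m0
    exact ⟨⟨⟨E1, S1, j + 1⟩, h2, h3⟩, h1, h4, h5, Nat.lt_succ_of_le hj1,
      ⟨j, Nat.lt_succ_self j, hj2, hj3⟩, h6⟩
  choose f hf1 hf2 hf3 hf4 hf5 hf6 using step
  let s : ℕ → St := fun k => Nat.rec ⟨⟨E, S, 0⟩, hE, hS⟩ (fun k s => f k s) k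
  have hs0 : s 0 = ⟨⟨E, S, 0⟩, hE, hS⟩ := rfl
  have hs : ∀ k, s (k + 1) = f k (s k) := fun _ => rfl
  have hm : StrictMono fun k => (s k).1.2.2 := strictMono_nat_of_lt_succ fun k => by
    rw [hs]; exact hf4 _ _
  obtain ⟨S', hS1, hS2, hS3⟩ := exists_lim_big (lam := lam) (B := fun k => (s k).1.2.1) hm
    (fun k j => by rw [hs]; exact hf2 _ _ j) (fun k j hj => by rw [hs]; exact hf3 _ _ j hj)
    (fun k j => (s k).2.2.1 j) (fun k => by rw [hs]; exact hf5 _ _)
  have hanti : ∀ k k', k ≤ k' → (s k').1.1 ⊆ (s k).1.1 := by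
    intro k k' hk
    induction k', hk using Nat.le_induction with
    | base => exact Subset.rfl
    | succ n hn ih => exact (by rw [hs]; exact hf1 _ _ : (s (n + 1)).1.1 ⊆ (s n).1.1).trans ih
  obtain ⟨φ, hφ1, hφ2⟩ := Filter.extraction_forall_of_frequently
    (P := fun k n => n ∈ (s k).1.1) (fun k => Nat.frequently_atTop_iff_infinite.2 (s k).2.1)
  have hφE : ∀ k, ∀ n ∈ range φ, φ k ≤ n → n ∈ (s k).1.1 := by
    rintro k _ ⟨i, rfl⟩ hi
    exact hanti k i (hφ1.le_iff_le.1 hi) (hφ2 i)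
  refine ⟨range φ, S', fun k => (s k).1.2.2, ?_, infinite_range_of_injective hφ1.injective, hS3,
    fun j => hS1 0 j, hm, fun k A ε hA hinf => ?_⟩
  · rintro _ ⟨i, rfl⟩
    exact hanti 0 i (Nat.zero_le _) (hφ2 i)
  · have hd := hf6 k (s k) A ε fun j hj => (hA j hj).trans (hS1 k j)
    rw [← hs] at hd
    rcases hd with hd | hd
    · intro E'' S'' h1 h2 h3 h4
      have h5 : (E'' ∩ {n | φ (k + 1) ≤ n}).Infinite := by
        intro hfin
        refine h2 ((hfin.union (Set.finite_lt_nat (φ (k + 1)))).subset fun n hn => ?_)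
        by_cases h : φ (k + 1) ≤ n
        · exact Or.inl ⟨hn, h⟩
        · exact Or.inr (not_le.1 h)
      obtain ⟨n, hn, hh⟩ := hd _ S'' (fun n hn => hφE (k + 1) n (h1 hn.1) hn.2) h5
        (fun j hj => (h3 j hj).trans (hS1 (k + 1) j)) h4
      exact ⟨n, hn.1, hh⟩
    · exfalso
      refine hinf ((Set.finite_lt_nat (φ (k + 1))).subset fun n hn => ?_)
      by_contra h
      exact hd n (hφE (k + 1) n hn.1 (not_lt.1 h)) (hn.2.mono fun j _ => hS1 (k + 1) j)

/-- The second fusion. -/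
theorem final_fusion {E : Set ℕ} {D : ℕ → Finset ℕ} {ε : Bool} {l : ℕ → ℕ} (hD : Big lam D)
    (hC : ∀ n x y, (∀ j < l n, x j = y j) → C n x = C n y)
    (h : ∀ m N, ∃ m', m ≤ m' ∧ ∃ n, N ≤ n ∧ n ∈ E ∧ Hit C D m' D ε n) :
    ∃ (E' : Set ℕ) (S' : ℕ → Finset ℕ), E' ⊆ E ∧ E'.Infinite ∧ (∀ j, S' j ⊆ D j) ∧
      Big lam S' ∧ ∀ n ∈ E', ∀ x, InBox S' x → C n x = ε := by
  classical
  let St : Type := {s : (ℕ → Finset ℕ) × ℕ × ℕ // (∀ j, s.1 j ⊆ D j) ∧ (∀ j, (s.1 j).Nonempty) ∧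
    ∀ j, s.2.1 ≤ j → s.1 j = D j}
  have step : ∀ (k : ℕ) (s : St), ∃ (s' : St) (n : ℕ), (∀ j, s'.1.1 j ⊆ s.1.1 j) ∧
      (∀ j < s.1.2.1, s'.1.1 j = s.1.1 j) ∧ s.1.2.1 < s'.1.2.1 ∧
      (∃ j < s'.1.2.1, lam j = (Nat.unpair k).1 ∧ k ≤ (s'.1.1 j).card) ∧
      s.1.2.2 ≤ n ∧ n < s'.1.2.2 ∧ n ∈ E ∧ ∀ x, InBox s'.1.1 x → C n x = ε := by
    rintro k ⟨⟨B, m, N⟩, hB1, hB2, hB3⟩
    simp only at hB1 hB2 hB3
    obtain ⟨j1, hj1, hj2, hj3⟩ := hD.exists_ge (Nat.unpair k).1 k m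
    obtain ⟨m', hm', n, hn, hnE, t, ht1, ht2⟩ := h (j1 + 1) N
    have hmm : m ≤ m' := by omega
    refine ⟨⟨⟨fun j => if j < m' then B j else if j < l n then {t j} else D j, max m' (l n),
      n + 1⟩, fun j => ?_, fun j => ?_, fun j hj => ?_⟩, n, fun j => ?_, fun j hj => ?_, ?_,
      ⟨j1, ?_, hj2, ?_⟩, hn, Nat.lt_succ_self n, hnE, fun x hx => ?_⟩
    · simp only
      split_ifs with h1 h2
      · exact hB1 j
      · exact Finset.singleton_subset_iff.2 (ht1 j (not_lt.1 h1))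
      · exact Finset.Subset.refl _
    · simp only
      split_ifs with h1 h2
      · exact hB2 j
      · exact Finset.singleton_nonempty _
      · exact hD.1 j
    · simp only at hj ⊢
      rw [if_neg (by omega), if_neg (by omega)]
    · simp only
      split_ifs with h1 h2
      · exact Finset.Subset.refl _
      · rw [hB3 j (by omega)]
        exact Finset.singleton_subset_iff.2 (ht1 j (not_lt.1 h1))
      · rw [hB3 j (by omega)]
    · simp only at hj ⊢
      rw [if_pos (by omega)]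
    · simp only
      omega
    · simp only
      omega
    · simp only
      rw [if_pos (by omega), hB3 j1 hj1]
      exact hj3
    · have hx' : ∀ j, x j ∈ (if j < m' then B j else if j < l n then {t j} else D j) := hx
      have e : C n x = C n fun j => if j < m' then x j else t j := by
        refine hC _ _ _ fun j hj => ?_
        have := hx' j
        by_cases h1 : j < m'
        · simp [h1]
        · rw [if_neg h1, if_pos hj, Finset.mem_singleton] at this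
          simp [h1, this]
      rw [e]
      refine ht2 _ (fun j hj => ?_) (fun j hj => ?_)
      · have := hx' j
        rw [if_pos hj] at this
        simp only [hj, if_true]
        exact hB1 j this
      · simp [not_lt.2 hj]
  choose f g hf1 hf2 hf3 hf4 hf5 hf6 hf7 hf8 using step
  let s : ℕ → St := fun k => Nat.rec ⟨⟨D, 0, 0⟩, fun _ => Finset.Subset.refl _, hD.1,
    fun _ _ => rfl⟩ (fun k s => f k s) k
  have hs : ∀ k, s (k + 1) = f k (s k) := fun _ => rfl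
  have hm : StrictMono fun k => (s k).1.2.1 := strictMono_nat_of_lt_succ fun k => by
    rw [hs]; exact hf3 _ _
  obtain ⟨S', hS1, hS2, hS3⟩ := exists_lim_big (lam := lam) (B := fun k => (s k).1.1) hm
    (fun k j => by rw [hs]; exact hf1 _ _ j) (fun k j hj => by rw [hs]; exact hf2 _ _ j hj)
    (fun k j => (s k).2.2.1 j) (fun k => by rw [hs]; exact hf4 _ _)
  have hmono : StrictMono fun k => g k (s k) := strictMono_nat_of_lt_succ fun k => by
    have h1 := hf6 k (s k)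
    have h2 := hf5 (k + 1) (s (k + 1))
    rw [← hs] at h1
    exact lt_of_lt_of_le h1 h2
  refine ⟨range fun k => g k (s k), S', ?_, infinite_range_of_injective hmono.injective,
    fun j => hS1 0 j, hS3, ?_⟩
  · rintro _ ⟨k, rfl⟩
    exact hf7 _ _
  · rintro _ ⟨k, rfl⟩ x hx
    refine hf8 k (s k) x fun j => ?_
    rw [← hs]
    exact hS1 (k + 1) j (hx j)

theorem ultra_const {α : Type*} (V : Ultrafilter ℕ) (f : ℕ → α) {s : Set α} (hs : s.Finite)
    (h : ∀ n, f n ∈ s) : ∃ a ∈ s, ∀ᶠ n in (V : Filter ℕ), f n = a := by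
  have h1 : (⋃ a ∈ s, {n | f n = a}) ∈ V := by
    have : (⋃ a ∈ s, {n | f n = a}) = Set.univ := by
      ext n
      simp [h n]
    rw [this]
    exact Filter.univ_mem
  obtain ⟨a, ha, hV⟩ := (Ultrafilter.finite_biUnion_mem_iff hs).1 h1
  exact ⟨a, ha, hV⟩

/-- levels with fast growing sets -/
theorem exists_levels {S : ℕ → Finset ℕ} (hS : Big lam S) :
    ∃ J : ℕ → ℕ, StrictMono J ∧ (∀ i, lam (J i) = (Nat.unpair i).1) ∧
      ∀ k, 2 ^ (Fintype.piFinset fun i : Fin k => S (J i)).card * (k + 1) ≤ (S (J k)).card := by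
  have nx : ∀ i N j : ℕ, ∃ j', j < j' ∧ lam j' = (Nat.unpair i).1 ∧
      2 ^ N * (i + 1) ≤ (S j').card := by
    intro i N j
    obtain ⟨j', h1, h2, h3⟩ := hS.exists_ge (Nat.unpair i).1 (2 ^ N * (i + 1)) (j + 1)
    exact ⟨j', h1, h2, h3⟩
  choose f hf1 hf2 hf3 using nx
  let s : ℕ → ℕ × ℕ := fun k => Nat.rec (f 0 1 0, 1)
    (fun i p => (f (i + 1) (p.2 * (S p.1).card) p.1, p.2 * (S p.1).card)) k
  have hs : ∀ i, s (i + 1) =
    (f (i + 1) ((s i).2 * (S (s i).1).card) (s i).1, (s i).2 * (S (s i).1).card) := fun _ => rfl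
  have hs0 : s 0 = (f 0 1 0, 1) := rfl
  have hN : ∀ k, (s k).2 = (Fintype.piFinset fun i : Fin k => S ((s i).1)).card := by
    intro k
    rw [Fintype.card_piFinset, Fin.prod_univ_eq_prod_range (fun i => (S ((s i).1)).card) k]
    induction k with
    | zero => simp [hs0]
    | succ k ih => rw [Finset.prod_range_succ, ← ih, hs]
  refine ⟨fun i => (s i).1, strictMono_nat_of_lt_succ fun i => ?_, fun i => ?_, fun k => ?_⟩
  · rw [hs]; exact hf1 _ _ _
  · cases i with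
    | zero => exact hf2 _ _ _
    | succ i => exact hf2 _ _ _
  · rw [← hN]
    cases k with
    | zero => exact hf3 _ _ _
    | succ i => exact hf3 _ _ _

/-- **The combinatorial lemma** (paper 2.3). -/
theorem cu : SCU := by
  classical
  intro lam S E C l hS hE hC
  obtain ⟨E1, S1, m, hE1, hE1inf, hS1, hS1S, hm, hst⟩ := stable (C := C) hE hS
  obtain ⟨J, hJ, hJl, hT⟩ := exists_levels hS1
  choose b hb using hS1.1
  let emb : (ℕ → ℕ) → ℕ → ℕ := fun y => Function.extend J y b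
  have embJ : ∀ y i, emb y (J i) = y i := fun y i => hJ.injective.extend_apply _ _ _
  have embn : ∀ y j, (¬ ∃ i, J i = j) → emb y j = b j := fun y j hj =>
    Function.extend_apply' _ _ _ hj
  have hc : ∀ n y y', (∀ i < l n, y i = y' i) → C n (emb y) = C n (emb y') := by
    intro n y y' hy
    refine hC n _ _ fun j hj => ?_
    by_cases h : ∃ i, J i = j
    · obtain ⟨i, rfl⟩ := h
      rw [embJ, embJ]
      exact hy i (lt_of_le_of_lt hJ.le_apply hj)
    · rw [embn y j h, embn y' j h]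
  have hhom : ∀ n, ∃ (D : ℕ → Finset ℕ) (ε : Bool), (∀ k, D k ⊆ S1 (J k)) ∧
      (∀ k, k + 1 ≤ (D k).card) ∧ ∀ x, (∀ k, x k ∈ D k) → C n (emb x) = ε := fun n =>
    homog (T := fun i => S1 (J i)) hT (l n) (fun y => C n (emb y)) (hc n)
  choose Dn εn hDn1 hDn2 hDn3 using hhom
  have : (Filter.cofinite ⊓ Filter.principal E1).NeBot := hE1inf.cofinite_inf_principal_neBot
  obtain ⟨V, hVle⟩ : ∃ V : Ultrafilter ℕ,
      (V : Filter ℕ) ≤ Filter.cofinite ⊓ Filter.principal E1 := ⟨_, Ultrafilter.of_le _⟩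
  have hVE : ∀ᶠ n in (V : Filter ℕ), n ∈ E1 :=
    hVle (Filter.mem_inf_of_right (Filter.mem_principal_self _))
  have hVc : ∀ N : ℕ, ∀ᶠ n in (V : Filter ℕ), N ≤ n := by
    intro N
    have h1 : {n : ℕ | N ≤ n} ∈ Filter.cofinite := by
      rw [Filter.mem_cofinite]
      exact (Set.finite_lt_nat N).subset fun n (hn : ¬ N ≤ n) => not_le.1 hn
    exact hVle (Filter.mem_inf_of_left h1)
  have hD : ∀ i, ∃ Di ∈ {X : Finset ℕ | X ⊆ S1 (J i) ∧ i + 1 ≤ X.card},
      ∀ᶠ n in (V : Filter ℕ), Dn n i = Di := fun i =>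
    ultra_const V (fun n => Dn n i) (((S1 (J i)).powerset.finite_toSet).subset fun X hX =>
      by simpa using hX.1) (fun n => ⟨hDn1 n i, hDn2 n i⟩)
  choose D hD1 hD2 using hD
  obtain ⟨ε, -, hε⟩ := ultra_const V εn (Set.toFinite Set.univ) (fun _ => Set.mem_univ _)
  let DD : ℕ → Finset ℕ := Function.extend J D fun j => {b j}
  have DDJ : ∀ i, DD (J i) = D i := fun i => hJ.injective.extend_apply _ _ _
  have DDn : ∀ j, (¬ ∃ i, J i = j) → DD j = {b j} := fun j hj =>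
    Function.extend_apply' _ _ _ hj
  have DDsub : ∀ j, DD j ⊆ S1 j := by
    intro j
    by_cases h : ∃ i, J i = j
    · obtain ⟨i, rfl⟩ := h
      rw [DDJ]
      exact (hD1 i).1
    · rw [DDn j h]
      exact Finset.singleton_subset_iff.2 (hb j)
  have DDbig : Big lam DD := by
    refine ⟨fun j => ?_, fun v k => ⟨J (Nat.pair v k), ?_, ?_⟩⟩
    · by_cases h : ∃ i, J i = j
      · obtain ⟨i, rfl⟩ := h
        rw [DDJ, ← Finset.card_pos]
        have := (hD1 i).2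
        omega
      · rw [DDn j h]
        exact Finset.singleton_nonempty _
    · rw [hJl]
      simp
    · rw [DDJ]
      have h1 := (hD1 (Nat.pair v k)).2
      have h2 := Nat.right_le_pair v k
      omega
  have hhit : ∀ k, ∀ᶠ n in (V : Filter ℕ), Hit C S1 k DD ε n := by
    intro k
    have h1 : ∀ᶠ n in (V : Filter ℕ), ∀ i ∈ {i | i < k}, Dn n i = D i :=
      (Filter.eventually_all_finite (Set.finite_lt_nat k)).2 fun i _ => hD2 i
    filter_upwards [h1, hε] with n hn hεn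
    have hne : ∀ i, (Dn n i).Nonempty := fun i => by
      rw [← Finset.card_pos]
      have := hDn2 n i
      omega
    choose y hy using hne
    refine ⟨emb y, fun j _ => ?_, fun x hx1 hx2 => ?_⟩
    · by_cases h : ∃ i, J i = j
      · obtain ⟨i, rfl⟩ := h
        rw [embJ]
        exact hDn1 n i (hy i)
      · rw [embn y j h]
        exact hb j
    · have hxe : x = emb fun i => x (J i) := by
        funext j
        by_cases h : ∃ i, J i = j
        · obtain ⟨i, rfl⟩ := h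
          rw [embJ]
        · rw [embn _ j h]
          by_cases hj : j < k
          · have := hx1 j hj
            rw [DDn j h, Finset.mem_singleton] at this
            exact this
          · rw [hx2 j (not_lt.1 hj), embn y j h]
      rw [hxe, ← hεn]
      refine hDn3 n _ fun i => ?_
      by_cases hj : J i < k
      · have h2 := hx1 _ hj
        rw [DDJ] at h2
        rw [hn i (lt_of_le_of_lt hJ.le_apply hj)]
        exact h2
      · rw [hx2 _ (not_lt.1 hj), embJ]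
        exact hy i
  have hun : ∀ k, Unav lam C E1 S1 (m k) DD ε := by
    intro k
    refine hst k DD ε (fun j _ => DDsub j) ?_
    rw [← Nat.frequently_atTop_iff_infinite, Filter.frequently_atTop]
    intro N
    obtain ⟨n, ⟨h1, h2⟩, h3⟩ := ((hVE.and (hVc N)).and (hhit (m k))).exists
    exact ⟨n, h2, h1, h3⟩
  obtain ⟨E', S', h1, h2, h3, h4, h5⟩ := final_fusion (C := C) (E := E1) DDbig hC
    (fun N M => ⟨m N, hm.le_apply, by
      obtain ⟨n, hn, hh⟩ := hun N (E1 ∩ {n | M ≤ n}) DD Set.inter_subset_left (by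
        intro hfin
        refine hE1inf ((hfin.union (Set.finite_lt_nat M)).subset fun n hn => ?_)
        by_cases h : M ≤ n
        · exact Or.inl ⟨hn, h⟩
        · exact Or.inr (not_le.1 h)) (fun j _ => DDsub j) DDbig
      exact ⟨n, hn.2, hn.1, hh⟩⟩)
  exact ⟨E', S', ε, h1.trans hE1, h2, fun j => ((h3 j).trans (DDsub j)).trans (hS1S j), h4, h5⟩

end Pool.Agent.H554V

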