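import Pool.Agent.H554V.Stmts2

/-!
# The combinatorial lemma for open sets, from the reading lemma and the one for clopen sets
-/

namespace Pool.Agent.H554V

open Set
open Pool.Agent.Helper669.Forcing

/-- `x` is in the box of the condition `q` -/
def BoxQ (q : Cnd ℕ) (x : ℕ → ℕ) : Prop := ∀ v m, x (Nat.pair v m) ∈ q.S v m

theorem BoxQ.mono {q q' : Cnd ℕ} (h : q' ≤ q) {x : ℕ → ℕ} (hx : BoxQ q' x) : BoxQ q x :=
  fun v m => h.2 v m (hx v m)

theorem cu2 (hR : SRead) (hCU : SCU) : SCU2 := by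
  classical
  intro S E O hB hb0 hE hO
  let p : Cnd ℕ :=
    { E := E
      S := fun v m => S (Nat.pair v m)
      inf := hE
      ne := fun v m => hB.1 _
      sub := fun v m => by simpa using hb0 (Nat.pair v m)
      big := fun v k => by
        obtain ⟨j, hj, hk⟩ := hB.2 v k
        refine ⟨(Nat.unpair j).2, ?_⟩
        rw [← hj]
        show k ≤ (S (Nat.pair (Nat.unpair j).1 (Nat.unpair j).2)).card
        rwa [Nat.pair_unpair]
      ctb := Set.to_countable _ }
  let D : ℕ → Set (Cnd ℕ) := fun n => {q | (∀ x, BoxQ q x → ¬ O n x) ∨ (∀ x, BoxQ q x → O n x)}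
  obtain ⟨q, hq, F, hF⟩ := hR ℕ D p
    (fun n r hr r' hr' => hr.imp (fun h x hx => h x (hx.mono hr')) fun h x hx => h x (hx.mono hr'))
    (fun n p' _ => by
      by_cases hex : ∃ x, BoxQ p' x ∧ O n x
      · obtain ⟨x, hx, hxO⟩ := hex
        obtain ⟨L, hL⟩ := hO n x hxO
        let G : Finset (ℕ × ℕ) := (Finset.range L).image Nat.unpair
        let t : ℕ × ℕ → ℕ := fun e => x (Nat.pair e.1 e.2)
        refine ⟨p'.fix G t, p'.fix_le _ _, Or.inr fun y hy => hL y fun j hj => ?_⟩
        have hjG : ((Nat.unpair j).1, (Nat.unpair j).2) ∈ G :=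
          Finset.mem_image.2 ⟨j, Finset.mem_range.2 hj, rfl⟩
        have h1 := hy (Nat.unpair j).1 (Nat.unpair j).2
        rw [Cnd.fix_S, fixS_of_mem hjG (hx _ _), Finset.mem_singleton, Nat.pair_unpair] at h1
        rw [h1]
        show x j = x (Nat.pair (Nat.unpair j).1 (Nat.unpair j).2)
        rw [Nat.pair_unpair]
      · push Not at hex
        exact ⟨p', le_rfl, Or.inl hex⟩)
  let S1 : ℕ → Finset ℕ := fun j => q.S (Nat.unpair j).1 (Nat.unpair j).2
  have hS1 : Big lam0 S1 := by
    refine ⟨fun j => q.ne _ _, fun v k => ?_⟩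
    obtain ⟨m, hm⟩ := q.big v k
    refine ⟨Nat.pair v m, by simp [lam0], ?_⟩
    simpa [S1] using hm
  have hS1S : ∀ j, S1 j ⊆ S j := by
    intro j
    have h1 := hq.2 (Nat.unpair j).1 (Nat.unpair j).2
    have h2 : p.S (Nat.unpair j).1 (Nat.unpair j).2 = S j := by
      show S (Nat.pair (Nat.unpair j).1 (Nat.unpair j).2) = S j
      rw [Nat.pair_unpair]
    rwa [h2] at h1
  have hE1 : (q.E ∩ E).Infinite := by
    intro hfin
    refine q.inf ((hfin.union hq.1).subset fun n hn => ?_)
    by_cases h : n ∈ E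
    · exact Or.inl ⟨hn, h⟩
    · exact Or.inr ⟨hn, h⟩
  let cl : (ℕ → ℕ) → ℕ → ℕ := fun x j => if x j ∈ S1 j then x j else (hS1.1 j).choose
  have hcl : ∀ x j, cl x j ∈ S1 j := by
    intro x j
    by_cases h : x j ∈ S1 j
    · simp only [cl, if_pos h]
      exact h
    · simp only [cl, if_neg h]
      exact (hS1.1 j).choose_spec
  have hcl2 : ∀ x y j, x j = y j → cl x j = cl y j := by
    intro x y j h
    simp only [cl, h]
  have hdep : ∀ n x y, (∀ j < (F n).sup (fun e => Nat.pair e.1 e.2) + 1, x j = y j) →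
      (O n (cl x) ↔ O n (cl y)) := by
    intro n x y hxy
    let t : ℕ × ℕ → ℕ := fun e => cl x (Nat.pair e.1 e.2)
    have ht : Picks q (F n) t := by
      intro e _
      have := hcl x (Nat.pair e.1 e.2)
      simpa [S1] using this
    have hbx : ∀ z : ℕ → ℕ, (∀ j < (F n).sup (fun e => Nat.pair e.1 e.2) + 1, x j = z j) →
        BoxQ (q.fix (F n) t) (cl z) := by
      intro z hz v m
      rw [Cnd.fix_S]
      by_cases h : (v, m) ∈ F n
      · rw [fixS_of_mem h (ht _ h), Finset.mem_singleton]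
        have h1 : Nat.pair v m < (F n).sup (fun e => Nat.pair e.1 e.2) + 1 :=
          Nat.lt_succ_of_le (Finset.le_sup (f := fun e : ℕ × ℕ => Nat.pair e.1 e.2) h)
        exact (hcl2 x z _ (hz _ h1)).symm
      · rw [fixS_of_notMem h]
        have := hcl z (Nat.pair v m)
        simpa [S1] using this
    rcases hF n t ht with h | h
    · exact iff_of_false (h _ (hbx x fun _ _ => rfl)) (h _ (hbx y hxy))
    · exact iff_of_true (h _ (hbx x fun _ _ => rfl)) (h _ (hbx y hxy))
  obtain ⟨E', S', ε, h1, h2, h3, h4, h5⟩ := hCU lam0 S1 (q.E ∩ E) (fun n x => decide (O n (cl x)))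
    (fun n => (F n).sup (fun e => Nat.pair e.1 e.2) + 1) hS1 hE1
    (fun n x y hxy => by simp only [hdep n x y hxy])
  refine ⟨E', S', ε, h1.trans inter_subset_right, h2, fun j => (h3 j).trans (hS1S j), h4,
    fun n hn x hx => ?_⟩
  have h6 : cl x = x := by
    funext j
    simp only [cl, if_pos (h3 j (hx j))]
  have h7 := h5 n hn x hx
  simp only [h6] at h7
  rw [← h7]
  simp

end Pool.Agent.H554V
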