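import Pool.Agent.H554V.Stmts

/-!
# Big boxes: limits of decreasing sequences of boxes, homogeneous boxes for one function
-/

namespace Pool.Agent.H554V

open Set

variable {lam : ℕ → ℕ}

theorem Big.exists_ge {S : ℕ → Finset ℕ} (hS : Big lam S) (v k m : ℕ) :
    ∃ j, m ≤ j ∧ lam j = v ∧ k ≤ (S j).card := by
  obtain ⟨j, hj, hk⟩ := hS.2 v (k + 1 + (∑ i ∈ Finset.range m, (S i).card))
  refine ⟨j, ?_, hj, by omega⟩
  by_contra h
  push Not at h
  have := Finset.single_le_sum (f := fun i => (S i).card) (fun i _ => Nat.zero_le _)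
    (Finset.mem_range.2 h)
  omega

/-- A box which is big above `m` and nonempty everywhere is big. -/
theorem big_of_ge {S S' : ℕ → Finset ℕ} (hS : Big lam S) (m : ℕ) (hne : ∀ j, (S' j).Nonempty)
    (h : ∀ j, m ≤ j → S j ⊆ S' j) : Big lam S' := by
  refine ⟨hne, fun v k => ?_⟩
  obtain ⟨j, hj, hl, hk⟩ := hS.exists_ge v k m
  exact ⟨j, hl, hk.trans (Finset.card_le_card (h j hj))⟩

/-- limits of decreasing sequences of boxes with frozen initial segments -/
theorem exists_lim {B : ℕ → ℕ → Finset ℕ} {m : ℕ → ℕ} (hm : StrictMono m)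
    (h1 : ∀ k j, B (k + 1) j ⊆ B k j) (h2 : ∀ k, ∀ j < m k, B (k + 1) j = B k j) :
    ∃ S : ℕ → Finset ℕ, (∀ k j, S j ⊆ B k j) ∧ ∀ k, ∀ j < m k, S j = B k j := by
  have hle : ∀ k, k ≤ m k := fun _ => hm.le_apply
  have hst : ∀ k k', k ≤ k' → ∀ j < m k, B k' j = B k j := by
    intro k k' hk j hj
    induction k', hk using Nat.le_induction with
    | base => rfl
    | succ n hn ih => rw [h2 n j (lt_of_lt_of_le hj (hm.monotone hn)), ih]
  have hanti : ∀ k k', k ≤ k' → ∀ j, B k' j ⊆ B k j := by
    intro k k' hk j
    induction k', hk using Nat.le_induction with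
    | base => exact Finset.Subset.refl _
    | succ n hn ih => exact (h1 n j).trans ih
  have key : ∀ k, ∀ j < m k, B (j + 1) j = B k j := by
    intro k j hj
    rcases le_total k (j + 1) with h | h
    · exact hst k (j + 1) h j hj
    · exact (hst (j + 1) k h j (lt_of_lt_of_le (Nat.lt_succ_self j) (hle _))).symm
  refine ⟨fun j => B (j + 1) j, fun k j => ?_, key⟩
  by_cases hj : j < m k
  · exact (key k j hj).subset
  · refine hanti k (j + 1) ?_ j
    have := hle k
    omega

/-- The limit is big. -/
theorem exists_lim_big {B : ℕ → ℕ → Finset ℕ} {m : ℕ → ℕ} (hm : StrictMono m)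
    (h1 : ∀ k j, B (k + 1) j ⊆ B k j) (h2 : ∀ k, ∀ j < m k, B (k + 1) j = B k j)
    (h3 : ∀ k j, (B k j).Nonempty)
    (h4 : ∀ k, ∃ j < m (k + 1), lam j = (Nat.unpair k).1 ∧ k ≤ (B (k + 1) j).card) :
    ∃ S : ℕ → Finset ℕ, (∀ k j, S j ⊆ B k j) ∧ (∀ k, ∀ j < m k, S j = B k j) ∧ Big lam S := by
  obtain ⟨S, hS1, hS2⟩ := exists_lim hm h1 h2
  refine ⟨S, hS1, hS2, fun j => ?_, fun v k => ?_⟩
  · have : j < m (j + 1) := lt_of_lt_of_le (Nat.lt_succ_self j) (hm.le_apply)
    rw [hS2 _ j this]
    exact h3 _ _
  · obtain ⟨j, hj, hl, hc⟩ := h4 (Nat.pair v k)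
    refine ⟨j, by simpa using hl, ?_⟩
    rw [hS2 _ j hj]
    exact (Nat.right_le_pair v k).trans hc

/-- Homogeneous boxes for one function of finitely many coordinates. -/
theorem homog {T : ℕ → Finset ℕ}
    (hT : ∀ k, 2 ^ (Fintype.piFinset fun i : Fin k => T i).card * (k + 1) ≤ (T k).card) :
    ∀ (L : ℕ) (c : (ℕ → ℕ) → Bool), (∀ x y, (∀ j < L, x j = y j) → c x = c y) →
      ∃ (D : ℕ → Finset ℕ) (ε : Bool), (∀ k, D k ⊆ T k) ∧ (∀ k, k + 1 ≤ (D k).card) ∧
        ∀ x, (∀ k, x k ∈ D k) → c x = ε := by
  classical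
  have hT1 : ∀ k, k + 1 ≤ (T k).card := fun k =>
    le_trans (by nlinarith [Nat.one_le_two_pow (n := (Fintype.piFinset fun i : Fin k => T i).card)])
      (hT k)
  intro L
  induction L with
  | zero =>
    intro c hc
    exact ⟨T, c 0, fun _ => Finset.Subset.refl _, hT1, fun x _ => hc _ _ (by simp)⟩
  | succ L ih =>
    intro c hc
    let ext : (Fin L → ℕ) → ℕ → ℕ → ℕ := fun h s j => if hj : j < L then h ⟨j, hj⟩ else s
    let f : ℕ → Finset (Fin L → ℕ) := fun s =>
      (Fintype.piFinset fun i : Fin L => T i).filter fun h => c (ext h s) = true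
    have hmaps : ∀ s ∈ T L, f s ∈ (Fintype.piFinset fun i : Fin L => T i).powerset := by
      intro s _
      rw [Finset.mem_powerset]
      exact Finset.filter_subset _ _
    obtain ⟨y, -, hy⟩ := Finset.exists_le_card_fiber_of_mul_le_card_of_maps_to hmaps
      (Finset.powerset_nonempty _) (n := L + 1) (by rw [Finset.card_powerset]; exact hT L)
    set DL := (T L).filter fun s => f s = y with hDL
    have hDLne : DL.Nonempty := by
      rw [← Finset.card_pos]
      omega
    obtain ⟨s0, hs0⟩ := hDLne
    have hs0' : f s0 = y := (Finset.mem_filter.1 hs0).2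
    obtain ⟨D, ε, hD1, hD2, hD3⟩ := ih (fun x => c fun j => if j < L then x j else s0) (by
      intro x y hxy
      refine hc _ _ fun j _ => ?_
      by_cases h : j < L
      · simp [h, hxy j h]
      · simp [h])
    refine ⟨Function.update D L DL, ε, fun k => ?_, fun k => ?_, fun x hx => ?_⟩
    · by_cases h : k = L
      · subst h
        rw [Function.update_self]
        exact Finset.filter_subset _ _
      · rw [Function.update_of_ne h]
        exact hD1 k
    · by_cases h : k = L
      · subst h
        rw [Function.update_self]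
        exact hy
      · rw [Function.update_of_ne h]
        exact hD2 k
    · have hxL : x L ∈ DL := by simpa using hx L
      have hxL' : f (x L) = y := (Finset.mem_filter.1 hxL).2
      have hxk : ∀ k, k ≠ L → x k ∈ D k := fun k hk => by
        simpa [Function.update_of_ne hk] using hx k
      have hDLne' : (D L).Nonempty := by
        rw [← Finset.card_pos]
        have := hD2 L
        omega
      obtain ⟨d, hd⟩ := hDLne'
      have h1 := hD3 (Function.update x L d) (fun k => by
        by_cases h : k = L
        · subst h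
          rwa [Function.update_self]
        · rw [Function.update_of_ne h]
          exact hxk k h)
      let h : Fin L → ℕ := fun i => x i
      have hh : h ∈ Fintype.piFinset fun i : Fin L => T i := by
        rw [Fintype.mem_piFinset]
        exact fun i => hD1 _ (hxk _ (ne_of_lt i.2))
      have e1 : c x = c (ext h (x L)) := by
        refine hc _ _ fun j hj => ?_
        by_cases hjL : j < L
        · simp [ext, hjL, h]
        · have : j = L := by omega
          simp [ext, this]
      have e2 : c (ext h (x L)) = c (ext h s0) := by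
        have : (h ∈ f (x L)) ↔ (h ∈ f s0) := by rw [hxL', hs0']
        simp only [f, Finset.mem_filter, hh, true_and] at this
        exact Bool.eq_iff_iff.2 this
      have e3 : c (ext h s0) = c fun j => if j < L then Function.update x L d j else s0 := by
        refine hc _ _ fun j hj => ?_
        by_cases hjL : j < L
        · simp [ext, hjL, h, Function.update_of_ne (ne_of_lt hjL)]
        · simp [ext, hjL]
      rw [e1, e2, e3]
      exact h1

end Pool.Agent.H554V
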