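import Pool.Agent.H554V.FSt
import Pool.Agent.H554.Count

/-!
# Counting the conditions, closing off
-/

namespace Pool.Agent.H554V

open Pool.Agent.Helper669.Forcing Set Cardinal
open Pool.Agent.H554 (JJ)
open Pool.Agent.H554.CountAux

/-- the part of a condition on its support, as a countable set -/
def codeS (β : JJ) (p : Cnd JJ) : Set (Iio β × ℕ × ℕ) :=
  {x | x.1.1 ∈ p.supp ∧ x.2.2 ∈ p.S x.1.1 x.2.1}

theorem codeS_countable (β : JJ) (p : Cnd JJ) : (codeS β p).Countable := by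
  have h1 : codeS β p ⊆ {i : Iio β | i.1 ∈ p.supp} ×ˢ (univ : Set (ℕ × ℕ)) := by
    rintro x ⟨h, -⟩
    exact ⟨h, mem_univ _⟩
  refine Countable.mono h1 (Countable.prod ?_ countable_univ)
  exact p.ctb.preimage Subtype.val_injective

theorem codeS_inj {β : JJ} {p q : Cnd JJ} (hp : p.supp ⊆ Iio β) (hq : q.supp ⊆ Iio β)
    (h : codeS β p = codeS β q) : p.S = q.S := by
  have key : ∀ p q : Cnd JJ, p.supp ⊆ Iio β → q.supp ⊆ Iio β → codeS β p = codeS β q →
      ∀ γ m h, h ∈ p.S γ m → h ∈ q.S γ m := by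
    intro p q hp hq h γ m v hv
    by_cases hγ : γ ∈ p.supp
    · have h1 : ((⟨γ, hp hγ⟩, m, v) : Iio β × ℕ × ℕ) ∈ codeS β p := ⟨hγ, hv⟩
      rw [h] at h1
      exact h1.2
    · have h2 : γ ∉ q.supp := by
        intro hγ'
        obtain ⟨w, hw⟩ := q.ne γ m
        have h1 : ((⟨γ, hq hγ'⟩, m, w) : Iio β × ℕ × ℕ) ∈ codeS β q := ⟨hγ', hw⟩
        rw [← h] at h1
        exact hγ h1.1
      have h3 : q.S γ m = Finset.range (m + 1) := by
        by_contra hne
        exact h2 ⟨m, hne⟩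
      rw [h3]
      exact p.sub γ m hv
  funext γ m
  ext v
  exact ⟨key p q hp hq h γ m v, key q p hq hp h.symm γ m v⟩

/-- the number of conditions with support below `β` -/
theorem count : SCount := by
  intro β
  let f : {p : Cnd JJ // p.supp ⊆ Iio β} →
      Set ℕ × {s : Set (Iio β × ℕ × ℕ) // s.Countable} := fun p =>
    (p.1.E, ⟨codeS β p.1, codeS_countable β p.1⟩)
  refine (Cardinal.mk_le_of_injective (f := f) ?_).trans
    (mk_prod_le ?_ (mk_ctbl (mk_prod_le (mk_Iio_le β) (mk_prod_le mk_nat_le mk_nat_le))))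
  · rintro ⟨p, hp⟩ ⟨q, hq⟩ h
    have h1 : p.E = q.E := congrArg Prod.fst h
    have h2 : codeS β p = codeS β q := congrArg (fun x => (Prod.snd x).1) h
    exact Subtype.ext (Cnd.ext h1 (codeS_inj hp hq h2))
  · rw [Cardinal.mk_set, Cardinal.mk_nat, Cardinal.two_power_aleph0]

/-- closing off -/
theorem close : SClose := by
  intro g p
  obtain ⟨α0, hα0⟩ := bdd p.supp (mk_countable p.ctb)
  obtain ⟨β, hβ1, hβ2, -⟩ := Pool.Agent.H554.refl (Cnd JJ × (List ℕ → ℕ)) (fun t => t.1.supp)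
    (fun t => (g t.1 t.2).supp) (fun t => t.1.ctb) (fun t => (g t.1 t.2).ctb) (fun α => by
      refine (Cardinal.mk_le_of_injective
        (f := fun t : {t : Cnd JJ × (List ℕ → ℕ) // t.1.supp ⊆ Iio α} =>
          ((⟨t.1.1, t.2⟩, t.1.2) : {p : Cnd JJ // p.supp ⊆ Iio α} × (List ℕ → ℕ))) ?_).trans
        (mk_prod_le (count α) ?_)
      · rintro ⟨⟨a, b⟩, h⟩ ⟨⟨c, d⟩, h'⟩ hh
        have h1 : a = c := congrArg (fun x => (Prod.fst x).1) hh
        have h2 : b = d := congrArg Prod.snd hh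
        subst h1
        subst h2
        rfl
      · rw [← Cardinal.power_def]
        simp) α0
  exact ⟨β, fun γ hγ => (hα0 γ hγ).trans hβ1, fun r a h => hβ2 (r, a) h⟩

end Pool.Agent.H554V
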