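import Pool.Agent.H554V.Basic
import Pool.Agent.H554.FStmts

/-!
# Statements of the modules, forcing part
-/

namespace Pool.Agent.H554V

open Pool.Agent.Helper669.Forcing Set
open Pool.Agent.H554 (JJ)

/-- paper 2.2 -/
def SRead : Prop := ∀ (J : Type) (D : ℕ → Set (Cnd J)) (p : Cnd J), (∀ n, Down (D n)) →
  (∀ n, ∀ p' ≤ p, ∃ q ≤ p', q ∈ D n) →
  ∃ q ≤ p, ∃ F : ℕ → Finset (J × ℕ), ∀ n t, Picks q (F n) t → q.fix (F n) t ∈ D n

/-- From reading to combinatorics and back: `q` reads the alternatives `c n`, `c' n` by `F n`, all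
coordinates in `F n` are values of `α`. -/
def SLev : Prop := ∀ (J : Type) (q : Cnd J) (α : ℕ → J) (hα : Function.Injective α)
  (F : ℕ → Finset (J × ℕ)) (c c' : ℕ → Set (Cnd J)), (∀ n, Down (c n)) → (∀ n, Down (c' n)) →
  (∀ n, ∀ e ∈ F n, e.1 ∈ range α) →
  (∀ n t, Picks q (F n) t → q.fix (F n) t ∈ c n ∨ q.fix (F n) t ∈ c' n) →
  ∃ (l : ℕ → ℕ) (C : ℕ → (ℕ → ℕ) → Bool), (∀ n x y, (∀ j < l n, x j = y j) → C n x = C n y) ∧
    ∀ (E' : Set ℕ) (S' : ℕ → Finset ℕ) (hE : E'.Infinite)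
      (hS : ∀ j, S' j ⊆ q.S (lev α j).1 (lev α j).2) (hB : Big lam0 S'), (E' \ q.E).Finite →
      ∀ n, ((∀ x, InBox S' x → C n x = true) →
          ∀ r ≤ q.upd α hα E' S' hE hS hB, ∃ s ≤ r, s ∈ c n) ∧
        ((∀ x, InBox S' x → C n x = false) →
          ∀ r ≤ q.upd α hα E' S' hE hS hB, ∃ s ≤ r, s ∈ c' n)

/-- counting the conditions with support below `β` -/
def SCount : Prop := ∀ β : JJ,
  Cardinal.mk {p : Cnd JJ // p.supp ⊆ Iio β} ≤ Cardinal.continuum

/-- closing off: for every assignment `g` of an extension to each pair of a condition and a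
function on finite sequences there are closed initial segments of `JJ`. -/
def SClose : Prop := ∀ (g : Cnd JJ → (List ℕ → ℕ) → Cnd JJ) (p : Cnd JJ), ∃ β : JJ,
  p.supp ⊆ Iio β ∧ ∀ r a, r.supp ⊆ Iio β → (g r a).supp ⊆ Iio β

/-- paper 3 and the easy parts of `FPhiU` -/
def SFU : Prop := ∀ p : Cnd JJ, p ∈ FPhiU (fun i : Set ℕ => i) (uN (J := JJ))

/-- paper 4 -/
def SMain : Prop := ∀ p : Cnd JJ,
  p ∈ FPhiMain (fun i : Set ℕ => i) (fun a : List ℕ → ℕ => a) (uN (J := JJ))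

/-- assembly of the forcing part -/
theorem mainForced_of (h1 : SFU) (h2 : SMain) (hne : Nonempty (Cnd JJ)) : MainForced := by
  refine ⟨Set ℕ, List ℕ → ℕ, fun i => i, fun a => a, Cnd JJ, inferInstance, hne, fun p => ?_⟩
  refine mem_fex_of_mem (i := uN) ?_ ⟨h1 p, h2 p⟩
  exact down_fand (down_fand (down_fall fun _ => down_fimp _ _) (down_fand
    (down_fall fun _ => down_fall fun _ => down_fimp _ _) (down_fall fun _ => down_fex _)))
    (down_fall fun _ => down_fex _)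

end Pool.Agent.H554V
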