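import Pool.Agent.H554V.FSt

/-!
# Paper 2.3, translation between conditions and levels: proof of `SLev`
-/

namespace Pool.Agent.H554V

open Pool.Agent.Helper669.Forcing Set

variable {J : Type}

theorem fixS_congr (p : Cnd J) (F : Finset (J × ℕ)) {t t' : J × ℕ → ℕ}
    (h : ∀ e ∈ F, t e = t' e) : fixS p F t = fixS p F t' := by
  classical
  funext γ m
  unfold fixS
  by_cases hm : (γ, m) ∈ F
  · rw [h _ hm]
  · rw [if_neg fun h' => hm h'.1, if_neg fun h' => hm h'.1]

theorem Cnd.fix_congr (p : Cnd J) (F : Finset (J × ℕ)) {t t' : J × ℕ → ℕ}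
    (h : ∀ e ∈ F, t e = t' e) : p.fix F t = p.fix F t' := by
  refine Cnd.ext rfl ?_
  rw [Cnd.fix_S, Cnd.fix_S]
  exact fixS_congr p F h

open Classical in
/-- the choice of values given by a point `x` on the levels -/
noncomputable def toT (α : ℕ → J) (x : ℕ → ℕ) : J × ℕ → ℕ :=
  fun e => if h : ∃ j, lev α j = e then x h.choose else 0

theorem toT_lev {α : ℕ → J} (hα : Function.Injective α) (x : ℕ → ℕ) (j : ℕ) :
    toT α x (lev α j) = x j := by
  classical
  have h : ∃ i, lev α i = lev α j := ⟨j, rfl⟩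
  unfold toT
  rw [dif_pos h]
  exact congrArg x (lev_inj hα h.choose_spec)

theorem exists_lev {α : ℕ → J} {e : J × ℕ} (h : e.1 ∈ range α) : ∃ j, lev α j = e := by
  obtain ⟨v, hv⟩ := h
  refine ⟨Nat.pair v e.2, ?_⟩
  unfold lev
  rw [Nat.unpair_pair]
  exact Prod.ext hv rfl

theorem proof_SLev : SLev := by
  classical
  intro J q α hα F c c' hc hc' hF hcc
  have hj : ∀ e : J × ℕ, ∃ j, e.1 ∈ range α → lev α j = e := by
    intro e
    by_cases h : e.1 ∈ range α
    · obtain ⟨j, hj⟩ := exists_lev h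
      exact ⟨j, fun _ => hj⟩
    · exact ⟨0, fun h' => absurd h' h⟩
  choose ix hix using hj
  have key : ∀ (E' : Set ℕ) (S' : ℕ → Finset ℕ) (hE : E'.Infinite)
      (hS : ∀ j, S' j ⊆ q.S (lev α j).1 (lev α j).2) (hB : Big lam0 S'), (E' \ q.E).Finite →
      ∀ n, ∀ r ≤ q.upd α hα E' S' hE hS hB, ∃ x, InBox S' x ∧ ∃ s ≤ r,
        s ≤ q.fix (F n) (toT α x) ∧ Picks q (F n) (toT α x) := by
    intro E' S' hE hS hB hfin n r hr
    obtain ⟨t, ht⟩ := exists_picks r
    have hrq : r ≤ q := hr.trans (Cnd.upd_le hfin)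
    have heq : ∀ e ∈ F n, t e = toT α (ofT α t) e := by
      intro e he
      have h1 := hix e (hF n e he)
      have h2 : toT α (ofT α t) (lev α (ix e)) = ofT α t (ix e) := toT_lev hα _ _
      unfold ofT at h2
      rw [h1] at h2
      exact h2.symm
    refine ⟨ofT α t, ?_, r.fix (F n) t, r.fix_le _ _, ?_, ?_⟩
    · intro j
      have h1 : t (lev α j) ∈ r.S (lev α j).1 (lev α j).2 :=
        ht {lev α j} (lev α j) (Finset.mem_singleton_self _)
      have h2 := hr.2 (lev α j).1 (lev α j).2 h1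
      have h3 : (q.upd α hα E' S' hE hS hB).S (lev α j).1 (lev α j).2 = S' j :=
        subS_lev hα S' j
      rw [h3] at h2
      exact h2
    · rw [← Cnd.fix_congr q (F n) heq]
      exact fix_mono hrq (Finset.Subset.refl _) (ht (F n))
    · intro e he
      rw [← heq e he]
      exact (ht (F n)).mono hrq (Finset.Subset.refl _) e he
  refine ⟨fun n => ((F n).sup ix) + 1, fun n x => decide (q.fix (F n) (toT α x) ∈ c n), ?_, ?_⟩
  · intro n x y hxy
    have h : ∀ e ∈ F n, toT α x e = toT α y e := by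
      intro e he
      have h1 := hix e (hF n e he)
      rw [← h1, toT_lev hα, toT_lev hα]
      exact hxy _ (Nat.lt_succ_of_le (Finset.le_sup (f := ix) he))
    simp only [Cnd.fix_congr q (F n) h]
  · intro E' S' hE hS hB hfin n
    constructor
    · intro hx r hr
      obtain ⟨x, hxS, s, hs, hsq, -⟩ := key E' S' hE hS hB hfin n r hr
      exact ⟨s, hs, hc n _ (of_decide_eq_true (hx x hxS)) _ hsq⟩
    · intro hx r hr
      obtain ⟨x, hxS, s, hs, hsq, hp⟩ := key E' S' hE hS hB hfin n r hr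
      refine ⟨s, hs, hc' n _ ?_ _ hsq⟩
      rcases hcc n _ hp with h | h
      · exact absurd h (of_decide_eq_false (hx x hxS))
      · exact h

end Pool.Agent.H554V
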