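import Pool.Agent.H554V.FSt
import Pool.Agent.H554.Count

/-!
# Section 4: the main clause is forced
-/

namespace Pool.Agent.H554V

open Pool.Agent.Helper669.Forcing Set
open Pool.Agent.H554 (JJ)

/-! ### general facts on the forcing relation -/

section gen

variable {P : Type} [Preorder P]

theorem reg_fnot {χ : Set P} (hχ : Down χ) {s : P} (h : ∀ r ≤ s, ∃ s' ≤ r, s' ∈ fnot χ) :
    s ∈ fnot χ := by
  intro q hq hqχ
  obtain ⟨s', hs', h'⟩ := h q hq
  exact h' s' le_rfl (hχ q hqχ s' hs')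

theorem reg_fimp {φ ψ : Set P} (hφ : Down φ) {s : P} (h : ∀ r ≤ s, ∃ s' ≤ r, s' ∈ fimp φ ψ) :
    s ∈ fimp φ ψ :=
  reg_fnot (down_fand hφ (down_fnot _)) h

theorem reg_fall {ι : Type} {φ : ι → Set P} {s : P}
    (hr : ∀ i, (∀ r ≤ s, ∃ s' ≤ r, s' ∈ φ i) → s ∈ φ i)
    (h : ∀ r ≤ s, ∃ s' ≤ r, s' ∈ fall φ) : s ∈ fall φ := fun i => hr i fun r hr => by
  obtain ⟨s', hs', h'⟩ := h r hr
  exact ⟨s', hs', h' i⟩

theorem mem_forr_left {φ ψ : Set P} (hφ : Down φ) {s : P} (h : s ∈ φ) : s ∈ forr φ ψ :=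
  fun q hq hq' => hq'.1 q le_rfl (hφ s h q hq)

theorem mem_forr_right {φ ψ : Set P} (hψ : Down ψ) {s : P} (h : s ∈ ψ) : s ∈ forr φ ψ :=
  fun q hq hq' => hq'.2 q le_rfl (hψ s h q hq)

theorem down_forr (φ ψ : Set P) : Down (forr φ ψ) := down_fnot _

theorem reg_meets {N : Set P} {s : P} (h : ∀ r ≤ s, ∃ s' ≤ r, s' ∈ meets N) : s ∈ meets N := by
  intro q hq
  obtain ⟨s', hs', h'⟩ := h q hq
  obtain ⟨r, hr, u, hu, hru⟩ := h' s' le_rfl
  exact ⟨r, hr.trans hs', u, hu, hru⟩

/-- deciding a sentence -/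
theorem dec_dense (φ : Set P) (p : P) : ∃ q ≤ p, q ∈ φ ∨ q ∈ fnot φ := by
  by_cases h : ∃ q ≤ p, q ∈ φ
  · obtain ⟨q, hq, h⟩ := h
    exact ⟨q, hq, Or.inl h⟩
  · push Not at h
    exact ⟨p, le_rfl, Or.inr h⟩

end gen

variable {J : Type}

/-! ### finiteness of the set of fixings -/

theorem fix_congr {p : Cnd J} {F : Finset (J × ℕ)} {t t' : J × ℕ → ℕ} (h : ∀ e ∈ F, t e = t' e) :
    p.fix F t = p.fix F t' := by
  classical
  apply Cnd.ext
  · rfl
  · funext γ m
    show fixS p F t γ m = fixS p F t' γ m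
    unfold fixS
    by_cases hF : (γ, m) ∈ F
    · rw [h _ hF]
    · rw [if_neg fun h' => hF h'.1, if_neg fun h' => hF h'.1]

theorem finite_fix (p : Cnd J) (F : Finset (J × ℕ)) :
    {c | ∃ t, Picks p F t ∧ p.fix F t = c}.Finite := by
  classical
  let G : (∀ e ∈ F, ℕ) → Cnd J := fun f => p.fix F fun e => if h : e ∈ F then f e h else 0
  refine ((F.pi fun e => p.S e.1 e.2).finite_toSet.image G).subset ?_
  rintro c ⟨t, ht, rfl⟩
  refine ⟨fun e _ => t e, ?_, ?_⟩
  · rw [Finset.mem_coe, Finset.mem_pi]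
    exact fun e he => ht e he
  · refine fix_congr fun e he => ?_
    rw [dif_pos he]

/-! ### enumerations -/

theorem exists_enum [Infinite J] (A : Set J) (hA : A.Countable) :
    ∃ α : ℕ → J, Function.Injective α ∧ A ⊆ range α := by
  let f : ℕ ↪ J := Infinite.natEmbedding J
  let B : Set J := A ∪ range f
  have hB : B.Countable := hA.union (countable_range f)
  have hBi : B.Infinite := (infinite_range_of_injective f.injective).mono subset_union_right
  have h1 : Countable B := hB.to_subtype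
  have h2 : Infinite B := hBi.to_subtype
  obtain ⟨e⟩ : Nonempty (ℕ ≃ B) := nonempty_equiv_of_countable
  refine ⟨fun n => (e n).1, fun m n h => e.injective (Subtype.ext h), fun x hx => ?_⟩
  exact ⟨e.symm ⟨x, Or.inl hx⟩, by simp⟩

/-! ### splitting a finite set -/

theorem exists_split (S : Finset ℕ) (i : ℕ) (h : (i + 1) * (i + 1) ≤ S.card) :
    ∃ b : ℕ → ℕ, ∀ k ≤ i, i + 1 ≤ (S.filter fun x => b x = k).card := by
  classical
  let e := S.orderEmbOfFin rfl
  have he : ∀ j, e j ∈ S := fun j => S.orderEmbOfFin_mem rfl j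
  let b : ℕ → ℕ := fun x => if h : ∃ j, e j = x then h.choose.1 / (i + 1) else 0
  have hb : ∀ j, b (e j) = j.1 / (i + 1) := by
    intro j
    have h : ∃ j', e j' = e j := ⟨j, rfl⟩
    have h2 : h.choose = j := e.injective h.choose_spec
    show (if h : ∃ j', e j' = e j then h.choose.1 / (i + 1) else 0) = _
    rw [dif_pos h, h2]
  refine ⟨b, fun k hk => ?_⟩
  have hlt : ∀ j ∈ Finset.range (i + 1), k * (i + 1) + j < S.card := by
    intro j hj
    rw [Finset.mem_range] at hj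
    have : k * (i + 1) + (i + 1) ≤ (i + 1) * (i + 1) := by
      rw [← Nat.succ_mul]
      exact Nat.mul_le_mul_right _ (by omega)
    omega
  let f : ℕ → ℕ := fun j => if h : k * (i + 1) + j < S.card then e ⟨_, h⟩ else 0
  have hcard : (Finset.range (i + 1)).card ≤ (S.filter fun x => b x = k).card := by
    refine Finset.card_le_card_of_injOn f ?_ ?_
    · intro j hj
      have hj' := hlt j hj
      have h1 : f j = e ⟨_, hj'⟩ := dif_pos hj'
      rw [h1]
      simp only [Finset.coe_filter, mem_ofPred_eq]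
      refine ⟨he _, ?_⟩
      rw [hb]
      show (k * (i + 1) + j) / (i + 1) = k
      have hj2 : j < i + 1 := Finset.mem_range.1 hj
      rw [mul_comm, Nat.mul_add_div (by omega), Nat.div_eq_of_lt hj2, add_zero]
    · intro j hj j' hj' hff
      have h1 := hlt j hj
      have h2 := hlt j' hj'
      have h3 : f j = e ⟨_, h1⟩ := dif_pos h1
      have h4 : f j' = e ⟨_, h2⟩ := dif_pos h2
      rw [h3, h4] at hff
      have h5 := congrArg Fin.val (e.injective hff)
      simp only at h5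
      omega
  simpa using hcard

/-! ### restriction and amalgamation -/

open Classical in
/-- the sets of `q` below `β`, the sets of `p` from `β` on -/
noncomputable def glueS (β : JJ) (q p : Cnd JJ) : JJ → ℕ → Finset ℕ :=
  fun γ m => if γ < β then q.S γ m else p.S γ m

theorem glueS_lt {β : JJ} {q p : Cnd JJ} {γ : JJ} (h : γ < β) (m : ℕ) :
    glueS β q p γ m = q.S γ m := by
  unfold glueS
  rw [if_pos h]

theorem glueS_ge {β : JJ} {q p : Cnd JJ} {γ : JJ} (h : ¬ γ < β) (m : ℕ) :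
    glueS β q p γ m = p.S γ m := by
  unfold glueS
  rw [if_neg h]

/-- `q` below `β`, `p` from `β` on -/
noncomputable def glue (β : JJ) (q p : Cnd JJ) : Cnd JJ where
  E := q.E
  S := glueS β q p
  inf := q.inf
  ne γ m := by
    by_cases h : γ < β
    · rw [glueS_lt h]; exact q.ne γ m
    · rw [glueS_ge h]; exact p.ne γ m
  sub γ m := by
    by_cases h : γ < β
    · rw [glueS_lt h]; exact q.sub γ m
    · rw [glueS_ge h]; exact p.sub γ m
  big γ k := by
    by_cases h : γ < β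
    · obtain ⟨m, hm⟩ := q.big γ k
      exact ⟨m, by rw [glueS_lt h]; exact hm⟩
    · obtain ⟨m, hm⟩ := p.big γ k
      exact ⟨m, by rw [glueS_ge h]; exact hm⟩
  ctb := by
    refine (q.ctb.union p.ctb).mono ?_
    rintro γ ⟨m, hm⟩
    by_cases h : γ < β
    · exact Or.inl ⟨m, by rwa [glueS_lt h] at hm⟩
    · exact Or.inr ⟨m, by rwa [glueS_ge h] at hm⟩

/-- the weakest condition with a given first part -/
noncomputable def topC (J : Type) (E : Set ℕ) (hE : E.Infinite) : Cnd J where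
  E := E
  S := fun _ m => Finset.range (m + 1)
  inf := hE
  ne _ m := ⟨0, by simp⟩
  sub _ _ := Finset.Subset.refl _
  big _ k := ⟨k, by simp⟩
  ctb := by simp

/-- the restriction of `p` below `β` -/
noncomputable def resC (β : JJ) (p : Cnd JJ) : Cnd JJ := glue β p (topC JJ univ infinite_univ)

theorem resC_E (β : JJ) (p : Cnd JJ) : (resC β p).E = p.E := rfl

theorem resC_supp (β : JJ) (p : Cnd JJ) : (resC β p).supp ⊆ Iio β := by
  rintro γ ⟨m, hm⟩
  by_contra h
  exact hm (glueS_ge h m)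

theorem glue_le_left {β : JJ} {q p : Cnd JJ} (hq : q.supp ⊆ Iio β) : glue β q p ≤ q := by
  refine ⟨by show (q.E \ q.E).Finite; simp, fun γ m => ?_⟩
  show glueS β q p γ m ⊆ q.S γ m
  by_cases h : γ < β
  · rw [glueS_lt h]
  · rw [glueS_ge h]
    have h1 : q.S γ m = Finset.range (m + 1) := by
      by_contra h2
      exact h (hq ⟨m, h2⟩)
    rw [h1]
    exact p.sub γ m

theorem glue_le_right {β : JJ} {q p : Cnd JJ} (hq : q ≤ resC β p) : glue β q p ≤ p := by
  refine ⟨hq.1, fun γ m => ?_⟩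
  show glueS β q p γ m ⊆ p.S γ m
  by_cases h : γ < β
  · rw [glueS_lt h]
    refine (hq.2 γ m).trans ?_
    show glueS β p _ γ m ⊆ _
    rw [glueS_lt h]
  · rw [glueS_ge h]

/-! ### names -/

theorem isFun_gN {J : Type} (γ : J) (p : Cnd J) : p ∈ IsFun (gN γ) := by
  refine ⟨fun m => mem_fex.2 fun q _ => ?_, fun m k k' => ?_⟩
  · obtain ⟨t, ht⟩ := exists_picks q
    refine ⟨q.fix {(γ, m)} t, q.fix_le _ _, t (γ, m), meets_of_mem ?_⟩
    show fixS q {(γ, m)} t γ m = {t (γ, m)}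
    exact fixS_of_mem (Finset.mem_singleton_self _) (ht {(γ, m)} _ (Finset.mem_singleton_self _))
  · refine mem_fimp.2 fun q _ hq => ⟨q, le_rfl, ?_⟩
    obtain ⟨r, hr, s, hs, hrs⟩ := hq.1 q le_rfl
    obtain ⟨r', hr', s', hs', hrs'⟩ := hq.2 r hr
    have h1 : r'.S γ m ⊆ {k} := by
      have h := (hr'.trans hrs).2 γ m
      rwa [show s.S γ m = {k} from hs] at h
    have h2 : r'.S γ m ⊆ {k'} := by
      have h := hrs'.2 γ m
      rwa [show s'.S γ m = {k'} from hs'] at h
    obtain ⟨x, hx⟩ := r'.ne γ m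
    exact (Finset.mem_singleton.1 (h1 hx)).symm.trans (Finset.mem_singleton.1 (h2 hx))

theorem gN_le {J : Type} (γ : J) (p : Cnd J) (m k : ℕ) :
    p ∈ fimp (meets (gN γ m k)) (fground (k ≤ m)) := by
  refine mem_fimp.2 fun q _ hq => ⟨q, le_rfl, ?_⟩
  obtain ⟨r, hr, s, hs, hrs⟩ := hq q le_rfl
  obtain ⟨x, hx⟩ := r.ne γ m
  have h1 := hrs.2 γ m hx
  rw [show s.S γ m = {k} from hs, Finset.mem_singleton] at h1
  have h2 := r.sub γ m hx
  rw [h1, Finset.mem_range] at h2
  exact Nat.lt_succ_iff.1 h2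

/-- the value of `a` at the initial segments of the generic function -/
theorem mem_FAt {K : Type} (ev : K → List ℕ → ℕ) (a : K) (Q : ℕ → Prop) {s : Cnd J} (γ : J) (n : ℕ)
    (h : ∀ t : J × ℕ → ℕ, (∀ F, Picks s F t) →
      Q (ev a ((List.range n).map fun j => t (γ, j)))) :
    s ∈ FAt ev Q a (gN γ) n := by
  refine mem_fex.2 fun q hq => ?_
  obtain ⟨t, ht⟩ := exists_picks q
  let F : Finset (J × ℕ) := (Finset.range n).map ⟨fun j => (γ, j), fun i j h => (Prod.ext_iff.1 h).2⟩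
  refine ⟨q.fix F t, q.fix_le _ _, (List.range n).map fun j => t (γ, j), ⟨?_, ?_⟩, ?_⟩
  · simp
  · exact h t fun F => (ht F).mono hq (Finset.Subset.refl _)
  · intro i hi
    have hi' : i < n := by simpa using hi
    have hF : (γ, i) ∈ F := by
      rw [Finset.mem_map]
      exact ⟨i, Finset.mem_range.2 hi', rfl⟩
    have h1 : ((List.range n).map fun j => t (γ, j)).getD i 0 = t (γ, i) := by
      rw [List.getD_eq_getElem _ _ hi]
      simp
    rw [h1]
    refine meets_of_mem ?_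
    show fixS q F t γ i = {t (γ, i)}
    exact fixS_of_mem hF (ht F _ hF)

theorem uN_self {s : Cnd J} {B : Set ℕ} (h : (s.E \ B).Finite) : s ∈ meets (uN B) :=
  meets_of_mem h

theorem reg_FIn {P K : Type} [Preorder P] (W : K → ℕ → ℕ → Set P) (y : ℕ → ℕ → Set P) (a : K)
    (n : ℕ) {s : P} (h : ∀ r ≤ s, ∃ s' ≤ r, s' ∈ FIn W y a n) : s ∈ FIn W y a n :=
  fun m => reg_fimp (down_meets _) fun r hr => by
    obtain ⟨s', hs', h'⟩ := h r hr
    exact ⟨s', hs', h' m⟩

theorem reg_FNotIn {P K : Type} [Preorder P] (W : K → ℕ → ℕ → Set P) (y : ℕ → ℕ → Set P) (a : K)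
    (n : ℕ) {s : P} (h : ∀ r ≤ s, ∃ s' ≤ r, s' ∈ FNotIn W y a n) : s ∈ FNotIn W y a n :=
  fun m => reg_fimp (down_meets _) fun r hr => by
    obtain ⟨s', hs', h'⟩ := h r hr
    exact ⟨s', hs', h' m⟩

theorem down_FIn {P K : Type} [Preorder P] (W : K → ℕ → ℕ → Set P) (y : ℕ → ℕ → Set P) (a : K)
    (n : ℕ) : Down (FIn W y a n) := down_fall fun _ => down_fimp _ _

theorem down_FNotIn {P K : Type} [Preorder P] (W : K → ℕ → ℕ → Set P) (y : ℕ → ℕ → Set P) (a : K)
    (n : ℕ) : Down (FNotIn W y a n) := down_fall fun _ => down_fimp _ _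

theorem down_FPhiI {P R K : Type} [Preorder P] (B : R → Set ℕ) (ev : K → List ℕ → ℕ)
    (u : R → Set P) (W : K → ℕ → ℕ → Set P) (g y : ℕ → ℕ → Set P) (a : K) :
    Down (FPhiI B ev u W g y a) := down_fex _

theorem down_FPhiII {P R K : Type} [Preorder P] (B : R → Set ℕ) (ev : K → List ℕ → ℕ)
    (u : R → Set P) (W : K → ℕ → ℕ → Set P) (g y : ℕ → ℕ → Set P) (a : K) :
    Down (FPhiII B ev u W g y a) :=
  down_fand (down_fall fun _ => down_fex _) (down_fex _)

/-- the value of a glued condition at `β` -/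
theorem glue_S_self {β : JJ} {q p : Cnd JJ} (m : ℕ) : (glue β q p).S β m = p.S β m :=
  glueS_ge (lt_irrefl β) m

theorem infinite_JJP : Infinite JJ := by
  rw [Cardinal.infinite_iff, Pool.Agent.H554.CountAux.mk_JJ]
  exact Cardinal.aleph0_le_continuum.trans (Order.le_succ _)

/-- choice of the levels `m_i` -/
theorem exists_levelsP (p : Cnd J) (β : J) : ∃ mm : ℕ → ℕ, StrictMono mm ∧
    ∀ i, (i + 1) * (i + 1) ≤ (p.S β (mm i)).card := by
  have h : ∀ N k : ℕ, ∃ m, N < m ∧ k ≤ (p.S β m).card := by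
    intro N k
    obtain ⟨m, hm, hk⟩ := big_of_eq (S := p.S) (S' := p.S)
      ((Finset.range (N + 1)).map ⟨fun j => (β, j), fun i j h => (Prod.ext_iff.1 h).2⟩) β
      (p.big β) (fun _ _ => Finset.Subset.refl _) k
    refine ⟨m, ?_, hk⟩
    by_contra hlt
    apply hm
    rw [Finset.mem_map]
    exact ⟨m, Finset.mem_range.2 (by omega), rfl⟩
  choose f hf1 hf2 using h
  let mm : ℕ → ℕ := fun i => Nat.rec (f 0 1) (fun i x => f x ((i + 2) * (i + 2))) i
  refine ⟨mm, strictMono_nat_of_lt_succ fun i => hf1 _ _, fun i => ?_⟩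
  cases i with
  | zero => exact hf2 0 1
  | succ i => exact hf2 _ _

theorem exists_iof (mm : ℕ → ℕ) (hmm : StrictMono mm) : ∃ io : ℕ → ℕ,
    (∀ n, mm 0 < n → mm (io n) < n) ∧ Filter.Tendsto io Filter.atTop Filter.atTop := by
  classical
  refine ⟨fun n => Nat.findGreatest (fun i => mm i < n) n, fun n hn => ?_, ?_⟩
  · exact Nat.findGreatest_spec (P := fun i => mm i < n) (Nat.zero_le n) hn
  · rw [Filter.tendsto_atTop]
    intro k
    filter_upwards [Filter.eventually_gt_atTop (mm k)] with n hn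
    exact Nat.le_findGreatest ((hmm.le_apply).trans hn.le) hn

/-- paper 4, the core: below every condition which forces `y` to be a function there is one which
forces one of the alternatives. -/
theorem core (hR : SRead) (hCM : SCM) (hL : SLev) (W : (List ℕ → ℕ) → ℕ → ℕ → Set (Cnd JJ))
    (G : Cnd JJ → (List ℕ → ℕ) → Cnd JJ) (Fw : Cnd JJ → (List ℕ → ℕ) → ℕ → Finset (JJ × ℕ))
    (hG : ∀ r a, G r a ≤ r)
    (hFw : ∀ r a i t, Picks (G r a) (Fw r a i) t →
      (G r a).fix (Fw r a i) t ∈ meets (W a i.unpair.1 i.unpair.2) ∨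
        (G r a).fix (Fw r a i) t ∈ fnot (meets (W a i.unpair.1 i.unpair.2)))
    (β : JJ) (hβ : ∀ r a, r.supp ⊆ Iio β → (G r a).supp ⊆ Iio β)
    (y : ℕ → ℕ → Set (Cnd JJ)) (p2 : Cnd JJ) (hy : p2 ∈ IsFun y) :
    ∃ s ≤ p2, ∃ a : List ℕ → ℕ,
      s ∈ FPhiI (fun i : Set ℕ => i) (fun a : List ℕ → ℕ => a) uN W (gN β) y a ∨
      s ∈ FPhiII (fun i : Set ℕ => i) (fun a : List ℕ → ℕ => a) uN W (gN β) y a := by
  classical
  -- reading y
  obtain ⟨p, hp, Fy, hFy⟩ := hR JJ (fun n => {s | ∃ m, s ∈ meets (y n m)}) p2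
    (fun n s hs r hr => by
      obtain ⟨m, hm⟩ := hs
      exact ⟨m, down_meets _ _ hm _ hr⟩)
    (fun n p' hp' => IsFun.total (down_IsFun y _ hy _ hp') n)
  -- the function a
  obtain ⟨mm, hmm, hcard⟩ := exists_levelsP p β
  choose b hb using fun i => exists_split (p.S β (mm i)) i (hcard i)
  obtain ⟨io, hio1, hio2⟩ := exists_iof mm hmm
  let a : List ℕ → ℕ := fun s => b (io s.length) (s.getD (mm (io s.length)) 0)
  -- reading W a
  let q := G (resC β p) a
  have hq : q ≤ resC β p := hG _ _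
  have hqs : q.supp ⊆ Iio β := hβ _ _ (resC_supp β p)
  let q' := glue β q p
  have hq'q : q' ≤ q := glue_le_left hqs
  have hq'p : q' ≤ p := glue_le_right hq
  -- bound for the values of y
  have hval : ∀ n, ∃ M : ℕ, ∀ t, Picks p (Fy n) t → ∃ m < M, p.fix (Fy n) t ∈ meets (y n m) := by
    intro n
    have hfin := finite_fix p (Fy n)
    have h1 : ∀ c : {c | ∃ t, Picks p (Fy n) t ∧ p.fix (Fy n) t = c}, ∃ m, c.1 ∈ meets (y n m) := by
      rintro ⟨c, t, ht, rfl⟩
      exact hFy n t ht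
    choose mc hmc using h1
    have := hfin.to_subtype
    obtain ⟨M, hM⟩ := (Set.finite_range mc).bddAbove
    refine ⟨M + 1, fun t ht => ?_⟩
    exact ⟨mc ⟨_, t, ht, rfl⟩, Nat.lt_succ_of_le (hM ⟨_, rfl⟩), hmc ⟨_, t, ht, rfl⟩⟩
  choose M hM using hval
  let F : ℕ → Finset (JJ × ℕ) := fun n =>
    Fy n ∪ (Finset.range (M n)).biUnion fun m => Fw (resC β p) a (Nat.pair n m)
  have hread : ∀ n t, Picks q' (F n) t →
      q'.fix (F n) t ∈ FIn W y a n ∨ q'.fix (F n) t ∈ FNotIn W y a n := by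
    intro n t ht
    obtain ⟨m, hmM, hm⟩ := hM n t (ht.mono hq'p Finset.subset_union_left)
    have h1 : q'.fix (F n) t ∈ meets (y n m) :=
      down_meets _ _ hm _ (fix_mono hq'p Finset.subset_union_left ht)
    have h2 : Fw (resC β p) a (Nat.pair n m) ⊆ F n :=
      (Finset.subset_biUnion_of_mem (fun m => Fw (resC β p) a (Nat.pair n m))
        (Finset.mem_range.2 hmM)).trans Finset.subset_union_right
    have h3 : q'.fix (F n) t ≤ q.fix (Fw (resC β p) a (Nat.pair n m)) t := fix_mono hq'q h2 ht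
    have h4 := hFw (resC β p) a (Nat.pair n m) t (ht.mono hq'q h2)
    simp only [Nat.unpair_pair] at h4
    have hfun : q'.fix (F n) t ∈ IsFun y :=
      down_IsFun y _ hy _ ((q'.fix_le _ _).trans (hq'p.trans hp))
    rcases h4 with h4 | h4
    · left
      intro m'
      refine mem_fimp.2 fun r hr hr' => ⟨r, le_rfl, ?_⟩
      have h5 : m = m' := IsFun.unique (R := y) (down_IsFun y _ hfun _ hr) (down_meets _ _ h1 _ hr) hr'
      subst h5
      exact down_meets _ _ (down_meets _ _ h4 _ h3) _ hr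
    · right
      intro m'
      refine mem_fimp.2 fun r hr hr' => ⟨r, le_rfl, ?_⟩
      have h5 : m = m' := IsFun.unique (R := y) (down_IsFun y _ hfun _ hr) (down_meets _ _ h1 _ hr) hr'
      subst h5
      exact down_fnot _ _ (down_fnot _ _ h4 _ h3) _ hr
  -- levels
  have := infinite_JJP
  obtain ⟨α, hα, hαA⟩ := exists_enum ({β} ∪ ⋃ n, Prod.fst '' (F n : Set (JJ × ℕ)))
    ((countable_singleton β).union (countable_iUnion fun n =>
      ((F n).finite_toSet.image Prod.fst).countable))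
  obtain ⟨v0, hv0⟩ : ∃ v, α v = β := hαA (Or.inl rfl)
  obtain ⟨l, C, hC, hup⟩ := hL JJ q' α hα F (FIn W y a) (FNotIn W y a) (fun n => down_FIn _ _ _ _)
    (fun n => down_FNotIn _ _ _ _)
    (fun n e he => hαA (Or.inr (mem_iUnion.2 ⟨n, ⟨e, he, rfl⟩⟩))) hread
  let S : ℕ → Finset ℕ := fun j => q'.S (lev α j).1 (lev α j).2
  have hS : Big lam0 S := by
    refine ⟨fun j => q'.ne _ _, fun v k => ?_⟩
    obtain ⟨m, hm⟩ := q'.big (α v) k
    refine ⟨Nat.pair v m, by simp [lam0], ?_⟩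
    show k ≤ (q'.S (lev α (Nat.pair v m)).1 (lev α (Nat.pair v m)).2).card
    simpa [lev] using hm
  let Jl : ℕ → ℕ := fun i => Nat.pair v0 (mm i)
  have hJ : ∀ i, lev α (Jl i) = (β, mm i) := by
    intro i
    simp only [lev, Jl, Nat.unpair_pair, hv0]
  have hE : {n | n ∈ q'.E ∧ mm 0 < n}.Infinite := by
    have h1 : (q'.E \ {n | n ≤ mm 0}).Infinite := q'.inf.sdiff (finite_le_nat _)
    refine h1.mono ?_
    rintro n ⟨hn, hn'⟩
    exact ⟨hn, by simpa using hn'⟩
  obtain ⟨E', S', hE'1, hE'2, hS'1, hS'2, halt⟩ := hCM lam0 S {n | n ∈ q'.E ∧ mm 0 < n} C l Jl b io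
    hS hE hC (fun i j hij => Nat.pair_lt_pair_right v0 (hmm hij)) (fun k => by simp [lam0, Jl])
    (fun i k hk => by
      have h1 : S (Jl i) = p.S β (mm i) := by
        show q'.S (lev α (Jl i)).1 (lev α (Jl i)).2 = _
        rw [hJ]
        exact glue_S_self _
      rw [h1]
      exact hb i k hk) hio2
  let s := q'.upd α hα E' S' hE'2 hS'1 hS'2
  have hEs : (E' \ q'.E).Finite := by
    have : E' \ q'.E = ∅ := by
      ext n
      simp only [mem_sdiff, mem_empty_iff_false, iff_false, not_and, not_not]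
      exact fun hn => (hE'1 hn).1
    rw [this]
    exact finite_empty
  have hs : s ≤ q' := Cnd.upd_le hEs
  have hsE : s.E = E' := rfl
  have hbox : ∀ t : JJ × ℕ → ℕ, (∀ F, Picks s F t) → InBox S' (ofT α t) := by
    intro t ht j
    have h1 := ht {lev α j} (lev α j) (Finset.mem_singleton_self _)
    have h2 : s.S (lev α j).1 (lev α j).2 = S' j := subS_lev hα S' j
    rw [h2] at h1
    exact h1
  have haval : ∀ n ∈ E', ∀ t : JJ × ℕ → ℕ, a ((List.range n).map fun j => t (β, j)) =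
      b (io n) (ofT α t (Jl (io n))) := by
    intro n hn t
    have h1 := hio1 n (hE'1 hn).2
    show b (io ((List.range n).map fun j => t (β, j)).length)
      (((List.range n).map fun j => t (β, j)).getD
        (mm (io ((List.range n).map fun j => t (β, j)).length)) 0) = _
    have h2 : ((List.range n).map fun j => t (β, j)).length = n := by simp
    rw [h2, List.getD_eq_getElem _ _ (by rw [h2]; exact h1)]
    simp only [List.getElem_map, List.getElem_range, ofT, hJ]
  refine ⟨s, hs.trans (hq'p.trans hp), a, ?_⟩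
  rcases halt with ⟨k, hk⟩ | ⟨h1, h2⟩
  · left
    refine mem_fex_of_mem (i := k) (down_fex _) ?_
    refine mem_fex_of_mem (i := E') (down_fand (down_meets _) (down_fall fun _ => down_fimp _ _)) ?_
    refine ⟨uN_self (by rw [hsE]; simp), fun n => ?_⟩
    refine mem_fimp.2 fun r hr hn => ⟨r, le_rfl, ?_⟩
    have hn' : n ∈ E' := hn
    refine down_fand (down_fex _) (down_FNotIn _ _ _ _) s ⟨?_, ?_⟩ r hr
    · refine mem_FAt (fun a : List ℕ → ℕ => a) a (fun v => v = k) β n fun t ht => ?_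
      show a _ = k
      rw [haval n hn' t]
      exact (hk n hn' _ (hbox t ht)).1
    · exact reg_FNotIn _ _ _ _
        ((hup E' S' hE'2 hS'1 hS'2 hEs n).2 fun x hx => (hk n hn' x hx).2)
  · right
    refine ⟨fun k => ?_, ?_⟩
    · obtain ⟨N, hN⟩ := h2 k
      refine mem_fex_of_mem (i := {n | n ∈ E' ∧ N ≤ n})
        (down_fand (down_meets _) (down_fall fun _ => down_fimp _ _)) ?_
      refine ⟨uN_self ?_, fun n => ?_⟩
      · rw [hsE]
        refine (finite_lt_nat N).subset ?_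
        rintro n ⟨hn, hn'⟩
        by_contra h
        exact hn' ⟨hn, not_lt.1 h⟩
      · refine mem_fimp.2 fun r hr hn => ⟨r, le_rfl, ?_⟩
        have hn' : n ∈ E' ∧ N ≤ n := hn
        refine down_fex _ s ?_ r hr
        refine mem_FAt (fun a : List ℕ → ℕ => a) a (fun v => k ≤ v) β n fun t ht => ?_
        show k ≤ a _
        rw [haval n hn'.1 t]
        exact hN n hn'.1 hn'.2 _ (hbox t ht)
    · refine mem_fex_of_mem (i := E') (down_fand (down_meets _) (down_fall fun _ => down_fimp _ _)) ?_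
      refine ⟨uN_self (by rw [hsE]; simp), fun n => ?_⟩
      refine mem_fimp.2 fun r hr hn => ⟨r, le_rfl, ?_⟩
      have hn' : n ∈ E' := hn
      refine down_FIn _ _ _ _ s ?_ r hr
      exact reg_FIn _ _ _ _
        ((hup E' S' hE'2 hS'1 hS'2 hEs n).1 fun x hx => h1 n hn' x hx)

theorem main_part (hR : SRead) (hCM : SCM) (hL : SLev) (hC : SClose) : SMain := by
  classical
  intro p W
  refine mem_fex.2 fun p1 _ => ⟨p1, le_rfl, ?_⟩
  have hread : ∀ (r : Cnd JJ) (a : List ℕ → ℕ), ∃ q ≤ r, ∃ F : ℕ → Finset (JJ × ℕ), ∀ i t,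
      Picks q (F i) t → q.fix (F i) t ∈ meets (W a i.unpair.1 i.unpair.2) ∨
        q.fix (F i) t ∈ fnot (meets (W a i.unpair.1 i.unpair.2)) := by
    intro r a
    exact hR JJ (fun i => {q | q ∈ meets (W a i.unpair.1 i.unpair.2) ∨
        q ∈ fnot (meets (W a i.unpair.1 i.unpair.2))}) r
      (fun i s hs u hu => hs.elim (fun h => Or.inl (down_meets _ _ h _ hu))
        fun h => Or.inr (down_fnot _ _ h _ hu))
      (fun i p' _ => dec_dense _ p')
  choose G hG Fw hFw using hread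
  obtain ⟨β, -, hβ⟩ := hC G p1
  refine ⟨gN β, ⟨isFun_gN β p1, fun m k => gN_le β p1 m k⟩, fun y => ?_⟩
  refine mem_fimp.2 fun p2 _ hy => ?_
  obtain ⟨s, hs, a, h⟩ := core hR hCM hL W G Fw hG hFw β hβ y p2 hy
  refine ⟨s, hs, mem_fex_of_mem (i := a) (down_forr _ _) ?_⟩
  rcases h with h | h
  · exact mem_forr_left (down_FPhiI _ _ _ _ _ _ _) h
  · exact mem_forr_right (down_FPhiII _ _ _ _ _ _ _) h

end Pool.Agent.H554V
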