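import Pool.Agent.H554V.FSt

/-!
# Reading names by fusion (paper 2.1, 2.2)
-/

set_option autoImplicit false

namespace Pool.Agent.H554V

open Pool.Agent.Helper669.Forcing Set

namespace Read

variable {J : Type}

/-- the condition which is `r` off `F` and `q` on `F` -/
theorem exists_glue (q r : Cnd J) (F : Finset (J × ℕ)) (t : J × ℕ → ℕ) (ht : Picks q F t)
    (hr : r ≤ q.fix F t) :
    ∃ q' ≤ q, (∀ e ∈ F, q'.S e.1 e.2 = q.S e.1 e.2) ∧ q'.fix F t ≤ r := by
  classical
  have hsub : ∀ γ m, r.S γ m ⊆ q.S γ m := fun γ m => (hr.2 γ m).trans (fixS_sub q F t γ m)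
  have hfix : ∀ γ m, (γ, m) ∈ F → r.S γ m = {t (γ, m)} := by
    intro γ m h
    have h1 : r.S γ m ⊆ {t (γ, m)} := by
      have h2 := hr.2 γ m
      rw [Cnd.fix_S, fixS_of_mem h (ht _ h)] at h2
      exact h2
    exact (Finset.subset_singleton_iff.1 h1).resolve_left
      (Finset.nonempty_iff_ne_empty.1 (r.ne γ m))
  let q' : Cnd J :=
    { E := r.E
      S := fun γ m => if (γ, m) ∈ F then q.S γ m else r.S γ m
      inf := r.inf
      ne := fun γ m => by
        split_ifs
        · exact q.ne γ m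
        · exact r.ne γ m
      sub := fun γ m => by
        split_ifs
        · exact q.sub γ m
        · exact r.sub γ m
      big := fun γ k => by
        obtain ⟨m, hm, h⟩ := big_of_eq (S := r.S) (S' := r.S) F γ (r.big γ)
          (fun _ _ => Finset.Subset.refl _) k
        refine ⟨m, ?_⟩
        rw [if_neg hm]
        exact h
      ctb := by
        refine (q.ctb.union r.ctb).mono ?_
        rintro γ ⟨m, hm⟩
        split_ifs at hm
        · exact Or.inl ⟨m, hm⟩
        · exact Or.inr ⟨m, hm⟩ }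
  have hq'S : ∀ γ m, q'.S γ m = if (γ, m) ∈ F then q.S γ m else r.S γ m := fun _ _ => rfl
  have hq'q : q' ≤ q := by
    refine ⟨hr.1, fun γ m => ?_⟩
    rw [hq'S]
    split_ifs
    · exact Finset.Subset.refl _
    · exact hsub γ m
  refine ⟨q', hq'q, ?_, ?_⟩
  · intro e he
    rw [hq'S, if_pos he]
  · refine ⟨by rw [Cnd.fix_E]; show (r.E \ r.E).Finite; simp, fun γ m => ?_⟩
    rw [Cnd.fix_S]
    by_cases h : (γ, m) ∈ F
    · have h2 : t (γ, m) ∈ q'.S γ m := by
        rw [hq'S, if_pos h]
        exact ht _ h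
      rw [fixS_of_mem h h2, hfix γ m h]
    · rw [fixS_of_notMem h, hq'S, if_neg h]

/-- treating finitely many choices -/
theorem exists_step_finset (D : Set (Cnd J)) (hD : Down D) (p : Cnd J)
    (hd : ∀ p' ≤ p, ∃ q ≤ p', q ∈ D) (F : Finset (J × ℕ)) (T : Finset (J × ℕ → ℕ)) :
    ∃ q ≤ p, (∀ e ∈ F, q.S e.1 e.2 = p.S e.1 e.2) ∧
      ∀ t ∈ T, Picks p F t → q.fix F t ∈ D := by
  classical
  induction T using Finset.induction_on with
  | empty => exact ⟨p, le_rfl, fun _ _ => rfl, fun t ht => by simp at ht⟩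
  | insert t T _ ih =>
    obtain ⟨q, hqp, hqS, hq⟩ := ih
    by_cases ht : Picks p F t
    · have htq : Picks q F t := fun e he => by rw [hqS e he]; exact ht e he
      obtain ⟨r, hr, hrD⟩ := hd (q.fix F t) ((q.fix_le F t).trans hqp)
      obtain ⟨q', hq'q, hq'S, hq'⟩ := exists_glue q r F t htq hr
      refine ⟨q', hq'q.trans hqp, fun e he => (hq'S e he).trans (hqS e he), ?_⟩
      intro t' ht' hp'
      rcases Finset.mem_insert.1 ht' with rfl | h
      · exact hD _ hrD _ hq'
      · refine hD _ (hq t' h hp') _ (fix_mono hq'q (Finset.Subset.refl _) ?_)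
        intro e he
        rw [hq'S e he, hqS e he]
        exact hp' e he
    · refine ⟨q, hqp, hqS, fun t' ht' hp' => ?_⟩
      rcases Finset.mem_insert.1 ht' with rfl | h
      · exact absurd hp' ht
      · exact hq t' h hp'

theorem fix_congr (q : Cnd J) (F : Finset (J × ℕ)) (t t' : J × ℕ → ℕ)
    (h : ∀ e ∈ F, t e = t' e) : q.fix F t = q.fix F t' := by
  classical
  have hS : fixS q F t = fixS q F t' := by
    funext γ m
    unfold fixS
    by_cases hF : (γ, m) ∈ F
    · rw [h _ hF]
    · rw [if_neg (fun h' => hF h'.1), if_neg (fun h' => hF h'.1)]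
  exact Cnd.ext rfl hS

/-- one step of the fusion -/
theorem exists_step (D : Set (Cnd J)) (hD : Down D) (p : Cnd J)
    (hd : ∀ p' ≤ p, ∃ q ≤ p', q ∈ D) (F : Finset (J × ℕ)) :
    ∃ q ≤ p, (∀ e ∈ F, q.S e.1 e.2 = p.S e.1 e.2) ∧ ∀ t, Picks p F t → q.fix F t ∈ D := by
  classical
  let T : Finset (J × ℕ → ℕ) := (F.pi fun e => p.S e.1 e.2).image
    (fun f e => if h : e ∈ F then f e h else 0)
  obtain ⟨q, hqp, hqS, hq⟩ := exists_step_finset D hD p hd F T
  refine ⟨q, hqp, hqS, fun t ht => ?_⟩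
  have h1 : (fun e => if e ∈ F then t e else 0) ∈ T := by
    refine Finset.mem_image.2 ⟨fun e _ => t e, Finset.mem_pi.2 fun e he => ht e he, ?_⟩
    funext e
    by_cases h : e ∈ F
    · simp [h]
    · simp [h]
  have h2 := hq _ h1 (fun e he => by
    simp only [he, if_true]
    exact ht e he)
  rw [fix_congr q F t (fun e => if e ∈ F then t e else 0) (fun e he => by simp [he])]
  exact h2

/-- a decreasing sequence of finite sets is eventually constant -/
theorem exists_const (s : ℕ → Finset ℕ) (h : Antitone s) : ∃ K, ∀ k, K ≤ k → s k = s K := by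
  obtain ⟨K, hK⟩ : ∃ K, ∀ k, (s K).card ≤ (s k).card := by
    obtain ⟨K, hK⟩ := (wellFounded_lt (α := ℕ)).has_min (Set.range fun k => (s k).card)
      ⟨_, ⟨0, rfl⟩⟩
    obtain ⟨⟨K', rfl⟩, hmin⟩ := hK
    exact ⟨K', fun k => not_lt.1 (hmin _ ⟨k, rfl⟩)⟩
  exact ⟨K, fun k hk => Finset.eq_of_subset_of_card_le (h hk) (hK k)⟩

/-- an infinite pseudo-intersection -/
theorem exists_pseudo (E : ℕ → Set ℕ) (hinf : ∀ k, (E k).Infinite)
    (hdec : ∀ k, (E (k + 1) \ E k).Finite) :
    ∃ E' : Set ℕ, E'.Infinite ∧ ∀ k, (E' \ E k).Finite := by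
  have hdiff : ∀ k d, (E (k + d) \ E k).Finite := by
    intro k d
    induction d with
    | zero => simp
    | succ d ih =>
      refine (ih.union (hdec (k + d))).subset ?_
      rintro x ⟨hx, hx'⟩
      by_cases h : x ∈ E (k + d)
      · exact Or.inl ⟨h, hx'⟩
      · exact Or.inr ⟨hx, h⟩
  have hI : ∀ n, {x | ∀ j ≤ n, x ∈ E j}.Infinite := by
    intro n hfin
    have h1 : (⋃ j ∈ Finset.range (n + 1), (E n \ E j)).Finite := by
      refine Set.Finite.biUnion (Finset.finite_toSet _) fun j hj => ?_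
      have hj' : j < n + 1 := Finset.mem_range.1 hj
      have h2 := hdiff j (n - j)
      have h3 : j + (n - j) = n := by omega
      rw [h3] at h2
      exact h2
    refine hinf n ((hfin.union h1).subset ?_)
    intro x hx
    by_cases h : ∀ j ≤ n, x ∈ E j
    · exact Or.inl h
    · push Not at h
      obtain ⟨j, hj, hxj⟩ := h
      refine Or.inr (Set.mem_biUnion (x := j) ?_ ⟨hx, hxj⟩)
      exact Finset.mem_range.2 (by omega)
  obtain ⟨φ, hφ, hφ'⟩ := Filter.extraction_forall_of_frequently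
    (P := fun n x => ∀ j ≤ n, x ∈ E j) (fun n => by
      rw [Nat.frequently_atTop_iff_infinite]
      exact hI n)
  refine ⟨Set.range φ, Set.infinite_range_of_injective hφ.injective, fun k => ?_⟩
  refine ((Finset.range k).image φ).finite_toSet.subset ?_
  rintro x ⟨⟨n, rfl⟩, hx⟩
  refine Finset.mem_coe.2 (Finset.mem_image.2 ⟨n, Finset.mem_range.2 ?_, rfl⟩)
  by_contra h
  exact hx (hφ' n k (by omega))

/-- the data kept in the fusion -/
structure St (J : Type) where
  /-- the condition -/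
  p : Cnd J
  /-- the frozen pairs -/
  F : Finset (J × ℕ)
  /-- the history -/
  H : Set (Cnd J)
  hH : H.Finite

end Read

open Read in
/-- Reading names (paper 2.2). -/
theorem read : SRead := by
  classical
  intro J D p hD hdense
  -- enumeration of the supports
  have hι0 : ∀ q : Cnd J, ∃ f : J → ℕ, InjOn f q.supp := fun q =>
    Set.countable_iff_exists_injOn.1 q.ctb
  choose ι hι using hι0
  -- levels with many values
  have hm0 : ∀ (q : Cnd J) (γ : J) (k : ℕ), ∃ m, k ≤ (q.S γ m).card := fun q γ k => q.big γ k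
  choose mm hmm using hm0
  -- the step
  have hstep0 : ∀ (k : ℕ) (s : St J), ∃ s' : St J, s.p ≤ p →
      (s'.p ≤ s.p ∧ (∀ e ∈ s.F, s'.p.S e.1 e.2 = s.p.S e.1 e.2) ∧
        (∀ t, Picks s.p s.F t → s'.p.fix s.F t ∈ D k) ∧ s.F ⊆ s'.F ∧ s.H ⊆ s'.H ∧
        s'.p ∈ s'.H ∧ ∀ q ∈ s'.H, ∀ γ ∈ q.supp, ι q γ ≤ k →
          ∃ m, (γ, m) ∈ s'.F ∧ k ≤ (s'.p.S γ m).card) := by
    intro k s
    by_cases hs : s.p ≤ p
    · obtain ⟨q, hqp, hqS, hq⟩ := exists_step (D k) (hD k) s.p
        (fun p' hp' => hdense k p' (hp'.trans hs)) s.F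
      have hfin : {e : J × ℕ | ∃ r ∈ insert q s.H, ∃ γ ∈ r.supp, ι r γ ≤ k ∧
          e = (γ, mm q γ k)}.Finite := by
        have h1 : (⋃ r ∈ insert q s.H, (fun γ => (γ, mm q γ k)) ''
            {γ | γ ∈ r.supp ∧ ι r γ ≤ k}).Finite := by
          refine Set.Finite.biUnion (s.hH.insert q) fun r _ => ?_
          refine Set.Finite.image _ ?_
          refine Set.Finite.of_finite_image (f := ι r) ?_ ?_
          · refine (Set.finite_Iic k).subset ?_
            rintro _ ⟨γ, hγ, rfl⟩
            exact hγ.2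
          · exact (hι r).mono fun γ hγ => hγ.1
        refine h1.subset ?_
        rintro e ⟨r, hr, γ, hγ, hk, rfl⟩
        exact Set.mem_biUnion hr ⟨γ, ⟨hγ, hk⟩, rfl⟩
      refine ⟨⟨q, s.F ∪ hfin.toFinset, insert q s.H, s.hH.insert q⟩, fun _ =>
        ⟨hqp, hqS, hq, Finset.subset_union_left, Set.subset_insert _ _, Set.mem_insert _ _, ?_⟩⟩
      intro r hr γ hγ hk
      refine ⟨mm q γ k, Finset.mem_union_right _ (hfin.mem_toFinset.2 ⟨r, hr, γ, hγ, hk, rfl⟩), ?_⟩
      exact hmm q γ k
    · exact ⟨s, fun h => absurd h hs⟩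
  choose nx hnx using hstep0
  let st : ℕ → St J := fun k => Nat.rec ⟨p, ∅, ∅, Set.finite_empty⟩ (fun k s => nx k s) k
  have hst0 : (st 0).p = p := rfl
  have hst1 : ∀ k, st (k + 1) = nx k (st k) := fun k => rfl
  have hle : ∀ k, (st k).p ≤ p := by
    intro k
    induction k with
    | zero => exact le_rfl
    | succ k ih =>
      rw [hst1]
      exact (hnx k (st k) ih).1.trans ih
  have hs := fun k => hnx k (st k) (hle k)
  have hanti : ∀ j k, j ≤ k → (st k).p ≤ (st j).p := by
    intro j k h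
    induction k, h using Nat.le_induction with
    | base => exact le_rfl
    | succ k _ ih => exact (hs k).1.trans ih
  have hF : ∀ j k, j ≤ k → (st j).F ⊆ (st k).F := by
    intro j k h
    induction k, h using Nat.le_induction with
    | base => exact Finset.Subset.refl _
    | succ k _ ih => exact ih.trans (hs k).2.2.2.1
  have hH : ∀ j k, j ≤ k → (st j).H ⊆ (st k).H := by
    intro j k h
    induction k, h using Nat.le_induction with
    | base => exact subset_rfl
    | succ k _ ih => exact ih.trans (hs k).2.2.2.2.1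
  have hfr : ∀ j k, j ≤ k → ∀ e ∈ (st j).F, (st k).p.S e.1 e.2 = (st j).p.S e.1 e.2 := by
    intro j k h e he
    induction k, h using Nat.le_induction with
    | base => rfl
    | succ k hk ih => exact ((hs k).2.1 e (hF j k hk he)).trans ih
  -- the limit
  have hconst : ∀ γ m, ∃ K, ∀ k, K ≤ k → (st k).p.S γ m = (st K).p.S γ m := fun γ m =>
    exists_const (fun k => (st k).p.S γ m) (fun j k h => (hanti j k h).2 γ m)
  choose K hK using hconst
  have hlim : ∀ γ m k, (st (K γ m)).p.S γ m ⊆ (st k).p.S γ m := by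
    intro γ m k
    rcases le_total k (K γ m) with h | h
    · exact (hanti _ _ h).2 γ m
    · rw [hK γ m k h]
  have hlimF : ∀ γ m k, (γ, m) ∈ (st k).F → (st (K γ m)).p.S γ m = (st k).p.S γ m := by
    intro γ m k h
    have h1 := hfr k (max k (K γ m)) (le_max_left _ _) (γ, m) h
    have h2 := hK γ m (max k (K γ m)) (le_max_right _ _)
    exact h2.symm.trans h1
  obtain ⟨E', hE', hE''⟩ := exists_pseudo (fun k => (st k).p.E) (fun k => (st k).p.inf)
    (fun k => (hs k).1.1)
  have hbig : ∀ γ k, ∃ m, k ≤ ((st (K γ m)).p.S γ m).card := by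
    intro γ k
    by_cases h : ∃ j, γ ∈ (st j).p.supp
    · obtain ⟨j, hj⟩ := h
      -- `st (j+1)` has support containing that of `st j`
      have hsupp : γ ∈ (st (j + 1)).p.supp := by
        obtain ⟨m, hm⟩ := hj
        refine ⟨m, fun h' => hm ?_⟩
        refine Finset.Subset.antisymm ((st j).p.sub γ m) ?_
        rw [← h']
        exact (hs j).1.2 γ m
      have hmem : (st (j + 1)).p ∈ (st (j + 1)).H := (hs j).2.2.2.2.2.1
      set n := max (max j k) (ι (st (j + 1)).p γ) with hn
      have hjn : j + 1 ≤ n + 1 := by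
        have : j ≤ n := (le_max_left j k).trans (le_max_left _ _)
        omega
      have hkn : k ≤ n := (le_max_right j k).trans (le_max_left _ _)
      obtain ⟨m, hm1, hm2⟩ := (hs n).2.2.2.2.2.2 (st (j + 1)).p
        (hH (j + 1) (n + 1) hjn hmem) γ hsupp (le_max_right _ _)
      refine ⟨m, ?_⟩
      rw [hlimF γ m (n + 1) hm1]
      exact hkn.trans hm2
    · push Not at h
      refine ⟨k, ?_⟩
      have h1 : (st (K γ k)).p.S γ k = Finset.range (k + 1) := by
        by_contra h2
        exact h (K γ k) ⟨k, h2⟩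
      rw [h1, Finset.card_range]
      omega
  let q : Cnd J :=
    { E := E'
      S := fun γ m => (st (K γ m)).p.S γ m
      inf := hE'
      ne := fun γ m => (st (K γ m)).p.ne γ m
      sub := fun γ m => (st (K γ m)).p.sub γ m
      big := hbig
      ctb := by
        refine (Set.countable_iUnion fun k => (st k).p.ctb).mono ?_
        rintro γ ⟨m, hm⟩
        exact Set.mem_iUnion.2 ⟨K γ m, m, hm⟩ }
  have hqk : ∀ k, q ≤ (st k).p := fun k => ⟨hE'' k, fun γ m => hlim γ m k⟩
  refine ⟨q, hqk 0, fun n => (st n).F, fun n t ht => ?_⟩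
  have h1 : Picks (st n).p (st n).F t := ht.mono (hqk n) (Finset.Subset.refl _)
  have h2 := (hs n).2.2.1 t h1
  exact hD n _ h2 _ (fix_mono (hqk (n + 1)) (Finset.Subset.refl _) ht)

end Pool.Agent.H554V
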