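import Pool.Agent.H554V.FSt

/-!
# The generic ultrafilter base
-/

namespace Pool.Agent.H554V

open Pool.Agent.Helper669.Forcing Set
open Pool.Agent.H554 (JJ)

theorem down_uN {J : Type} (B : Set ℕ) : Down (uN (J := J) B) := by
  intro p hp q hq
  refine (hq.1.union hp).subset ?_
  rintro n ⟨hn, hB⟩
  by_cases h : n ∈ p.E
  · exact Or.inr ⟨h, hB⟩
  · exact Or.inl ⟨hn, h⟩

theorem infinite_JJ : Infinite JJ := by
  rw [Cardinal.infinite_iff, Cardinal.mk_ord_toType]
  exact Cardinal.aleph0_le_continuum.trans (Order.le_succ _)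

/-- a countable set of coordinates is contained in the range of an injective sequence -/
theorem exists_seq {J : Type} [Infinite J] (A : Set J) (hA : A.Countable) :
    ∃ α : ℕ → J, Function.Injective α ∧ A ⊆ range α := by
  let e : ℕ ↪ J := Infinite.natEmbedding J
  have hB : (A ∪ range e).Countable := hA.union (countable_range e)
  have hBi : (A ∪ range e).Infinite := (infinite_range_of_injective e.injective).mono
    subset_union_right
  have : Countable ↥(A ∪ range e) := hB.to_subtype
  have : Infinite ↥(A ∪ range e) := hBi.to_subtype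
  obtain ⟨d⟩ := nonempty_denumerable ↥(A ∪ range e)
  refine ⟨fun n => ((Denumerable.eqv ↥(A ∪ range e)).symm n : J), ?_, ?_⟩
  · exact Subtype.val_injective.comp (Equiv.injective _)
  · intro x hx
    exact ⟨Denumerable.eqv ↥(A ∪ range e) ⟨x, Or.inl hx⟩, by simp⟩

theorem big_levels {J : Type} (q : Cnd J) (α : ℕ → J) :
    Big lam0 (fun j => q.S (lev α j).1 (lev α j).2) := by
  refine ⟨fun j => q.ne _ _, fun v k => ?_⟩
  obtain ⟨m, hm⟩ := q.big (α v) k
  refine ⟨Nat.pair v m, by simp [lam0], ?_⟩
  simpa [lev] using hm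

theorem u_part : SRead → SCU → SLev → SFU := by
  intro hRead hCU hLev p
  refine ⟨?_, ?_, ?_⟩
  · intro B
    rw [mem_fimp]
    intro q _ hqm
    obtain ⟨r, hr, hrB⟩ := exists_of_meets (down_uN B) hqm
    refine ⟨r, hr, ?_⟩
    intro N
    have hrB' : (r.E \ B).Finite := hrB
    have hinf : (r.E ∩ B).Infinite := by
      intro hf
      apply r.inf
      refine (hf.union hrB').subset ?_
      intro n hn
      by_cases h : n ∈ B
      · exact Or.inl ⟨hn, h⟩
      · exact Or.inr ⟨hn, h⟩
    obtain ⟨n, hn, hN⟩ := hinf.exists_gt N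
    exact ⟨n, hN.le, hn.2⟩
  · intro B B'
    rw [mem_fimp]
    intro q _ hqm
    obtain ⟨r, hr, hrB⟩ := exists_of_meets (down_uN B) hqm.1
    obtain ⟨s, hs, hsB'⟩ := exists_of_meets (down_uN B') (down_meets _ _ hqm.2 _ hr)
    have hsB : s ∈ uN B := down_uN B _ hrB _ hs
    refine ⟨s, hs.trans hr, ?_⟩
    refine mem_fex_of_mem (i := B ∩ B') (down_fand (down_meets _) (down_fground _)) ?_
    refine ⟨meets_of_mem ?_, fun n hn => hn⟩
    have h1 : (s.E \ B).Finite := hsB
    have h2 : (s.E \ B').Finite := hsB'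
    show (s.E \ (B ∩ B')).Finite
    rw [sdiff_inter]
    exact h1.union h2
  · intro A
    rw [mem_fex]
    intro p' _
    obtain ⟨q, hq, F, hF⟩ := hRead JJ
      (fun n => {s | s ∈ meets (A n) ∨ s ∈ fnot (meets (A n))}) p'
      (by
        rintro n s (hs | hs) t ht
        · exact Or.inl (down_meets _ _ hs _ ht)
        · exact Or.inr (down_fnot _ _ hs _ ht))
      (by
        intro n s _
        by_cases h : ∃ t ≤ s, t ∈ meets (A n)
        · obtain ⟨t, ht, h⟩ := h
          exact ⟨t, ht, Or.inl h⟩
        · push Not at h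
          exact ⟨s, le_rfl, Or.inr h⟩)
    have := infinite_JJ
    obtain ⟨α, hα, hαF⟩ := exists_seq (⋃ n, Prod.fst '' ((F n : Finset (JJ × ℕ)) : Set (JJ × ℕ)))
      (countable_iUnion fun n => ((F n).finite_toSet.image _).countable)
    obtain ⟨l, C, hC, hL⟩ := hLev JJ q α hα F (fun n => meets (A n)) (fun n => fnot (meets (A n)))
      (fun n => down_meets _) (fun n => down_fnot _)
      (fun n e he => hαF (mem_iUnion.2 ⟨n, e, he, rfl⟩)) hF
    obtain ⟨E', S', ε, hE'E, hE', hS', hB', hCε⟩ := hCU lam0
      (fun j => q.S (lev α j).1 (lev α j).2) q.E C l (big_levels q α) q.inf hC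
    have hfin : (E' \ q.E).Finite := by
      rw [sdiff_eq_empty.2 hE'E]
      exact finite_empty
    refine ⟨q.upd α hα E' S' hE' hS' hB', (Cnd.upd_le hfin).trans hq, E', ?_, ?_⟩
    · refine meets_of_mem ?_
      show (E' \ E').Finite
      simp
    · refine mem_fex_of_mem (i := ε) (down_fall fun _ => down_fimp _ _) ?_
      intro n
      rw [mem_fimp]
      intro r hr hn
      have hn' : n ∈ E' := hn
      have h := hL E' S' hE' hS' hB' hfin n
      cases ε with
      | true =>
        obtain ⟨s, hs, hsA⟩ := h.1 (fun x hx => hCε n hn' x hx) r hr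
        refine ⟨s, hs, ?_, ?_⟩
        · rw [mem_fimp]
          intro t _ _
          exact ⟨t, le_rfl, rfl⟩
        · rw [mem_fimp]
          intro t ht _
          exact ⟨t, le_rfl, down_meets _ _ hsA _ ht⟩
      | false =>
        obtain ⟨s, hs, hsA⟩ := h.2 (fun x hx => hCε n hn' x hx) r hr
        refine ⟨s, hs, ?_, ?_⟩
        · rw [mem_fimp]
          intro t ht htA
          exact absurd htA (hsA t ht)
        · rw [mem_fimp]
          intro t _ hf
          exact absurd (show (false = true) from hf) (by simp)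

end Pool.Agent.H554V
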