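import Pool.Agent.H554V.CU
import Pool.Agent.H554V.CM
import Pool.Agent.H554V.Read
import Pool.Agent.H554V.Lev
import Pool.Agent.H554V.Count
import Pool.Agent.H554V.UPart
import Pool.Agent.H554V.MainP

/-!
# Assembly of the forcing part
-/

namespace Pool.Agent.H554V

theorem main_forced : MainForced :=
  mainForced_of (u_part read cu proof_SLev) (main_part read (cm cu) proof_SLev close)
    ⟨topC _ Set.univ Set.infinite_univ⟩

end Pool.Agent.H554V
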