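import Pool.Agent.H554V.Stmts2
import Pool.Agent.H554V.MainP
import Pool.Agent.H554V.Lev

/-!
# The main clause of the second form is forced
-/

namespace Pool.Agent.H554V

open Pool.Agent.Helper669.Forcing Set
open Pool.Agent.H554 (JJ)

/-- from reading to continuous functions on the levels, pointwise -/
theorem lev_pt {J : Type} (q : Cnd J) (α : ℕ → J) (hα : Function.Injective α)
    (F : ℕ → Finset (J × ℕ)) (c c' : ℕ → Set (Cnd J)) (hc : ∀ n, Down (c n))
    (hc' : ∀ n, Down (c' n)) (hF : ∀ n, ∀ e ∈ F n, e.1 ∈ range α)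
    (hcc : ∀ n t, Picks q (F n) t → q.fix (F n) t ∈ c n ∨ q.fix (F n) t ∈ c' n) :
    ∃ (l : ℕ → ℕ) (C : ℕ → (ℕ → ℕ) → Bool), (∀ n x y, (∀ j < l n, x j = y j) → C n x = C n y) ∧
      ∀ r ≤ q, ∀ t, (∀ G, Picks r G t) → ∀ n,
        (C n (ofT α t) = true → r.fix (F n) t ∈ c n) ∧
        (C n (ofT α t) = false → r.fix (F n) t ∈ c' n) := by
  classical
  have hj : ∀ e : J × ℕ, ∃ j, e.1 ∈ range α → lev α j = e := by
    intro e
    by_cases h : e.1 ∈ range α
    · obtain ⟨j, hj⟩ := exists_lev h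
      exact ⟨j, fun _ => hj⟩
    · exact ⟨0, fun h' => absurd h' h⟩
  choose ix hix using hj
  refine ⟨fun n => ((F n).sup ix) + 1, fun n x => decide (q.fix (F n) (toT α x) ∈ c n), ?_, ?_⟩
  · intro n x y hxy
    have h : ∀ e ∈ F n, toT α x e = toT α y e := by
      intro e he
      have h1 := hix e (hF n e he)
      rw [← h1, toT_lev hα, toT_lev hα]
      exact hxy _ (Nat.lt_succ_of_le (Finset.le_sup (f := ix) he))
    simp only [Cnd.fix_congr q (F n) h]
  · intro r hr t ht n
    have heq : ∀ e ∈ F n, t e = toT α (ofT α t) e := by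
      intro e he
      have h1 := hix e (hF n e he)
      have h2 : toT α (ofT α t) (lev α (ix e)) = ofT α t (ix e) := toT_lev hα _ _
      unfold ofT at h2
      rw [h1] at h2
      exact h2.symm
    have h1 : q.fix (F n) (toT α (ofT α t)) = q.fix (F n) t := (Cnd.fix_congr q (F n) heq).symm
    have h2 : r.fix (F n) t ≤ q.fix (F n) t := fix_mono hr (Finset.Subset.refl _) (ht (F n))
    have h3 : Picks q (F n) t := (ht (F n)).mono hr (Finset.Subset.refl _)
    constructor
    · intro h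
      have h4 := of_decide_eq_true h
      rw [h1] at h4
      exact hc n _ h4 _ h2
    · intro h
      have h4 := of_decide_eq_false h
      rw [h1] at h4
      rcases hcc n t h3 with h5 | h5
      · exact absurd h5 h4
      · exact hc' n _ h5 _ h2

theorem down_FSub {P K : Type} [Preorder P] (Z : K → ℕ → ℕ → Set P) (y : ℕ → ℕ → Set P) (a : K)
    (n : ℕ) : Down (FSub Z y a n) := down_fall fun _ => down_fimp _ _

/-- the core, second form -/
theorem core2 (hR : SRead) (hCM : SCM2) (Z : (List ℕ → ℕ) → ℕ → ℕ → Set (Cnd JJ))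
    (G : Cnd JJ → (List ℕ → ℕ) → Cnd JJ) (Fw : Cnd JJ → (List ℕ → ℕ) → ℕ → Finset (JJ × ℕ))
    (hG : ∀ r a, G r a ≤ r)
    (hFw : ∀ r a i t, Picks (G r a) (Fw r a i) t →
      (G r a).fix (Fw r a i) t ∈ meets (Z a i.unpair.1 i.unpair.2) ∨
        (G r a).fix (Fw r a i) t ∈ fnot (meets (Z a i.unpair.1 i.unpair.2)))
    (β : JJ) (hβ : ∀ r a, r.supp ⊆ Iio β → (G r a).supp ⊆ Iio β)
    (y : ℕ → ℕ → Set (Cnd JJ)) (p2 : Cnd JJ) :
    ∃ s ≤ p2, ∃ a : List ℕ → ℕ,
      s ∈ FPhiI2 (fun i : Set ℕ => i) (fun a : List ℕ → ℕ => a) uN Z (gN β) y a ∨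
      s ∈ FPhiII2 (fun i : Set ℕ => i) (fun a : List ℕ → ℕ => a) uN Z (gN β) y a := by
  classical
  -- reading y
  obtain ⟨p, hp, Fy, hFy⟩ := hR JJ (fun i => {s | s ∈ meets (y i.unpair.1 i.unpair.2) ∨
      s ∈ fnot (meets (y i.unpair.1 i.unpair.2))}) p2
    (fun i s hs u hu => hs.elim (fun h => Or.inl (down_meets _ _ h _ hu))
      fun h => Or.inr (down_fnot _ _ h _ hu))
    (fun i p' _ => dec_dense _ p')
  -- the function a
  obtain ⟨mm, hmm, hcard⟩ := exists_levelsP p β
  choose b hb using fun i => exists_split (p.S β (mm i)) i (hcard i)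
  obtain ⟨io, hio1, hio2⟩ := exists_iof mm hmm
  let a : List ℕ → ℕ := fun s => b (io s.length) (s.getD (mm (io s.length)) 0)
  -- reading Z a
  let q := G (resC β p) a
  have hq : q ≤ resC β p := hG _ _
  have hqs : q.supp ⊆ Iio β := hβ _ _ (resC_supp β p)
  let q' := glue β q p
  have hq'q : q' ≤ q := glue_le_left hqs
  have hq'p : q' ≤ p := glue_le_right hq
  let F : ℕ → Finset (JJ × ℕ) := fun i => Fy i ∪ Fw (resC β p) a i
  let c : ℕ → Set (Cnd JJ) := fun i =>
    fand (meets (y i.unpair.1 i.unpair.2)) (fnot (meets (Z a i.unpair.1 i.unpair.2)))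
  let c' : ℕ → Set (Cnd JJ) := fun i =>
    fimp (meets (y i.unpair.1 i.unpair.2)) (meets (Z a i.unpair.1 i.unpair.2))
  have hcd : ∀ i, Down (c i) := fun i => down_fand (down_meets _) (down_fnot _)
  have hcd' : ∀ i, Down (c' i) := fun i => down_fimp _ _
  have hread : ∀ i t, Picks q' (F i) t → q'.fix (F i) t ∈ c i ∨ q'.fix (F i) t ∈ c' i := by
    intro i t ht
    have h1 := hFy i t (ht.mono hq'p Finset.subset_union_left)
    have h2 : q'.fix (F i) t ≤ p.fix (Fy i) t := fix_mono hq'p Finset.subset_union_left ht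
    have h3 : q'.fix (F i) t ≤ q.fix (Fw (resC β p) a i) t :=
      fix_mono hq'q Finset.subset_union_right ht
    have h4 := hFw (resC β p) a i t (ht.mono hq'q Finset.subset_union_right)
    rcases h1 with h1 | h1
    · rcases h4 with h4 | h4
      · right
        refine mem_fimp.2 fun r hr _ => ⟨r, le_rfl, ?_⟩
        exact down_meets _ _ (down_meets _ _ h4 _ h3) _ hr
      · exact Or.inl ⟨down_meets _ _ h1 _ h2, down_fnot _ _ h4 _ h3⟩
    · right
      refine mem_fimp.2 fun r hr hr' => absurd hr' ?_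
      exact (down_fnot _ _ h1 _ h2) r hr
  -- levels
  have := infinite_JJP
  obtain ⟨α, hα, hαA⟩ := exists_enum ({β} ∪ ⋃ n, Prod.fst '' (F n : Set (JJ × ℕ)))
    ((countable_singleton β).union (countable_iUnion fun n =>
      ((F n).finite_toSet.image Prod.fst).countable))
  obtain ⟨v0, hv0⟩ : ∃ v, α v = β := hαA (Or.inl rfl)
  obtain ⟨l, C, hC, hpt⟩ := lev_pt q' α hα F c c' hcd hcd'
    (fun n e he => hαA (Or.inr (mem_iUnion.2 ⟨n, ⟨e, he, rfl⟩⟩))) hread
  let S : ℕ → Finset ℕ := fun j => q'.S (lev α j).1 (lev α j).2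
  have hS : Big lam0 S := by
    refine ⟨fun j => q'.ne _ _, fun v k => ?_⟩
    obtain ⟨m, hm⟩ := q'.big (α v) k
    refine ⟨Nat.pair v m, by simp [lam0], ?_⟩
    show k ≤ (q'.S (lev α (Nat.pair v m)).1 (lev α (Nat.pair v m)).2).card
    simpa [lev] using hm
  let Jl : ℕ → ℕ := fun i => Nat.pair v0 (mm i)
  have hJ : ∀ i, lev α (Jl i) = (β, mm i) := by
    intro i
    simp only [lev, Jl, Nat.unpair_pair, hv0]
  have hE : {n | n ∈ q'.E ∧ mm 0 < n}.Infinite := by
    have h1 : (q'.E \ {n | n ≤ mm 0}).Infinite := q'.inf.sdiff (finite_le_nat _)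
    refine h1.mono ?_
    rintro n ⟨hn, hn'⟩
    exact ⟨hn, by simpa using hn'⟩
  obtain ⟨E', S', hE'1, hE'2, hS'1, hS'2, halt⟩ := hCM S {n | n ∈ q'.E ∧ mm 0 < n}
    (fun n x => ∃ j, C (Nat.pair n j) x = true) Jl b io
    hS (fun j => q'.sub _ _) hE
    (fun n x ⟨j, hj⟩ => ⟨l (Nat.pair n j), fun y hxy => ⟨j, by rw [← hC (Nat.pair n j) x y hxy, hj]⟩⟩)
    (fun i j hij => Nat.pair_lt_pair_right v0 (hmm hij))
    (fun k => by simp [lam0, Jl])
    (fun i k hk => by
      have h1 : S (Jl i) = p.S β (mm i) := by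
        show q'.S (lev α (Jl i)).1 (lev α (Jl i)).2 = _
        rw [hJ]
        exact glue_S_self _
      rw [h1]
      exact hb i k hk) hio2
  let s := q'.upd α hα E' S' hE'2 hS'1 hS'2
  have hEs : (E' \ q'.E).Finite := by
    have : E' \ q'.E = ∅ := by
      ext n
      simp only [mem_sdiff, mem_empty_iff_false, iff_false, not_and, not_not]
      exact fun hn => (hE'1 hn).1
    rw [this]
    exact finite_empty
  have hs : s ≤ q' := Cnd.upd_le hEs
  have hsE : s.E = E' := rfl
  have hbox : ∀ t : JJ × ℕ → ℕ, (∀ F, Picks s F t) → InBox S' (ofT α t) := by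
    intro t ht j
    have h1 := ht {lev α j} (lev α j) (Finset.mem_singleton_self _)
    have h2 : s.S (lev α j).1 (lev α j).2 = S' j := subS_lev hα S' j
    rw [h2] at h1
    exact h1
  have haval : ∀ n ∈ E', ∀ t : JJ × ℕ → ℕ, a ((List.range n).map fun j => t (β, j)) =
      b (io n) (ofT α t (Jl (io n))) := by
    intro n hn t
    have h1 := hio1 n (hE'1 hn).2
    show b (io ((List.range n).map fun j => t (β, j)).length)
      (((List.range n).map fun j => t (β, j)).getD
        (mm (io ((List.range n).map fun j => t (β, j)).length)) 0) = _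
    have h2 : ((List.range n).map fun j => t (β, j)).length = n := by simp
    rw [h2, List.getD_eq_getElem _ _ (by rw [h2]; exact h1)]
    simp only [List.getElem_map, List.getElem_range, ofT, hJ]
  refine ⟨s, hs.trans (hq'p.trans hp), a, ?_⟩
  rcases halt with ⟨k, hk⟩ | ⟨h1, h2⟩
  · left
    refine mem_fex_of_mem (i := k) (down_fex _) ?_
    refine mem_fex_of_mem (i := E') (down_fand (down_meets _) (down_fall fun _ => down_fimp _ _)) ?_
    refine ⟨uN_self (by rw [hsE]; simp), fun n => ?_⟩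
    refine mem_fimp.2 fun r hr hn => ⟨r, le_rfl, ?_⟩
    have hn' : n ∈ E' := hn
    refine down_fand (down_fex _) (down_FSub _ _ _ _) s ⟨?_, ?_⟩ r hr
    · refine mem_FAt (fun a : List ℕ → ℕ => a) a (fun v => v = k) β n fun t ht => ?_
      show a _ = k
      rw [haval n hn' t]
      exact (hk n hn' _ (hbox t ht)).1
    · intro j
      refine reg_fimp (down_meets _) fun r hr => ?_
      obtain ⟨t, ht⟩ := exists_picks r
      have h3 := (hpt r (hr.trans hs) t ht (Nat.pair n j)).2
        (by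
          have h4 := (hk n hn' _ (hbox t fun F => (ht F).mono hr (Finset.Subset.refl _))).2
          push Not at h4
          exact Bool.eq_false_iff.2 (h4 j))
      refine ⟨r.fix (F (Nat.pair n j)) t, r.fix_le _ _, ?_⟩
      simpa only [c', Nat.unpair_pair] using h3
  · right
    refine ⟨fun k => ?_, ?_⟩
    · obtain ⟨N, hN⟩ := h2 k
      refine mem_fex_of_mem (i := {n | n ∈ E' ∧ N ≤ n})
        (down_fand (down_meets _) (down_fall fun _ => down_fimp _ _)) ?_
      refine ⟨uN_self ?_, fun n => ?_⟩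
      · rw [hsE]
        refine (finite_lt_nat N).subset ?_
        rintro n ⟨hn, hn'⟩
        by_contra h
        exact hn' ⟨hn, not_lt.1 h⟩
      · refine mem_fimp.2 fun r hr hn => ⟨r, le_rfl, ?_⟩
        have hn' : n ∈ E' ∧ N ≤ n := hn
        refine down_fex _ s ?_ r hr
        refine mem_FAt (fun a : List ℕ → ℕ => a) a (fun v => k ≤ v) β n fun t ht => ?_
        show k ≤ a _
        rw [haval n hn'.1 t]
        exact hN n hn'.1 hn'.2 _ (hbox t ht)
    · refine mem_fex_of_mem (i := E') (down_fand (down_meets _) (down_fall fun _ => down_fimp _ _)) ?_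
      refine ⟨uN_self (by rw [hsE]; simp), fun n => ?_⟩
      refine mem_fimp.2 fun r hr hn => ⟨r, le_rfl, ?_⟩
      have hn' : n ∈ E' := hn
      refine mem_fex.2 fun r' hr' => ?_
      have hr's : r' ≤ s := hr'.trans hr
      obtain ⟨t, ht⟩ := exists_picks r'
      obtain ⟨j, hj⟩ := h1 n hn' _ (hbox t fun F => (ht F).mono hr's (Finset.Subset.refl _))
      have h3 := (hpt r' (hr's.trans hs) t ht (Nat.pair n j)).1 hj
      refine ⟨r'.fix (F (Nat.pair n j)) t, r'.fix_le _ _, j, ?_⟩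
      simpa only [c, Nat.unpair_pair] using h3

theorem main_part2 (hR : SRead) (hCM : SCM2) (hC : SClose) : SMain2 := by
  classical
  intro p Z
  refine mem_fex.2 fun p1 _ => ⟨p1, le_rfl, ?_⟩
  have hread : ∀ (r : Cnd JJ) (a : List ℕ → ℕ), ∃ q ≤ r, ∃ F : ℕ → Finset (JJ × ℕ), ∀ i t,
      Picks q (F i) t → q.fix (F i) t ∈ meets (Z a i.unpair.1 i.unpair.2) ∨
        q.fix (F i) t ∈ fnot (meets (Z a i.unpair.1 i.unpair.2)) := by
    intro r a
    exact hR JJ (fun i => {q | q ∈ meets (Z a i.unpair.1 i.unpair.2) ∨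
        q ∈ fnot (meets (Z a i.unpair.1 i.unpair.2))}) r
      (fun i s hs u hu => hs.elim (fun h => Or.inl (down_meets _ _ h _ hu))
        fun h => Or.inr (down_fnot _ _ h _ hu))
      (fun i p' _ => dec_dense _ p')
  choose G hG Fw hFw using hread
  obtain ⟨β, -, hβ⟩ := hC G p1
  refine ⟨gN β, ⟨isFun_gN β p1, fun m k => gN_le β p1 m k⟩, fun y => ?_⟩
  refine mem_fex.2 fun p2 _ => ?_
  obtain ⟨s, hs, a, h⟩ := core2 hR hCM Z G Fw hG hFw β hβ y p2
  refine ⟨s, hs, a, ?_⟩
  rcases h with h | h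
  · exact mem_forr_left (down_fex _) h
  · exact mem_forr_right (down_fand (down_fall fun _ => down_fex _) (down_fex _)) h

end Pool.Agent.H554V
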