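import Pool.Agent.H554V.Final
import Pool.Agent.H554V.CU2
import Pool.Agent.H554V.CM2
import Pool.Agent.H554V.MainP2

/-!
# Assembly of the forcing part, second form
-/

namespace Pool.Agent.H554V

theorem main_forced2 : MainForced2 :=
  mainForced2_of (u_part read cu proof_SLev) (main_part2 read (cm2 (cu2 read cu)) close)
    ⟨topC _ Set.univ Set.infinite_univ⟩

end Pool.Agent.H554V
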