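import Pool.Agent.H554V.Stmts2

/-!
# The ultrapower of `P(ω)` does not contain all partial orders of the size of the continuum
-/

namespace Pool.Agent.H554V

open Set Filter

/-- the ultrafilter generated by `u` -/
theorem exists_ultrafilter {R : Type} {B : R → Set ℕ} {u : Set R} (h : PhiU B u) :
    ∃ U : Ultrafilter ℕ, (∀ n, {n} ∉ U) ∧ ∀ i ∈ u, B i ∈ U := by
  classical
  obtain ⟨h1, h2, h3⟩ := h
  obtain ⟨i0, hi0, -⟩ := h3 ∅
  let F : Filter ℕ :=
    { sets := {A | ∃ i ∈ u, B i ⊆ A}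
      univ_sets := ⟨i0, hi0, subset_univ _⟩
      sets_of_superset := fun ⟨i, hi, h⟩ hs => ⟨i, hi, h.trans hs⟩
      inter_sets := by
        rintro s t ⟨i, hi, his⟩ ⟨j, hj, hjt⟩
        obtain ⟨k, hk, hkk⟩ := h2 i hi j hj
        exact ⟨k, hk, fun n hn => ⟨his (hkk n hn).1, hjt (hkk n hn).2⟩⟩ }
  have hF : F.NeBot := by
    refine ⟨fun hbot => ?_⟩
    have : (∅ : Set ℕ) ∈ F := by rw [hbot]; exact mem_bot
    obtain ⟨i, hi, hie⟩ := this
    obtain ⟨n, -, hn⟩ := h1 i hi 0
    exact hie hn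
  refine ⟨Ultrafilter.of F, fun n hn => ?_, fun i hi => Ultrafilter.of_le F ⟨i, hi, subset_rfl⟩⟩
  obtain ⟨i, hi, v, hv⟩ := h3 {n}
  have h4 : B i ∈ Ultrafilter.of F := Ultrafilter.of_le F ⟨i, hi, subset_rfl⟩
  cases v with
  | false =>
    have h5 : B i ⊆ {n}ᶜ := fun m hm hmn => by simpa using (hv m hm).1 hmn
    have h6 := Filter.mem_of_superset h4 h5
    exact Ultrafilter.compl_notMem_iff.2 hn h6
  | true =>
    obtain ⟨m, hm, hm'⟩ := h1 i hi (n + 1)
    have : m ∈ ({n} : Set ℕ) := (hv m hm').2 rfl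
    rw [mem_singleton_iff] at this
    omega

/-- the underlying set of the partial order -/
inductive XX : Type where
  | fn (g : ℕ → ℕ) : XX
  | tr (a : List ℕ → ℕ) : XX

/-- the order relation -/
def XX.Le (U : Ultrafilter ℕ) : XX → XX → Prop
  | .fn g, .fn g' => g = g'
  | .tr a, .tr a' => a = a'
  | .fn g, .tr a => ∀ k : ℕ, ∀ᶠ n in (U : Filter ℕ), k ≤ a (firstVals g n)
  | .tr _, .fn _ => False

/-- the partial order -/
@[instance_reducible] def XX.po (U : Ultrafilter ℕ) : PartialOrder XX where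
  le := XX.Le U
  le_refl x := by cases x <;> exact rfl
  le_trans x y z hxy hyz := by
    cases x <;> cases y <;> cases z <;> simp only [XX.Le] at * <;>
      first
        | (subst hxy; exact hyz)
        | (subst hyz; exact hxy)
  le_antisymm x y hxy hyx := by
    cases x <;> cases y <;> simp only [XX.Le] at * <;>
      (subst hxy; rfl)

theorem mk_XX : Cardinal.mk XX = Cardinal.continuum := by
  have e : XX ≃ (ℕ → ℕ) ⊕ (List ℕ → ℕ) :=
    { toFun := fun x => match x with
        | .fn g => Sum.inl g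
        | .tr a => Sum.inr a
      invFun := fun x => match x with
        | Sum.inl g => .fn g
        | Sum.inr a => .tr a
      left_inv := fun x => by cases x <;> rfl
      right_inv := fun x => by cases x <;> rfl }
  rw [Cardinal.mk_congr e]
  simp

theorem main_poset : MainPoset := by
  classical
  intro R K B ev ⟨u, hu, h⟩
  obtain ⟨U, hU, hB⟩ := exists_ultrafilter hu
  refine ⟨U, XX, XX.po U, hU, mk_XX, ?_⟩
  rintro ⟨f, hf⟩
  have hrep : ∀ x, ∃ A : ℕ → Set ℕ, f x = (A : Filter.Germ (U : Filter ℕ) (Set ℕ)) := by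
    intro x
    induction f x using Filter.Germ.inductionOn with
    | _ A => exact ⟨A, rfl⟩
  choose A hA using hrep
  have hle : ∀ x y, XX.Le U x y ↔ ∀ᶠ n in (U : Filter ℕ), A x n ⊆ A y n := by
    intro x y
    rw [show XX.Le U x y ↔ (XX.po U).le x y from Iff.rfl, hf x y, hA x, hA y]
    exact Filter.Germ.coe_le
  obtain ⟨g, -, hg⟩ := h fun a n => A (.tr (ev a)) n
  obtain ⟨a, ha⟩ := hg (A (.fn g))
  rcases ha with ⟨k, i, hi, h1⟩ | ⟨h1, i, hi, h2⟩
  · have h3 : XX.Le U (.fn g) (.tr (ev a)) := by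
      rw [hle]
      filter_upwards [hB i hi] with n hn
      exact fun j hj => (h1 n hn).2 j hj
    have h4 := h3 (k + 1)
    have h5 : ∀ᶠ n in (U : Filter ℕ), False := by
      filter_upwards [h4, hB i hi] with n hn hn'
      have := (h1 n hn').1
      omega
    exact h5.exists.elim fun _ h => h
  · have h3 : XX.Le U (.fn g) (.tr (ev a)) := by
      intro k
      obtain ⟨i', hi', h4⟩ := h1 k
      filter_upwards [hB i' hi'] with n hn
      exact h4 n hn
    rw [hle] at h3
    have h5 : ∀ᶠ n in (U : Filter ℕ), False := by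
      filter_upwards [h3, hB i hi] with n hn hn'
      obtain ⟨j, hj, hj'⟩ := h2 n hn'
      exact hj' (hn hj)
    exact h5.exists.elim fun _ h => h

end Pool.Agent.H554V
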