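import Mathlib
import Pool.Agent.Helper669.Forcing

/-!
# The forcing notion, the combinatorial hypothesis, statements of the modules
-/

namespace Pool.Agent.H554V

open Pool.Agent.Helper669.Forcing Set

/-! ### The combinatorial hypothesis -/

/-- The list of the first `n` values of `g`. -/
def firstVals (g : ℕ → ℕ) (n : ℕ) : List ℕ := (List.range n).map g

section

variable {R K : Type} (B : R → Set ℕ) (ev : K → List ℕ → ℕ)

/-- The family of all `B i` with `i` in `u` is a base of a free ultrafilter. -/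
def PhiU (u : Set R) : Prop :=
  (∀ i ∈ u, ∀ N : ℕ, ∃ n, N ≤ n ∧ n ∈ B i) ∧
  (∀ i ∈ u, ∀ j ∈ u, ∃ k ∈ u, ∀ n ∈ B k, n ∈ B i ∧ n ∈ B j) ∧
  (∀ A : Set ℕ, ∃ i ∈ u, ∃ v : Bool, ∀ n ∈ B i, (n ∈ A ↔ v = true))

/-- First alternative of the main clause. -/
def PhiI (u : Set R) (W : K → ℕ → ℕ → Prop) (g y : ℕ → ℕ) (a : K) : Prop :=
  ∃ k : ℕ, ∃ i ∈ u, ∀ n ∈ B i, ev a (firstVals g n) = k ∧ ¬ W a n (y n)

/-- Second alternative of the main clause. -/
def PhiII (u : Set R) (W : K → ℕ → ℕ → Prop) (g y : ℕ → ℕ) (a : K) : Prop :=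
  (∀ k : ℕ, ∃ i ∈ u, ∀ n ∈ B i, k ≤ ev a (firstVals g n)) ∧
    ∃ i ∈ u, ∀ n ∈ B i, W a n (y n)

/-- The combinatorial hypothesis. `R` with `B : R → Set ℕ` is a set of sets of natural numbers, `K`
with `ev` is a set of functions on finite sequences. -/
def Phi : Prop :=
  ∃ u : Set R, PhiU B u ∧ ∀ W : K → ℕ → ℕ → Prop, ∃ g : ℕ → ℕ, (∀ m, g m ≤ m) ∧
    ∀ y : ℕ → ℕ, ∃ a : K, PhiI B ev u W g y a ∨ PhiII B ev u W g y a

end

/-! ### The hypothesis in the extension by a set `P` of conditions -/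

section

variable {P : Type} [Preorder P]

/-- `φ or ψ` -/
def forr (φ ψ : Set P) : Set P := fnot (fand (fnot φ) (fnot ψ))

/-- `φ iff ψ` -/
def fiff (φ ψ : Set P) : Set P := fand (fimp φ ψ) (fimp ψ φ)

variable {R K : Type} (B : R → Set ℕ) (ev : K → List ℕ → ℕ)

/-- `PhiU` in the extension; `u` is a name for a subset of `R`. -/
def FPhiU (u : R → Set P) : Set P :=
  fand (fall fun i => fimp (meets (u i)) (fground (∀ N : ℕ, ∃ n, N ≤ n ∧ n ∈ B i)))
  (fand (fall fun i => fall fun j => fimp (fand (meets (u i)) (meets (u j)))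
      (fex fun k => fand (meets (u k)) (fground (∀ n ∈ B k, n ∈ B i ∧ n ∈ B j))))
    (fall fun A : ℕ → Set P => fex fun i => fand (meets (u i)) (fex fun v : Bool =>
      fall fun n : ℕ => fimp (fground (n ∈ B i)) (fiff (meets (A n)) (fground (v = true))))))

/-- The function `a` satisfies `Q` at the sequence of the first `n` values of the named function
`g`. -/
def FAt (Q : ℕ → Prop) (a : K) (g : ℕ → ℕ → Set P) (n : ℕ) : Set P :=
  fex fun s : List ℕ => fand (fground (s.length = n ∧ Q (ev a s))) (InitSeg s g)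

/-- `W a n (y n)` in the extension. -/
def FIn (W : K → ℕ → ℕ → Set P) (y : ℕ → ℕ → Set P) (a : K) (n : ℕ) : Set P :=
  fall fun m : ℕ => fimp (meets (y n m)) (meets (W a n m))

/-- `not W a n (y n)` in the extension. -/
def FNotIn (W : K → ℕ → ℕ → Set P) (y : ℕ → ℕ → Set P) (a : K) (n : ℕ) : Set P :=
  fall fun m : ℕ => fimp (meets (y n m)) (fnot (meets (W a n m)))

/-- `PhiI` in the extension. -/
def FPhiI (u : R → Set P) (W : K → ℕ → ℕ → Set P) (g y : ℕ → ℕ → Set P) (a : K) : Set P :=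
  fex fun k : ℕ => fex fun i : R => fand (meets (u i)) (fall fun n : ℕ =>
    fimp (fground (n ∈ B i)) (fand (FAt ev (fun v => v = k) a g n) (FNotIn W y a n)))

/-- `PhiII` in the extension. -/
def FPhiII (u : R → Set P) (W : K → ℕ → ℕ → Set P) (g y : ℕ → ℕ → Set P) (a : K) : Set P :=
  fand (fall fun k : ℕ => fex fun i : R => fand (meets (u i)) (fall fun n : ℕ =>
      fimp (fground (n ∈ B i)) (FAt ev (fun v => k ≤ v) a g n)))
    (fex fun i : R => fand (meets (u i)) (fall fun n : ℕ =>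
      fimp (fground (n ∈ B i)) (FIn W y a n)))

/-- The main clause in the extension. -/
def FPhiMain (u : R → Set P) : Set P :=
  fall fun W : K → ℕ → ℕ → Set P => fex fun g : ℕ → ℕ → Set P =>
    fand (fand (IsFun g) (fall fun m : ℕ => fall fun k : ℕ =>
      fimp (meets (g m k)) (fground (k ≤ m))))
    (fall fun y : ℕ → ℕ → Set P => fimp (IsFun y) (fex fun a : K =>
      forr (FPhiI B ev u W g y a) (FPhiII B ev u W g y a)))

/-- The hypothesis in the extension. -/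
def ForcedPhi (P : Type) [Preorder P] {R K : Type} (B : R → Set ℕ) (ev : K → List ℕ → ℕ) : Set P :=
  fex fun u : R → Set P => fand (FPhiU B u) (FPhiMain B ev u)

end

/-- Some forcing notion forces the hypothesis. -/
def MainForced : Prop :=
  ∃ (R K : Type) (B : R → Set ℕ) (ev : K → List ℕ → ℕ) (P : Type) (_ : Preorder P),
    Nonempty P ∧ ∀ p : P, p ∈ ForcedPhi P B ev

/-! ### Combinatorics of boxes -/

/-- `x` is in the box `S`. -/
def InBox (S : ℕ → Finset ℕ) (x : ℕ → ℕ) : Prop := ∀ j, x j ∈ S j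

/-- big boxes -/
def Big (lam : ℕ → ℕ) (S : ℕ → Finset ℕ) : Prop :=
  (∀ j, (S j).Nonempty) ∧ ∀ v k, ∃ j, lam j = v ∧ k ≤ (S j).card

/-- paper 2.3 -/
def SCU : Prop := ∀ (lam : ℕ → ℕ) (S : ℕ → Finset ℕ) (E : Set ℕ) (C : ℕ → (ℕ → ℕ) → Bool)
  (l : ℕ → ℕ), Big lam S → E.Infinite → (∀ n x y, (∀ j < l n, x j = y j) → C n x = C n y) →
  ∃ (E' : Set ℕ) (S' : ℕ → Finset ℕ) (ε : Bool), E' ⊆ E ∧ E'.Infinite ∧ (∀ j, S' j ⊆ S j) ∧
    Big lam S' ∧ ∀ n ∈ E', ∀ x, InBox S' x → C n x = ε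

/-- paper 2.5 -/
def SCM : Prop := ∀ (lam : ℕ → ℕ) (S : ℕ → Finset ℕ) (E : Set ℕ) (C : ℕ → (ℕ → ℕ) → Bool)
  (l : ℕ → ℕ) (Jl : ℕ → ℕ) (b : ℕ → ℕ → ℕ) (i : ℕ → ℕ),
  Big lam S → E.Infinite → (∀ n x y, (∀ j < l n, x j = y j) → C n x = C n y) →
  StrictMono Jl → (∀ k, lam (Jl k) = lam (Jl 0)) →
  (∀ i, ∀ k ≤ i, i + 1 ≤ ((S (Jl i)).filter (fun h => b i h = k)).card) →
  Filter.Tendsto i Filter.atTop Filter.atTop →
  ∃ (E' : Set ℕ) (S' : ℕ → Finset ℕ), E' ⊆ E ∧ E'.Infinite ∧ (∀ j, S' j ⊆ S j) ∧ Big lam S' ∧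
    ((∃ k, ∀ n ∈ E', ∀ x, InBox S' x → b (i n) (x (Jl (i n))) = k ∧ C n x = false) ∨
     ((∀ n ∈ E', ∀ x, InBox S' x → C n x = true) ∧
      ∀ k, ∃ N, ∀ n ∈ E', N ≤ n → ∀ x, InBox S' x → k ≤ b (i n) (x (Jl (i n)))))

/-! ### The forcing notion -/

/-- The conditions. -/
@[ext] structure Cnd (J : Type) where
  /-- an infinite set of natural numbers -/
  E : Set ℕ
  /-- finite sets of possible values -/
  S : J → ℕ → Finset ℕ
  inf : E.Infinite
  ne : ∀ γ m, (S γ m).Nonempty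
  sub : ∀ γ m, S γ m ⊆ Finset.range (m + 1)
  big : ∀ γ k, ∃ m, k ≤ (S γ m).card
  ctb : {γ | ∃ m, S γ m ≠ Finset.range (m + 1)}.Countable

variable {J : Type}

/-- the support of a condition -/
def Cnd.supp (p : Cnd J) : Set J := {γ | ∃ m, p.S γ m ≠ Finset.range (m + 1)}

instance : Preorder (Cnd J) where
  le q p := (q.E \ p.E).Finite ∧ ∀ γ m, q.S γ m ⊆ p.S γ m
  le_refl p := ⟨by simp, fun _ _ => Finset.Subset.refl _⟩
  le_trans a b c hab hbc := ⟨by
    refine (hab.1.union hbc.1).subset fun n hn => ?_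
    by_cases h : n ∈ b.E
    · exact Or.inr ⟨h, hn.2⟩
    · exact Or.inl ⟨hn.1, h⟩, fun γ m => (hab.2 γ m).trans (hbc.2 γ m)⟩

theorem Cnd.le_def {p q : Cnd J} : q ≤ p ↔ (q.E \ p.E).Finite ∧ ∀ γ m, q.S γ m ⊆ p.S γ m :=
  Iff.rfl

/-- `q ≤ p` with the same values on `F` -/
def LeOn (F : Finset (J × ℕ)) (q p : Cnd J) : Prop := q ≤ p ∧ ∀ e ∈ F, q.S e.1 e.2 = p.S e.1 e.2

/-- the name of the generic function number `γ` -/
def gN (γ : J) : ℕ → ℕ → Set (Cnd J) := fun m k => {p | p.S γ m = {k}}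

/-- the name of the ultrafilter base -/
def uN : Set ℕ → Set (Cnd J) := fun B => {p | (p.E \ B).Finite}

end Pool.Agent.H554V
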