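import Pool.Agent.H554V.FSt

/-!
# The second form of the combinatorial hypothesis: open relations
-/

namespace Pool.Agent.H554V

open Pool.Agent.Helper669.Forcing Set
open Pool.Agent.H554 (JJ)

section

variable {R K : Type} (B : R → Set ℕ) (ev : K → List ℕ → ℕ)

/-- First alternative. -/
def PhiI2 (u : Set R) (Z : K → ℕ → Set ℕ) (g : ℕ → ℕ) (y : ℕ → Set ℕ) (a : K) : Prop :=
  ∃ k : ℕ, ∃ i ∈ u, ∀ n ∈ B i, ev a (firstVals g n) = k ∧ ∀ j, j ∈ y n → j ∈ Z a n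

/-- Second alternative. -/
def PhiII2 (u : Set R) (Z : K → ℕ → Set ℕ) (g : ℕ → ℕ) (y : ℕ → Set ℕ) (a : K) : Prop :=
  (∀ k : ℕ, ∃ i ∈ u, ∀ n ∈ B i, k ≤ ev a (firstVals g n)) ∧
    ∃ i ∈ u, ∀ n ∈ B i, ∃ j, j ∈ y n ∧ j ∉ Z a n

/-- The combinatorial hypothesis, second form. `R` with `B : R → Set ℕ` is a set of sets of natural
numbers, `K` with `ev` is a set of functions on finite sequences. -/
def Phi2 : Prop :=
  ∃ u : Set R, PhiU B u ∧ ∀ Z : K → ℕ → Set ℕ, ∃ g : ℕ → ℕ, (∀ m, g m ≤ m) ∧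
    ∀ y : ℕ → Set ℕ, ∃ a : K, PhiI2 B ev u Z g y a ∨ PhiII2 B ev u Z g y a

end

section

variable {P : Type} [Preorder P] {R K : Type} (B : R → Set ℕ) (ev : K → List ℕ → ℕ)

/-- `y n ⊆ Z a n` in the extension. -/
def FSub (Z : K → ℕ → ℕ → Set P) (y : ℕ → ℕ → Set P) (a : K) (n : ℕ) : Set P :=
  fall fun j : ℕ => fimp (meets (y n j)) (meets (Z a n j))

/-- `y n` is not a subset of `Z a n` in the extension. -/
def FNSub (Z : K → ℕ → ℕ → Set P) (y : ℕ → ℕ → Set P) (a : K) (n : ℕ) : Set P :=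
  fex fun j : ℕ => fand (meets (y n j)) (fnot (meets (Z a n j)))

/-- `PhiI2` in the extension. -/
def FPhiI2 (u : R → Set P) (Z : K → ℕ → ℕ → Set P) (g y : ℕ → ℕ → Set P) (a : K) : Set P :=
  fex fun k : ℕ => fex fun i : R => fand (meets (u i)) (fall fun n : ℕ =>
    fimp (fground (n ∈ B i)) (fand (FAt ev (fun v => v = k) a g n) (FSub Z y a n)))

/-- `PhiII2` in the extension. -/
def FPhiII2 (u : R → Set P) (Z : K → ℕ → ℕ → Set P) (g y : ℕ → ℕ → Set P) (a : K) : Set P :=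
  fand (fall fun k : ℕ => fex fun i : R => fand (meets (u i)) (fall fun n : ℕ =>
      fimp (fground (n ∈ B i)) (FAt ev (fun v => k ≤ v) a g n)))
    (fex fun i : R => fand (meets (u i)) (fall fun n : ℕ =>
      fimp (fground (n ∈ B i)) (FNSub Z y a n)))

/-- The main clause in the extension. -/
def FPhiMain2 (u : R → Set P) : Set P :=
  fall fun Z : K → ℕ → ℕ → Set P => fex fun g : ℕ → ℕ → Set P =>
    fand (fand (IsFun g) (fall fun m : ℕ => fall fun k : ℕ =>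
      fimp (meets (g m k)) (fground (k ≤ m))))
    (fall fun y : ℕ → ℕ → Set P => fex fun a : K =>
      forr (FPhiI2 B ev u Z g y a) (FPhiII2 B ev u Z g y a))

/-- The hypothesis in the extension. -/
def ForcedPhi2 (P : Type) [Preorder P] {R K : Type} (B : R → Set ℕ) (ev : K → List ℕ → ℕ) : Set P :=
  fex fun u : R → Set P => fand (FPhiU B u) (FPhiMain2 B ev u)

end

/-- Some forcing notion forces the second form of the hypothesis. -/
def MainForced2 : Prop :=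
  ∃ (R K : Type) (B : R → Set ℕ) (ev : K → List ℕ → ℕ) (P : Type) (_ : Preorder P),
    Nonempty P ∧ ∀ p : P, p ∈ ForcedPhi2 P B ev

/-- the level bound for the finite sets -/
def Bdd0 (S : ℕ → Finset ℕ) : Prop := ∀ j, S j ⊆ Finset.range ((Nat.unpair j).2 + 1)

/-- open predicates -/
def OpenP (O : (ℕ → ℕ) → Prop) : Prop := ∀ x, O x → ∃ L, ∀ y, (∀ j < L, x j = y j) → O y

/-- CU for open sets -/
def SCU2 : Prop := ∀ (S : ℕ → Finset ℕ) (E : Set ℕ) (O : ℕ → (ℕ → ℕ) → Prop),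
  Big lam0 S → Bdd0 S → E.Infinite → (∀ n, OpenP (O n)) →
  ∃ (E' : Set ℕ) (S' : ℕ → Finset ℕ) (ε : Bool), E' ⊆ E ∧ E'.Infinite ∧ (∀ j, S' j ⊆ S j) ∧
    Big lam0 S' ∧ ∀ n ∈ E', ∀ x, InBox S' x → (O n x ↔ ε = true)

/-- CM for open sets -/
def SCM2 : Prop := ∀ (S : ℕ → Finset ℕ) (E : Set ℕ) (O : ℕ → (ℕ → ℕ) → Prop)
  (Jl : ℕ → ℕ) (b : ℕ → ℕ → ℕ) (i : ℕ → ℕ),
  Big lam0 S → Bdd0 S → E.Infinite → (∀ n, OpenP (O n)) →
  StrictMono Jl → (∀ k, lam0 (Jl k) = lam0 (Jl 0)) →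
  (∀ i, ∀ k ≤ i, i + 1 ≤ ((S (Jl i)).filter (fun h => b i h = k)).card) →
  Filter.Tendsto i Filter.atTop Filter.atTop →
  ∃ (E' : Set ℕ) (S' : ℕ → Finset ℕ), E' ⊆ E ∧ E'.Infinite ∧ (∀ j, S' j ⊆ S j) ∧ Big lam0 S' ∧
    ((∃ k, ∀ n ∈ E', ∀ x, InBox S' x → b (i n) (x (Jl (i n))) = k ∧ ¬ O n x) ∨
     ((∀ n ∈ E', ∀ x, InBox S' x → O n x) ∧
      ∀ k, ∃ N, ∀ n ∈ E', N ≤ n → ∀ x, InBox S' x → k ≤ b (i n) (x (Jl (i n)))))

/-- the main clause, second form -/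
def SMain2 : Prop := ∀ p : Cnd JJ,
  p ∈ FPhiMain2 (fun i : Set ℕ => i) (fun a : List ℕ → ℕ => a) (uN (J := JJ))

/-- assembly of the forcing part, second form -/
theorem mainForced2_of (h1 : SFU) (h2 : SMain2) (hne : Nonempty (Cnd JJ)) : MainForced2 := by
  refine ⟨Set ℕ, List ℕ → ℕ, fun i => i, fun a => a, Cnd JJ, inferInstance, hne, fun p => ?_⟩
  refine mem_fex_of_mem (i := uN) ?_ ⟨h1 p, h2 p⟩
  exact down_fand (down_fand (down_fall fun _ => down_fimp _ _) (down_fand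
    (down_fall fun _ => down_fall fun _ => down_fimp _ _) (down_fall fun _ => down_fex _)))
    (down_fall fun _ => down_fex _)

/-- the second form implies the first one -/
theorem phi_of_phi2 {R K : Type} {B : R → Set ℕ} {ev : K → List ℕ → ℕ} (h : Phi2 B ev) :
    Phi B ev := by
  obtain ⟨u, hu, h⟩ := h
  refine ⟨u, hu, fun W => ?_⟩
  obtain ⟨g, hg, h⟩ := h fun a n => {j | ¬ W a n j}
  refine ⟨g, hg, fun y => ?_⟩
  obtain ⟨a, h⟩ := h fun n => {y n}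
  refine ⟨a, ?_⟩
  rcases h with ⟨k, i, hi, h⟩ | ⟨h1, i, hi, h2⟩
  · exact Or.inl ⟨k, i, hi, fun n hn => ⟨(h n hn).1, (h n hn).2 _ rfl⟩⟩
  · refine Or.inr ⟨h1, i, hi, fun n hn => ?_⟩
    obtain ⟨j, hj, hj'⟩ := h2 n hn
    rw [show j = y n from hj] at hj'
    exact not_not.1 hj'

/-- (MP_6b029b_lc) The hypothesis implies that some ultrapower of `P(ω)` does not contain all
partial orders of the size of the continuum. -/
def MainPoset : Prop :=
  ∀ (R K : Type) (B : R → Set ℕ) (ev : K → List ℕ → ℕ), Phi2 B ev →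
    ∃ (U : Ultrafilter ℕ) (X : Type) (_ : PartialOrder X), (∀ n, {n} ∉ U) ∧
      Cardinal.mk X = Cardinal.continuum ∧
      ¬ ∃ f : X → Filter.Germ (U : Filter ℕ) (Set ℕ), ∀ x y, x ≤ y ↔ f x ≤ f y

end Pool.Agent.H554V
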