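import Mathlib
import Pool.Agent.Helper278.Trace
import Pool.Agent.Helper278.Indep
import Pool.Agent.Helper436.SM.Stmt

/-!
# A sequence in a hyperfinite algebra that is dense in the 2-norm, with control of the norm
-/

set_option autoImplicit false

open scoped InnerProductSpace Topology

namespace Pool.Agent.H554V

open Pool.Agent.Helper278 TopologicalSpace

namespace Z1

variable {H : Type} [NormedAddCommGroup H] [InnerProductSpace ℂ H] [CompleteSpace H]
variable {N : VonNeumannAlgebra H}

/-- the 2-norm is at most the operator norm -/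
theorem n2_le_norm (T : TracialState N) (x : Elt N) : n2 T.τ x ≤ ‖x‖ := by
  have h := n2_mul_le T x 1
  rw [mul_one, (trAlg T).n2_one, mul_one] at h
  exact h

/-- a copy of the algebra, to be given the metric of the 2-norm -/
structure W (N : VonNeumannAlgebra H) : Type where
  /-- the element -/
  v : Elt N

/-- the metric of the 2-norm -/
@[instance_reducible]
noncomputable def wMetric (T : TracialState N) : PseudoMetricSpace (W N) where
  dist x y := n2 T.τ (x.v - y.v)
  dist_self x := by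
    show n2 T.τ (x.v - x.v) = 0
    rw [sub_self]
    exact (trAlg T).n2_zero
  dist_comm x y := (trAlg T).n2_sub_comm _ _
  dist_triangle x y z := (trAlg T).n2_tri _ _ _

theorem separable_fd (A : StarSubalgebra ℂ (Elt N)) [FiniteDimensional ℂ A] :
    IsSeparable (A : Set (Elt N)) := by
  have h1 : (A.toSubalgebra.toSubmodule).FG := by
    have h2 : FiniteDimensional ℂ (A.toSubalgebra.toSubmodule) :=
      inferInstanceAs (FiniteDimensional ℂ A)
    exact Module.Finite.iff_fg.1 h2
  obtain ⟨s, hs⟩ := h1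
  have h3 : IsSeparable ((Submodule.span ℂ (s : Set (Elt N)) : Submodule ℂ (Elt N)) :
      Set (Elt N)) := IsSeparable.span (s.countable_toSet.isSeparable)
  rw [hs] at h3
  exact h3

end Z1

open Z1 in
/-- A hyperfinite algebra has a sequence that is dense in the 2-norm, with control of the
operator norm. -/
theorem z1 {H : Type} [NormedAddCommGroup H] [InnerProductSpace ℂ H] [CompleteSpace H]
    (N : VonNeumannAlgebra H) (ρ : Elt N → ℂ) (hf : IsFaithfulTrace ρ)
    (hn : IsNormalPositive N ρ) (hh : IsHyperfinite (Elt N) ρ) :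
    ∃ D : ℕ → Elt N, ∀ (x : Elt N) (ε : ℝ), 0 < ε →
      ∃ k, ‖D k‖ ≤ ‖x‖ + 1 ∧ norm2 ρ (x - D k) < ε := by
  set T := mkState N ρ hn hf with hT
  let : PseudoMetricSpace (W N) := wMetric T
  have hdist : ∀ x y : W N, dist x y = n2 T.τ (x.v - y.v) := fun _ _ => rfl
  have hnorm2 : ∀ x : Elt N, norm2 ρ x = n2 T.τ x := fun _ => rfl
  have hcont : Continuous (W.mk : Elt N → W N) := by
    have : LipschitzWith 1 (W.mk : Elt N → W N) := by
      refine LipschitzWith.of_dist_le_mul ?_
      intro x y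
      rw [hdist, NNReal.coe_one, one_mul, dist_eq_norm]
      exact n2_le_norm T _
    exact this.continuous
  obtain ⟨A, hA, hfd, hdense⟩ := hh
  have hsep1 : ∀ n, IsSeparable (W.mk '' (A n : Set (Elt N))) := by
    intro n
    have := hfd n
    exact (separable_fd (A n)).image hcont
  have hsep2 : IsSeparable (⋃ n, W.mk '' (A n : Set (Elt N))) := isSeparable_iUnion.2 hsep1
  have hsep3 : IsSeparable (Set.univ : Set (W N)) := by
    refine hsep2.closure.mono ?_
    intro x _
    rw [Metric.mem_closure_iff]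
    intro ε hε
    obtain ⟨n, y, hy, hxy⟩ := hdense x.v ε hε
    exact ⟨W.mk y, Set.mem_iUnion.2 ⟨n, y, hy, rfl⟩, hxy⟩
  have hball : ∀ n : ℕ, ∃ t : Set (W N), t ⊆ {x : W N | ‖x.v‖ ≤ n} ∧ t.Countable ∧
      {x : W N | ‖x.v‖ ≤ n} ⊆ closure t := fun n =>
    (hsep3.mono (Set.subset_univ _)).exists_countable_dense_subset
  choose t ht htc htd using hball
  have hU : (⋃ n, t n).Countable := Set.countable_iUnion htc
  have hne : (⋃ n, t n).Nonempty := by
    have h0 : (W.mk 0 : W N) ∈ closure (t 0) := htd 0 (by simp)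
    have : (t 0).Nonempty := by
      by_contra hcon
      rw [Set.not_nonempty_iff_eq_empty] at hcon
      rw [hcon, closure_empty] at h0
      exact h0
    obtain ⟨y, hy⟩ := this
    exact ⟨y, Set.mem_iUnion.2 ⟨0, hy⟩⟩
  obtain ⟨D, hD⟩ := hU.exists_eq_range hne
  refine ⟨fun k => (D k).v, ?_⟩
  intro x ε hε
  have hx : (W.mk x : W N) ∈ closure (t ⌈‖x‖⌉₊) :=
    htd _ (show ‖x‖ ≤ (⌈‖x‖⌉₊ : ℝ) from Nat.le_ceil ‖x‖)
  rw [Metric.mem_closure_iff] at hx
  obtain ⟨y, hy, hxy⟩ := hx ε hε
  have hy' : y ∈ Set.range D := by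
    rw [← hD]
    exact Set.mem_iUnion.2 ⟨_, hy⟩
  obtain ⟨k, rfl⟩ := hy'
  refine ⟨k, ?_, hxy⟩
  have h1 : ‖(D k).v‖ ≤ (⌈‖x‖⌉₊ : ℝ) := ht _ hy
  have h2 := Nat.ceil_lt_add_one (norm_nonneg x)
  linarith

end Pool.Agent.H554V
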