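import Mathlib
import Pool.Agent.Helper436.SM.Pauli
import Pool.Agent.Helper278.Trace

/-!
# The unitaries `w_{s,j}` and their finite products
-/

set_option autoImplicit false
set_option linter.unusedSectionVars false

open scoped ComplexOrder

namespace Pool.Agent.H554V

open Pool.Agent.Helper278 Pool.Agent.Helper436.SM

section prod

variable {A : Type*} [Ring A] [StarRing A]

theorem list_prod_unitary {ι : Type*} (L : List ι) (w : ι → A) (h : ∀ s, w s ∈ unitary A) :
    (L.map w).prod ∈ unitary A := by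
  refine Submonoid.list_prod_mem _ fun x hx => ?_
  obtain ⟨s, -, rfl⟩ := List.mem_map.1 hx
  exact h s

theorem list_prod_comm {ι : Type*} (L : List ι) (w : ι → A) (X : A)
    (h : ∀ s ∈ L, X * w s = w s * X) : X * (L.map w).prod = (L.map w).prod * X := by
  have h1 : Commute X (L.map w).prod := by
    refine Commute.list_prod_right _ _ fun x hx => ?_
    obtain ⟨s, hs, rfl⟩ := List.mem_map.1 hx
    exact h s hs
  exact h1

/-- If `X` commutes with all factors but one -/
theorem comm_prod {ι : Type*} (L : List ι) (hL : L.Nodup) (w : ι → A)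
    (hw : ∀ s, w s ∈ unitary A) (X : A) (s0 : ι) (hs : s0 ∈ L)
    (hc : ∀ s, s ≠ s0 → X * w s = w s * X) :
    ∃ P ∈ unitary A, ∃ P' ∈ unitary A,
      X * (L.map w).prod - (L.map w).prod * X = P * (X * w s0 - w s0 * X) * P' := by
  obtain ⟨L1, L2, rfl⟩ := List.append_of_mem hs
  have hn := List.nodup_append.1 hL
  have h1 : s0 ∉ L1 := fun h => hn.2.2 s0 h s0 (by simp) rfl
  have h2 : s0 ∉ L2 := (List.nodup_cons.1 hn.2.1).1
  refine ⟨(L1.map w).prod, list_prod_unitary _ _ hw, (L2.map w).prod,
    list_prod_unitary _ _ hw, ?_⟩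
  have e1 := list_prod_comm L1 w X fun s hs => hc s fun h => h1 (h ▸ hs)
  have e2 := list_prod_comm L2 w X fun s hs => hc s fun h => h2 (h ▸ hs)
  rw [List.map_append, List.prod_append, List.map_cons, List.prod_cons]
  generalize (L1.map w).prod = P at *
  generalize (L2.map w).prod = P' at *
  have e3 : X * (P * (w s0 * P')) = P * (X * w s0) * P' := by
    rw [← mul_assoc, e1]; noncomm_ring
  have e4 : P * (w s0 * P') * X = P * (w s0 * X) * P' := by
    rw [mul_assoc, mul_assoc (w s0), ← e2]; noncomm_ring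
  rw [e3, e4]
  noncomm_ring

end prod

section tr

variable {A : Type*} [Ring A] [StarRing A] [Algebra ℂ A] [StarModule ℂ A] {τ : A →ₗ[ℂ] ℂ}

theorem tau_conj (hτ : TrAlg τ) (P y P' : A) (hP : P ∈ unitary A) (hP' : P' ∈ unitary A) :
    τ (star (P * y * P') * (P * y * P')) = τ (star y * y) := by
  have h1 := (Unitary.mem_iff.1 hP).1
  have h2 := (Unitary.mem_iff.1 hP').2
  rw [hτ.comm, star_mul, star_mul]
  have e1 : P * y * P' * (star P' * (star y * star P)) =
      P * (y * (P' * star P') * star y) * star P := by noncomm_ring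
  rw [e1, h2, mul_one, hτ.comm, ← mul_assoc, h1, one_mul, hτ.comm]

/-- `cos θ + i sin θ V` -/
noncomputable def rotV (V : A) (t : ℝ) : A :=
  (Real.cos t : ℂ) • (1 : A) + (Complex.I * (Real.sin t : ℂ)) • V

theorem rotV_unitary (V : A) (hV : star V = V) (hV2 : V * V = 1) (t : ℝ) :
    rotV V t ∈ unitary A := by
  have hc : star (Real.cos t : ℂ) = (Real.cos t : ℂ) := Complex.conj_ofReal _
  have hs : star (Complex.I * (Real.sin t : ℂ)) = -(Complex.I * (Real.sin t : ℂ)) := by
    rw [star_mul', Complex.star_def, Complex.conj_I, Complex.conj_ofReal]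
    ring
  have hstar : star (rotV V t) = (Real.cos t : ℂ) • (1 : A) - (Complex.I * (Real.sin t : ℂ)) • V := by
    unfold rotV
    rw [star_add, star_smul, star_smul, star_one, hV, hc, hs, neg_smul, sub_eq_add_neg]
  have key : (Real.cos t : ℂ) * Real.cos t -
      (Complex.I * (Real.sin t : ℂ)) * (Complex.I * (Real.sin t : ℂ)) = 1 := by
    have h1 : (Real.cos t : ℂ) ^ 2 + (Real.sin t : ℂ) ^ 2 = 1 := by
      exact_mod_cast Real.cos_sq_add_sin_sq t
    have h2 : Complex.I * Complex.I = -1 := Complex.I_mul_I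
    linear_combination h1 - (Real.sin t : ℂ) ^ 2 * h2
  rw [Unitary.mem_iff, hstar]
  unfold rotV
  generalize (Real.cos t : ℂ) = c at *
  generalize (Complex.I * (Real.sin t : ℂ)) = s at *
  have key2 : (c * c) • (1 : A) - (s * s) • (1 : A) = 1 := by rw [← sub_smul, key, one_smul]
  constructor
  · rw [sub_mul, mul_add, mul_add, smul_mul_smul_comm, smul_mul_smul_comm, smul_mul_smul_comm,
      smul_mul_smul_comm, one_mul, one_mul, mul_one, hV2, mul_comm s c]
    refine Eq.trans ?_ key2
    abel
  · rw [add_mul, mul_sub, mul_sub, smul_mul_smul_comm, smul_mul_smul_comm, smul_mul_smul_comm,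
      smul_mul_smul_comm, one_mul, one_mul, mul_one, hV2, mul_comm s c]
    refine Eq.trans ?_ key2
    abel

theorem rotV_comm (X V : A) (h : X * V = V * X) (t : ℝ) : X * rotV V t = rotV V t * X := by
  unfold rotV
  rw [mul_add, add_mul, mul_smul_comm, mul_smul_comm, smul_mul_assoc, smul_mul_assoc, h, mul_one,
    one_mul]

theorem tau_anti (hτ : TrAlg τ) (X V : A) (hX : X ∈ unitary A) (hV : V ∈ unitary A)
    (h : V * X = -(X * V)) (t : ℝ) :
    τ (star (X * rotV V t - rotV V t * X) * (X * rotV V t - rotV V t * X)) =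
      ((4 * Real.sin t ^ 2 : ℝ) : ℂ) := by
  have e : X * rotV V t - rotV V t * X = (2 * (Complex.I * (Real.sin t : ℂ))) • (X * V) := by
    unfold rotV
    rw [mul_add, add_mul, mul_smul_comm, mul_smul_comm, smul_mul_assoc, smul_mul_assoc, h, mul_one,
      one_mul, smul_neg, two_mul, add_smul]
    abel
  have hXV : star (X * V) * (X * V) = 1 := (Unitary.mem_iff.1 (mul_mem hX hV)).1
  rw [e, star_smul, smul_mul_smul_comm, hXV, map_smul, hτ.one, smul_eq_mul, mul_one]
  have hs : star (2 * (Complex.I * (Real.sin t : ℂ))) = -(2 * (Complex.I * (Real.sin t : ℂ))) := by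
    rw [star_mul', star_mul', Complex.star_def, Complex.conj_I, Complex.conj_ofReal]
    have : (starRingEnd ℂ) 2 = 2 := map_ofNat _ 2
    rw [this]
    ring
  rw [hs]
  have h2 : Complex.I * Complex.I = -1 := Complex.I_mul_I
  push_cast
  linear_combination (-(4 * (Complex.sin t) ^ 2)) * h2

end tr

/-! ### Pauli unitaries -/

section pauli

variable {A : Type*} [Ring A] [StarRing A] [Algebra ℂ A] [StarModule ℂ A] {τ : A →ₗ[ℂ] ℂ}
variable {W : VV → A}

/-- the string of `X` at place `c` -/
noncomputable def xv (c : ℕ) : VV := Finsupp.single c (1, 0)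

/-- the string of `V` at place `c` -/
noncomputable def vv (c : ℕ) : VV := Finsupp.single c (0, 1)

theorem bf_single (c d : ℕ) (a b : ZMod 2 × ZMod 2) :
    bf (Finsupp.single c a) (Finsupp.single d b) = if c = d then a.2 * b.1 else 0 := by
  unfold bf
  rw [Finsupp.sum_single_index (by simp)]
  split_ifs with h
  · subst h
    rw [Finsupp.single_eq_same]
  · rw [Finsupp.single_eq_of_ne h]
    simp

theorem W_unitary (hW : PauliSys τ W) (v : VV) : W v ∈ unitary A := by
  rw [Unitary.mem_iff]
  constructor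
  · rw [hW.star, smul_mul_assoc, hW.mul, smul_smul, sg_mul_self, one_smul, vv_add_self, hW.zero]
  · rw [hW.star, mul_smul_comm, hW.mul, smul_smul, sg_mul_self, one_smul, vv_add_self, hW.zero]

theorem W_vv_star (hW : PauliSys τ W) (c : ℕ) : star (W (vv c)) = W (vv c) := by
  rw [hW.star, vv, bf_single, if_pos rfl]
  simp [sg]

theorem W_vv_sq (hW : PauliSys τ W) (c : ℕ) : W (vv c) * W (vv c) = 1 := by
  rw [hW.mul, vv_add_self, hW.zero, vv, bf_single, if_pos rfl]
  simp [sg]

theorem W_anti (hW : PauliSys τ W) (c : ℕ) :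
    W (vv c) * W (xv c) = -(W (xv c) * W (vv c)) := by
  rw [hW.mul, hW.mul, vv, xv, bf_single, bf_single, if_pos rfl, if_pos rfl, add_comm]
  simp [sg]

theorem W_comm (hW : PauliSys τ W) (c d : ℕ) (h : c ≠ d) :
    W (xv c) * W (vv d) = W (vv d) * W (xv c) := by
  rw [hW.mul, hW.mul, vv, xv, bf_single, bf_single, if_neg h, if_neg h.symm, add_comm]

/-- the angle -/
noncomputable def ang (j : ℕ) : ℝ := 1 / ((j : ℝ) + 1)

/-- the unitary `w_{s,j}` -/
noncomputable def ws (W : VV → A) (s : List ℕ) (j : ℕ) : A :=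
  rotV (W (vv (Encodable.encode s))) (ang j)

/-- the unitary `X_s` -/
noncomputable def xs (W : VV → A) (s : List ℕ) : A := W (xv (Encodable.encode s))

theorem ws_unitary (hW : PauliSys τ W) (s : List ℕ) (j : ℕ) : ws W s j ∈ unitary A :=
  rotV_unitary _ (W_vv_star hW _) (W_vv_sq hW _) _

theorem xs_unitary (hW : PauliSys τ W) (s : List ℕ) : xs W s ∈ unitary A := W_unitary hW _

/-- the finite set of the sequences of length `n` with `s_m ≤ m` -/
def Kn (n : ℕ) : Finset (List ℕ) :=
  (Fintype.piFinset fun i : Fin n => Finset.range (i.1 + 1)).image List.ofFn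

theorem firstVals_mem (g : ℕ → ℕ) (hg : ∀ m, g m ≤ m) (n : ℕ) :
    (List.range n).map g ∈ Kn n := by
  unfold Kn
  rw [Finset.mem_image]
  refine ⟨fun i => g i, ?_, ?_⟩
  · rw [Fintype.mem_piFinset]
    intro i
    rw [Finset.mem_range]
    exact Nat.lt_succ_of_le (hg i)
  · rw [List.ofFn_eq_map]
    rw [← List.map_coe_finRange_eq_range, List.map_map]
    rfl

/-- the unitary `u_{a,n}` -/
noncomputable def uan (W : VV → A) (f : List ℕ → ℕ) (n : ℕ) : A :=
  ((Kn n).toList.map fun s => ws W s (f s)).prod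

theorem uan_unitary (hW : PauliSys τ W) (f : List ℕ → ℕ) (n : ℕ) : uan W f n ∈ unitary A :=
  list_prod_unitary _ _ fun s => ws_unitary hW s _

/-- the size of the commutator -/
theorem tau_comm (hτ : TrAlg τ) (hW : PauliSys τ W) (f : List ℕ → ℕ) (n : ℕ) (s : List ℕ)
    (hs : s ∈ Kn n) :
    τ (star (xs W s * uan W f n - uan W f n * xs W s) *
      (xs W s * uan W f n - uan W f n * xs W s)) = ((4 * Real.sin (ang (f s)) ^ 2 : ℝ) : ℂ) := by
  obtain ⟨P, hP, P', hP', h⟩ := comm_prod (Kn n).toList (Finset.nodup_toList _)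
    (fun s => ws W s (f s)) (fun s => ws_unitary hW s _) (xs W s) s (Finset.mem_toList.2 hs)
    (fun t ht => by
      refine rotV_comm _ _ (W_comm hW _ _ ?_) _
      intro he
      exact ht (Encodable.encode_injective he).symm)
  unfold uan
  rw [h, tau_conj hτ _ _ _ hP hP']
  exact tau_anti hτ _ _ (W_unitary hW _) (W_unitary hW _) (W_anti hW _) _

end pauli

end Pool.Agent.H554V
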