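import Mathlib
import Pool.Agent.Helper436.SM.Stmt
import Pool.Agent.H554V.Stmts

/-!
# The statement (S) on group von Neumann algebras and the ultrapowers of the hyperfinite II₁ factor
-/

set_option autoImplicit false

open scoped InnerProductSpace

namespace Pool.Agent.H554V

open Pool.Agent.Helper278 Pool.Agent.Helper436.SM

/-- An injective unital star homomorphism from the von Neumann algebra `N` into `Q`, which carries
the functional `t` to `φ`. -/
def TEmbeds {K : Type} [NormedAddCommGroup K] [InnerProductSpace ℂ K] [CompleteSpace K]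
    (N : VonNeumannAlgebra K) (t : (K →L[ℂ] K) → ℂ) {Q : Type} [Ring Q] [StarRing Q] [Algebra ℂ Q]
    (φ : Q → ℂ) : Prop :=
  ∃ θ : Elt N →⋆ₐ[ℂ] Q, Function.Injective θ ∧ ∀ x, φ (θ x) = t x

/-- The group von Neumann algebra `L(Γ)` embeds into `(Q, φ)`: for a model `K` of `ℓ²(Γ)`, with its
orthonormal basis `b` indexed by `Γ` and the left regular representation `lam`, there is an
injective unital star homomorphism from the von Neumann algebra generated by `lam` into `Q` which
preserves the traces. The trace of `L(Γ)` is `x ↦ ⟨b_1, x b_1⟩`. -/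
def LEmbeds (Γ : Type) [Group Γ] {Q : Type} [Ring Q] [StarRing Q] [Algebra ℂ Q] (φ : Q → ℂ) :
    Prop :=
  ∃ (K : Type) (_ : NormedAddCommGroup K) (_ : InnerProductSpace ℂ K) (_ : CompleteSpace K)
    (b : HilbertBasis Γ ℂ K) (lam : Γ → K →L[ℂ] K), IsLeftRegular b lam ∧
    TEmbeds (vnGen (Set.range lam)) (fun x => ⟪b 1, x (b 1)⟫_ℂ) φ

/-- The statement (S), for the hyperfinite II₁ factor `(R, ρ)`: for every group `Γ` and every free
ultrafilter `U` on `ℕ`, if `Γ` embeds into the unitary group of the tracial ultrapower `R^U` then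
`L(Γ)` embeds into `R^U`. -/
def HoldsS {H : Type} [NormedAddCommGroup H] [InnerProductSpace ℂ H] [CompleteSpace H]
    (R : VonNeumannAlgebra H) (ρ : Elt R → ℂ) : Prop :=
  ∀ (Γ : Type) [Group Γ] (U : Ultrafilter ℕ), (∀ n, {n} ∉ U) →
    ∀ (Q : Type) [Ring Q] [StarRing Q] [Algebra ℂ Q] (π : (ℕ → Elt R) → Q) (φ : Q → ℂ),
      CE.IsTracialUltrapower ρ U π φ →
      (∃ f : Γ →* unitary Q, Function.Injective f) → LEmbeds Γ φ

/-- The hypothesis implies that (S) fails. -/
def MainZfc : Prop :=
  ∀ (R K : Type) (B : R → Set ℕ) (ev : K → List ℕ → ℕ), Phi B ev →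
    ∃ (H : Type) (_ : NormedAddCommGroup H) (_ : InnerProductSpace ℂ H) (_ : CompleteSpace H)
      (N : VonNeumannAlgebra H) (ρ : Elt N → ℂ), IsHyperfiniteII N ρ ∧ ¬ HoldsS N ρ

end Pool.Agent.H554V
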