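import Mathlib
import Pool.Agent.H554V.ZStmts
import Pool.Agent.H554V.Z2a
import Pool.Agent.Helper278.Model
import Pool.Agent.Helper278.KLift
import Pool.Agent.Helper278.CEPi
import Pool.Agent.Helper278.CEIter
import Pool.Agent.Helper278.GroupVN

/-!
# The hypothesis implies that (S) fails: the argument in ZFC
-/

set_option autoImplicit false

open scoped InnerProductSpace ComplexOrder Topology BoundedContinuousFunction
open Filter

namespace Pool.Agent.H554V

open Pool.Agent.Helper278 Pool.Agent.Helper436.SM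

/-! ### the ultrafilter -/

section ultra

variable {R : Type} {B : R → Set ℕ} {u : Set R}

/-- the ultrafilter generated by the base -/
theorem exists_ultra (hu : PhiU B u) : ∃ U : Ultrafilter ℕ, (∀ n, {n} ∉ U) ∧
    ∀ A : Set ℕ, A ∈ U ↔ ∃ i ∈ u, B i ⊆ A := by
  obtain ⟨h1, h2, h3⟩ := hu
  let F : Filter ℕ :=
    { sets := {A | ∃ i ∈ u, B i ⊆ A}
      univ_sets := by
        obtain ⟨i, hi, -⟩ := h3 Set.univ
        exact ⟨i, hi, Set.subset_univ _⟩
      sets_of_superset := by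
        rintro x y ⟨i, hi, h⟩ hxy
        exact ⟨i, hi, h.trans hxy⟩
      inter_sets := by
        rintro x y ⟨i, hi, h⟩ ⟨j, hj, h'⟩
        obtain ⟨k, hk, h''⟩ := h2 i hi j hj
        exact ⟨k, hk, fun n hn => ⟨h (h'' n hn).1, h' (h'' n hn).2⟩⟩ }
  have hF : ∀ A : Set ℕ, A ∈ F ↔ ∃ i ∈ u, B i ⊆ A := fun A => Iff.rfl
  have hne : ∀ i ∈ u, (B i).Nonempty := by
    intro i hi
    obtain ⟨n, -, hn⟩ := h1 i hi 0
    exact ⟨n, hn⟩
  have hc : ∀ A : Set ℕ, Aᶜ ∉ F ↔ A ∈ F := by
    intro A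
    rw [hF, hF]
    constructor
    · intro h
      obtain ⟨i, hi, v, hv⟩ := h3 A
      cases v with
      | true => exact ⟨i, hi, fun n hn => (hv n hn).2 rfl⟩
      | false =>
        exact absurd ⟨i, hi, fun n hn hA => Bool.false_ne_true ((hv n hn).1 hA)⟩ h
    · rintro ⟨i, hi, h⟩ ⟨j, hj, h'⟩
      obtain ⟨k, hk, h''⟩ := h2 i hi j hj
      obtain ⟨n, hn⟩ := hne k hk
      exact h' (h'' n hn).2 (h (h'' n hn).1)
  refine ⟨Ultrafilter.ofComplNotMemIff F hc, ?_, hF⟩
  rintro n ⟨i, hi, h⟩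
  obtain ⟨m, hm, hm'⟩ := h1 i hi (n + 1)
  have : m = n := h hm'
  omega

end ultra

section main

variable {H : Type} [NormedAddCommGroup H] [InnerProductSpace ℂ H] [CompleteSpace H]
variable {N : VonNeumannAlgebra H} {T : TracialState N}

/-- a sequence which is dense in the 2-norm, with control of the norm -/
def DenseSeq (T : TracialState N) (D : ℕ → Elt N) : Prop :=
  ∀ (x : Elt N) (ε : ℝ), 0 < ε → ∃ k, ‖D k‖ ≤ ‖x‖ + 1 ∧ n2 T.τ (x - D k) < ε

variable {Q : Type} [Ring Q] [StarRing Q] [Algebra ℂ Q] [StarModule ℂ Q]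
variable {U : Ultrafilter ℕ} {π : (ℕ →ᵇ Elt N) →⋆ₐ[ℂ] Q} {σ : Q → ℂ}

/-- every element of the ultrapower is given by a sequence of terms of `D` -/
theorem exists_rep {D : ℕ → Elt N} (hD : DenseSeq T D) (hU : ∀ n, {n} ∉ U)
    (hπ : IsTracialUltrapower T.τ U π σ) (q : Q) :
    ∃ (z : ℕ → ℕ) (d : ℕ →ᵇ Elt N), (∀ n, d n = D (z n)) ∧ π d = q := by
  obtain ⟨x, rfl⟩ := hπ.surj q
  choose z hz1 hz2 using fun n : ℕ => hD (x n) (1 / ((n : ℝ) + 1)) Nat.one_div_pos_of_nat
  let d : ℕ →ᵇ Elt N := BoundedContinuousFunction.ofNormedAddCommGroupDiscrete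
    (fun n => D (z n)) (‖x‖ + 1) (fun n => (hz1 n).trans
      (add_le_add_left (x.norm_coe_le_norm n) 1))
  refine ⟨z, d, fun n => rfl, ?_⟩
  rw [eq_comm, pi_eq_iff hπ]
  have h1 : Tendsto (fun n : ℕ => 1 / ((n : ℝ) + 1)) U (𝓝 0) :=
    tendsto_one_div_add_atTop_nhds_zero_nat.mono_left (CE.le_atTop_of_nonprincipal hU)
  exact squeeze_zero (fun n => n2_nonneg _ _) (fun n => (hz2 n).le) h1

theorem tendsto_re (hπ : IsTracialUltrapower T.τ U π σ) (x : ℕ →ᵇ Elt N) :
    Tendsto (fun n => (T.τ (star (x n) * x n)).re) U (𝓝 (σ (star (π x) * π x)).re) := by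
  have h1 := hπ.trace (star x * x)
  rw [map_mul, map_star] at h1
  exact (Complex.continuous_re.tendsto _).comp h1

theorem sin_bound (j k : ℕ) (h : k ≤ j) : 4 * Real.sin (ang j) ^ 2 ≤ 4 / ((k : ℝ) + 1) := by
  have hk : (0 : ℝ) < (k : ℝ) + 1 := by positivity
  have hj : (0 : ℝ) < (j : ℝ) + 1 := by positivity
  have h1 : 0 ≤ ang j := by unfold ang; positivity
  have h2 : ang j ≤ 1 / ((k : ℝ) + 1) := by
    unfold ang
    have : (k : ℝ) ≤ j := by exact_mod_cast h
    exact one_div_le_one_div_of_le hk (by linarith)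
  have h3 : ang j ≤ 1 := by
    unfold ang
    rw [div_le_one hj]
    have : (0 : ℝ) ≤ j := Nat.cast_nonneg j
    linarith
  have h4 : Real.sin (ang j) ^ 2 ≤ ang j ^ 2 := by
    have h5 := Real.abs_sin_le_abs (x := ang j)
    exact sq_le_sq.2 h5
  have h6 : ang j ^ 2 ≤ ang j := by nlinarith
  calc 4 * Real.sin (ang j) ^ 2 ≤ 4 * (1 / ((k : ℝ) + 1)) := by linarith
    _ = 4 / ((k : ℝ) + 1) := by ring

theorem sin_pos (j : ℕ) : 0 < 4 * Real.sin (ang j) ^ 2 := by
  have hj : (0 : ℝ) < (j : ℝ) + 1 := by positivity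
  have h1 : 0 < ang j := by unfold ang; positivity
  have h3 : ang j ≤ 1 := by
    unfold ang
    rw [div_le_one hj]
    have : (0 : ℝ) ≤ j := Nat.cast_nonneg j
    linarith
  have h4 : 0 < Real.sin (ang j) :=
    Real.sin_pos_of_pos_of_lt_pi h1 (by linarith [Real.pi_gt_three])
  positivity

/-- The hypothesis implies that (S) fails. -/
theorem main_aux {R K : Type} {B : R → Set ℕ} {ev : K → List ℕ → ℕ} (hPhi : Phi B ev)
    {W : VV → Elt N} (hW : PauliSys T.τ W) {D : ℕ → Elt N} (hD : DenseSeq T D) :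
    ¬ HoldsS N (fun x => T.τ x) := by
  classical
  obtain ⟨u, hu, hmain⟩ := hPhi
  obtain ⟨U, hU, hUB⟩ := exists_ultra hu
  obtain ⟨Q, iQ1, iQ2, iQ3, iQ4, π, σ, hπ⟩ := exists_ultrapower T U
  have hA := trAlg T
  intro hS
  obtain ⟨E, iE1, iE2, iE3, b, lam, hreg, θ, hθ, htr⟩ := hS (unitary Q) U hU Q (CE.plain π) σ
    (CE.plain_tracial hπ) ⟨MonoidHom.id _, Function.injective_id⟩
  have hlam : lam = lamK b := eq_lamK b lam hreg
  subst hlam
  let lm : unitary Q → Elt (vnGen (Set.range (lamK b))) := fun h => ⟨lamK b h, lamK_mem b h⟩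
  let Th : unitary Q → Q := fun h => θ (lm h)
  have hTmul : ∀ g h, Th (g * h) = Th g * Th h := by
    intro g h
    show θ (lm (g * h)) = θ (lm g) * θ (lm h)
    rw [← map_mul]
    congr 1
    exact Subtype.ext (lamK_mul b g h)
  have hTone : Th 1 = 1 := by
    show θ (lm 1) = 1
    rw [← map_one θ]
    congr 1
    exact Subtype.ext (lamK_one b)
  have hTstar : ∀ g, star (Th g) = Th g⁻¹ := by
    intro g
    show star (θ (lm g)) = θ (lm g⁻¹)
    rw [← map_star]
    congr 1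
    exact Subtype.ext (star_lamK b g)
  have hTtr : ∀ g, g ≠ 1 → σ (Th g) = 0 := by
    intro g hg
    have h1 := htr (lm g)
    have h2 : σ (Th g) = ⟪b 1, lamK b g (b 1)⟫_ℂ := h1
    rw [h2, lamK_basis, mul_one]
    exact inner_bb b _ _ (Ne.symm hg)
  -- the unitaries
  have hmk : ∀ x : ℕ →ᵇ Elt N, (∀ n, x n ∈ unitary (Elt N)) → π x ∈ unitary Q := by
    intro x hx
    have h1 : star x * x = 1 := by
      ext1 n
      exact (Unitary.mem_iff.1 (hx n)).1
    have h2 : x * star x = 1 := by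
      ext1 n
      exact (Unitary.mem_iff.1 (hx n)).2
    rw [Unitary.mem_iff, ← map_star, ← map_mul, ← map_mul, h1, h2, map_one]
    exact ⟨rfl, rfl⟩
  let ua : K → ℕ →ᵇ Elt N := fun a => mkB fun n => ⟨uan W (ev a) n, uan_unitary hW _ _⟩
  have hua : ∀ a n, ua a n = uan W (ev a) n := fun a n => rfl
  let γ : K → unitary Q := fun a => ⟨π (ua a), hmk _ fun n => uan_unitary hW _ _⟩
  choose z d hd hdq using fun a : K => exists_rep hD hU hπ (Th (γ a))
  obtain ⟨g, hg, hgm⟩ := hmain fun a n m =>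
    1 < (T.τ (star (D m * D (z a n) - D (z a n) * D m) * (D m * D (z a n) - D (z a n) * D m))).re
  let Xg : ℕ →ᵇ Elt N := mkB fun n => ⟨xs W (firstVals g n), xs_unitary hW _⟩
  have hXg : ∀ n, Xg n = xs W (firstVals g n) := fun n => rfl
  let γX : unitary Q := ⟨π Xg, hmk _ fun n => xs_unitary hW _⟩
  obtain ⟨y, e, he, heq⟩ := exists_rep hD hU hπ (Th γX)
  obtain ⟨a, ha⟩ := hgm y
  -- the commutators
  set c1 : ℕ →ᵇ Elt N := Xg * ua a - ua a * Xg with hc1
  have hc1n : ∀ n, (T.τ (star (c1 n) * c1 n)) =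
      ((4 * Real.sin (ang (ev a (firstVals g n))) ^ 2 : ℝ) : ℂ) := fun n =>
    tau_comm hA hW (ev a) n (firstVals g n) (firstVals_mem g hg n)
  set c2 : ℕ →ᵇ Elt N := e * d a - d a * e with hc2
  have hc2n : ∀ n, c2 n = D (y n) * D (z a n) - D (z a n) * D (y n) := by
    intro n
    show e n * d a n - d a n * e n = _
    rw [he, hd]
  have hc2q : π c2 = Th γX * Th (γ a) - Th (γ a) * Th γX := by
    rw [hc2, map_sub, map_mul, map_mul, heq, hdq]
  have hc1q : π c1 = (γX : Q) * (γ a : Q) - (γ a : Q) * (γX : Q) := by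
    rw [hc1, map_sub, map_mul, map_mul]
  rcases ha with ⟨k, i, hi, hB⟩ | ⟨hk, i, hi, hB⟩
  · -- the first alternative
    have hBU : B i ∈ U := (hUB _).2 ⟨i, hi, subset_rfl⟩
    have hne : γX * γ a ≠ γ a * γX := by
      intro h
      have h1 : π c1 = 0 := by
        rw [hc1q, sub_eq_zero]
        exact congrArg Subtype.val h
      have h2 := (hπ.ker c1).1 h1
      have h3 : Tendsto (fun n => T.τ (star (c1 n) * c1 n)) U
          (𝓝 ((4 * Real.sin (ang k) ^ 2 : ℝ) : ℂ)) := by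
        refine tendsto_const_nhds.congr' ?_
        filter_upwards [hBU] with n hn
        rw [hc1n, (hB n hn).1]
      have h4 := tendsto_nhds_unique h2 h3
      have h5 : (4 * Real.sin (ang k) ^ 2 : ℝ) = 0 := by exact_mod_cast h4.symm
      exact (sin_pos k).ne' h5
    have hval : σ (star (π c2) * π c2) = 2 := by
      have hL := sigma_trAlg hπ
      have e1 : star (π c2) * π c2 = 2 - Th ((γX * γ a)⁻¹ * (γ a * γX)) -
          Th ((γ a * γX)⁻¹ * (γX * γ a)) := by
        have k1 : Th γX * Th (γ a) = Th (γX * γ a) := (hTmul _ _).symm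
        have k2 : Th (γ a) * Th γX = Th (γ a * γX) := (hTmul _ _).symm
        rw [hc2q, k1, k2, star_sub, hTstar, hTstar, sub_mul, mul_sub, mul_sub, ← hTmul, ← hTmul,
          ← hTmul, ← hTmul, inv_mul_cancel, inv_mul_cancel, hTone]
        have : (2 : Q) = 1 + 1 := one_add_one_eq_two.symm
        rw [this]
        abel
      have e2 : σ (star (π c2) * π c2) = sigmaL hπ (star (π c2) * π c2) := rfl
      rw [e2, e1, map_sub, map_sub]
      have e3 : ∀ q : Q, sigmaL hπ q = σ q := fun q => rfl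
      have e4 : sigmaL hπ 2 = 2 := by
        have : (2 : Q) = 1 + 1 := one_add_one_eq_two.symm
        rw [this, map_add, hL.one]
        norm_num
      rw [e4, e3, e3, hTtr, hTtr, sub_zero, sub_zero]
      · intro h
        apply hne
        have := eq_of_inv_mul_eq_one h
        exact this.symm
      · intro h
        apply hne
        exact eq_of_inv_mul_eq_one h
    have h6 := tendsto_re hπ c2
    rw [hval] at h6
    have h7 : ∀ᶠ n in (U : Filter ℕ), 1 < (T.τ (star (c2 n) * c2 n)).re :=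
      h6.eventually (lt_mem_nhds (by norm_num))
    obtain ⟨n, hn, hn'⟩ := (h7.and hBU).exists
    rw [hc2n] at hn
    exact (hB n hn').2 hn
  · -- the second alternative
    have hBU : B i ∈ U := (hUB _).2 ⟨i, hi, subset_rfl⟩
    have h1 : Tendsto (fun n => T.τ (star (c1 n) * c1 n)) U (𝓝 0) := by
      rw [Metric.tendsto_nhds]
      intro ε hε
      obtain ⟨k, hk'⟩ := exists_nat_gt (4 / ε)
      obtain ⟨i', hi', hB'⟩ := hk k
      have hBU' : B i' ∈ U := (hUB _).2 ⟨i', hi', subset_rfl⟩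
      filter_upwards [hBU'] with n hn
      rw [hc1n, dist_zero_right, Complex.norm_real, Real.norm_eq_abs, abs_of_pos (sin_pos _)]
      refine (sin_bound _ k (hB' n hn)).trans_lt ?_
      rw [div_lt_iff₀ (by positivity)]
      rw [div_lt_iff₀ hε] at hk'
      nlinarith
    have h2 : π c1 = 0 := (hπ.ker c1).2 h1
    have h3 : γX * γ a = γ a * γX := by
      apply Subtype.ext
      rw [hc1q, sub_eq_zero] at h2
      exact h2
    have h4 : π c2 = 0 := by
      rw [hc2q, sub_eq_zero, ← hTmul, ← hTmul, h3]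
    have h6 := tendsto_re hπ c2
    rw [h4, mul_zero] at h6
    have h0 : σ 0 = 0 := map_zero (sigmaL hπ)
    rw [h0] at h6
    have h7 : ∀ᶠ n in (U : Filter ℕ), (T.τ (star (c2 n) * c2 n)).re < 1 :=
      h6.eventually (gt_mem_nhds (by norm_num))
    obtain ⟨n, hn, hn'⟩ := (h7.and hBU).exists
    rw [hc2n] at hn
    exact absurd (hB n hn') (not_lt.2 hn.le)

end main

end Pool.Agent.H554V
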