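import Mathlib
import Pool.Agent.Helper436.SM.Stmt
import Pool.Agent.Helper436.SM.Center
import Pool.Agent.Helper436.SM.NoPty
import Pool.Agent.Helper436.SM.ExR
import Pool.Agent.Helper436.SM.Hyp

/-!
# The hyperfinite II₁ factor with its Pauli unitaries
-/

set_option autoImplicit false
set_option linter.unusedSectionVars false

open scoped Topology ComplexOrder

namespace Pool.Agent.H554V

open Pool.Agent.Helper278 Pool.Agent.Helper278.CE Pool.Agent.Helper436.SM

/-- the gap for the trivial group -/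
theorem z2_gapAll_unit : GapAll Unit := by
  refine ⟨∅, 0, le_rfl, fun f r hf _ _ => ?_⟩
  have : f = 0 := by
    ext t
    exact hf t (Subsingleton.elim _ _)
  rw [this, norm_zero, zero_mul]

/-- `R` as an algebra of the form `PB` for the trivial group -/
theorem z2_pb_unit {A : Type} [Ring A] [StarRing A] [Algebra ℂ A] [StarModule ℂ A]
    {τ : A →ₗ[ℂ] ℂ} (hτ : TrAlg τ) {W : VV → A} (hW : PauliSys τ W)
    (hP : ∀ x : A, HasSum (fun v => ‖τ (star (W v) * x)‖ ^ 2) (n2 τ x ^ 2)) :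
    PB τ (1 : Unit →* A) W := by
  refine ⟨hτ, fun g => ?_, hW.zero, NoPty.hW_unit_left hW, NoPty.hW_unit_right hW,
    fun g v => ?_, NoPty.hW_comm hW, fun x => ?_⟩
  · rw [MonoidHom.one_apply, star_one]
  · rw [MonoidHom.one_apply, one_mul, mul_one]
  · have h1 := ((Equiv.punitProd VV).hasSum_iff (f := fun v => ‖τ (star (W v) * x)‖ ^ 2)
      (a := n2 τ x ^ 2)).2 (hP x)
    refine h1.congr_fun fun t => ?_
    rw [MonoidHom.one_apply, one_mul]
    rfl

/-- The hyperfinite II₁ factor with its Pauli unitaries. -/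
theorem z2_exists_R : ∃ (H : Type) (_ : NormedAddCommGroup H) (_ : InnerProductSpace ℂ H)
    (_ : CompleteSpace H) (N : VonNeumannAlgebra H) (T : TracialState N) (W : VV → Elt N),
    PauliSys T.τ W ∧ IsHyperfiniteII N (fun x => T.τ x) := by
  obtain ⟨H, i1, i2, i3, N, T, W, hW, hP⟩ := ExR.exists_R
  have h := z2_pb_unit (trAlg T) hW hP
  refine ⟨H, i1, i2, i3, N, T, W, hW, ⟨⟨?_, h.infinite, ⟨T.map_one, T.tracial, T.faithful⟩,
    T.normal⟩, Hyp.hyperfinite_of_pauli (trAlg T) hW hP⟩⟩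
  intro z hz hcom
  obtain ⟨c, hc⟩ := h.center z2_gapAll_unit (⟨z, hz⟩ : Elt N) (fun x => Subtype.ext (hcom x x.2))
  exact ⟨c, congrArg Subtype.val hc⟩

end Pool.Agent.H554V
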