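import Mathlib
import Pool.Agent.H554V.Z1
import Pool.Agent.H554V.Z2
import Pool.Agent.H554V.Z2b

/-!
# The hypothesis implies that (S) fails
-/

set_option autoImplicit false

namespace Pool.Agent.H554V

open Pool.Agent.Helper278 Pool.Agent.Helper436.SM

/-- paper 1 -/
theorem main_zfc : MainZfc := by
  intro R K B ev hPhi
  obtain ⟨H, i1, i2, i3, N, T, W, hW, hII⟩ := z2_exists_R
  obtain ⟨D, hD⟩ := z1 N (fun x => T.τ x) hII.1.trace hII.1.normal hII.2
  exact ⟨H, i1, i2, i3, N, fun x => T.τ x, hII, main_aux hPhi hW (D := D) hD⟩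

end Pool.Agent.H554V
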